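import Mathlib.MeasureTheory.Integral.Bochner.Basic
import Mathlib.MeasureTheory.Measure.Haar.OfBasis
import Mathlib.LinearAlgebra.Complex.FiniteDimensional
import Mathlib.Analysis.CStarAlgebra.Classes
import Mathlib.Geometry.Manifold.ContMDiff.Defs
import Mathlib.Geometry.Manifold.MFDeriv.Defs
import Mathlib.Topology.VectorBundle.Basic
import Mathlib.Analysis.InnerProductSpace.Laplacian

/-! Hermitian holomorphic line bundles on a Riemann surface and their Bergman kernels.

A line bundle is given by a `VectorBundleCore` with fibre `ℂ`: an open cover `L.baseSet i` with a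
frame `e i` over each piece; the coordinate of a vector in the frame `e j` is its coordinate in the
frame `e i` times the transition function `L.coordChange i j x 1`. -/

set_option autoImplicit false

open scoped Manifold ContDiff

namespace Pool.Agent.MP_6c43ae_an

variable {M : Type} [TopologicalSpace M] [ChartedSpace ℂ M] {ι : Type}

/-- The functions `h i = h (e i, e i)` form a smooth Hermitian metric on `L` whose curvature form
is positive: `- log (h i)` has positive Laplacian in a holomorphic chart at every point. -/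
structure IsPositiveMetric (L : VectorBundleCore ℂ M ℂ ι) (h : ι → M → ℝ) : Prop where
  pos : ∀ i, ∀ x ∈ L.baseSet i, 0 < h i x
  smooth : ∀ i, ContMDiffOn 𝓘(ℝ, ℂ) 𝓘(ℝ, ℝ) ∞ (h i) (L.baseSet i)
  compat : ∀ i j, ∀ x ∈ L.baseSet i ∩ L.baseSet j, h i x = ‖L.coordChange i j x 1‖ ^ 2 * h j x
  curvature_pos : ∀ i, ∀ x ∈ L.baseSet i,
    0 < Laplacian.laplacian (fun y : ℂ => -Real.log (h i ((chartAt ℂ x).symm y))) (chartAt ℂ x x)

/-- Each `h (e i, e i)` is real analytic, read in a holomorphic chart at each point. -/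
def IsAnalyticMetric (L : VectorBundleCore ℂ M ℂ ι) (h : ι → M → ℝ) : Prop :=
  ∀ i, ∀ x ∈ L.baseSet i, AnalyticAt ℝ (fun y : ℂ => h i ((chartAt ℂ x).symm y)) (chartAt ℂ x x)

/-- `μ` is the measure of a smooth volume form: in each chart it has a smooth positive density
with respect to Lebesgue measure. -/
def IsSmoothVolume [MeasurableSpace M] (μ : MeasureTheory.Measure M) : Prop :=
  ∀ x : M, ∃ ρ : ℂ → ℝ, ContDiffOn ℝ ∞ ρ (chartAt ℂ x).target ∧
    (∀ y ∈ (chartAt ℂ x).target, 0 < ρ y) ∧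
    ∀ A : Set ℂ, MeasurableSet A → A ⊆ (chartAt ℂ x).target →
      μ ((chartAt ℂ x).symm '' A) = ∫⁻ y in A, ENNReal.ofReal (ρ y)

/-- The functions `s i` are the coordinates, in the frames `(e i) ^ k`, of a holomorphic section
of `L ^ k`. -/
structure IsHolSection (L : VectorBundleCore ℂ M ℂ ι) (k : ℕ) (s : ι → M → ℂ) : Prop where
  hol : ∀ i, MDifferentiableOn 𝓘(ℂ, ℂ) 𝓘(ℂ, ℂ) (s i) (L.baseSet i)
  compat : ∀ i j, ∀ x ∈ L.baseSet i ∩ L.baseSet j, s j x = (L.coordChange i j x 1) ^ k * s i x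

/-- The inner product `∫ h ^ k (s, t) dμ` of two sections of `L ^ k`. -/
noncomputable def innerProd [MeasurableSpace M] (L : VectorBundleCore ℂ M ℂ ι) (h : ι → M → ℝ)
    (μ : MeasureTheory.Measure M) (k : ℕ) (s t : ι → M → ℂ) : ℂ :=
  ∫ x, s (L.indexAt x) x * (starRingEnd ℂ) (t (L.indexAt x) x) * (h (L.indexAt x) x : ℂ) ^ k ∂μ

/-- `s 0, …, s (N - 1)` is an orthonormal basis of the space of holomorphic sections of
`L ^ k`. -/
structure IsOrthonormalBasis [MeasurableSpace M] (L : VectorBundleCore ℂ M ℂ ι) (h : ι → M → ℝ)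
    (μ : MeasureTheory.Measure M) (k N : ℕ) (s : Fin N → ι → M → ℂ) : Prop where
  hol : ∀ a, IsHolSection L k (s a)
  orthonormal : ∀ a b, innerProd L h μ k (s a) (s b) = if a = b then 1 else 0
  span : ∀ t, IsHolSection L k t →
    ∃ c : Fin N → ℂ, ∀ i, ∀ x ∈ L.baseSet i, t i x = ∑ a, c a * s a i x

/-- The norm, for the metric `h ^ k`, of the Bergman kernel `∑ a, s a z ⊗ conj (s a w)`. -/
noncomputable def bergmanNorm (L : VectorBundleCore ℂ M ℂ ι) (h : ι → M → ℝ) (k N : ℕ)
    (s : Fin N → ι → M → ℂ) (z w : M) : ℝ :=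
  ‖∑ a, s a (L.indexAt z) z * (starRingEnd ℂ) (s a (L.indexAt w) w)‖
    * √(h (L.indexAt z) z) ^ k * √(h (L.indexAt w) w) ^ k

end Pool.Agent.MP_6c43ae_an
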