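import Mathlib.Topology.Sheaves.Presheaf
import Mathlib.Tactic.Monotonicity.Lemmas
import Mathlib.Algebra.Group.ForwardDiff
import Mathlib.Algebra.Order.Star.Real
import Mathlib.Analysis.CStarAlgebra.Classes
import Mathlib.Analysis.Complex.OpenMapping
import Mathlib.Analysis.SpecialFunctions.ImproperIntegrals

-- ======== part 0: formerly Pool.Agent.MP_6c43ae_an.Weight
section MrgPart0

/-! The weight `G(p) = log (1 + e^p) + ε exp (-e^p)` on the strip `|Im p| ≤ 1/10`. -/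

set_option autoImplicit false

namespace Pool.Agent.MP_6c43ae_an

open Complex

noncomputable def GG (ε : ℝ) (p : ℂ) : ℂ := Complex.log (1 + cexp p) + ε * cexp (-cexp p)

noncomputable def G1 (ε : ℝ) (p : ℂ) : ℂ := cexp p / (1 + cexp p) - ε * (cexp p * cexp (-cexp p))

noncomputable def G2 (ε : ℝ) (p : ℂ) : ℂ :=
  cexp p / (1 + cexp p) ^ 2 + ε * ((cexp p ^ 2 - cexp p) * cexp (-cexp p))

noncomputable def gg (ε : ℝ) (x : ℝ) : ℝ :=
  Real.log (1 + Real.exp x) + ε * Real.exp (-Real.exp x)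

noncomputable def g1 (ε : ℝ) (x : ℝ) : ℝ :=
  Real.exp x / (1 + Real.exp x) - ε * (Real.exp x * Real.exp (-Real.exp x))

noncomputable def g2 (ε : ℝ) (x : ℝ) : ℝ :=
  Real.exp x / (1 + Real.exp x) ^ 2
    + ε * ((Real.exp x ^ 2 - Real.exp x) * Real.exp (-Real.exp x))

noncomputable def TT (x : ℝ) : ℝ := Real.exp x / (1 + Real.exp x) ^ 2

lemma TT_pos (x : ℝ) : 0 < TT x := by unfold TT; positivity

lemma TT_le (x : ℝ) : TT x ≤ 1 / 4 := by
  unfold TT
  have h := Real.exp_pos x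
  rw [div_le_div_iff₀ (by positivity) (by norm_num)]
  nlinarith [sq_nonneg (1 - Real.exp x)]

lemma GG_ofReal (ε x : ℝ) : GG ε x = (gg ε x : ℂ) := by
  unfold GG gg
  have h : (0 : ℝ) ≤ 1 + Real.exp x := by positivity
  push_cast
  rw [Complex.ofReal_log h]
  push_cast
  rfl

lemma G1_ofReal (ε x : ℝ) : G1 ε x = (g1 ε x : ℂ) := by
  unfold G1 g1; push_cast; rfl

lemma G2_ofReal (ε x : ℝ) : G2 ε x = (g2 ε x : ℂ) := by
  unfold G2 g2; push_cast; rfl

lemma cos_ge_half {y : ℝ} (hy : |y| ≤ 1 / 10) : 1 / 2 ≤ Real.cos y := by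
  have h1 := Real.one_sub_sq_div_two_le_cos (x := y)
  have h2 : y ^ 2 ≤ 1 / 100 := by
    have := sq_abs y
    nlinarith [abs_nonneg y]
  linarith

lemma re_exp_ge {p : ℂ} (hp : |p.im| ≤ 1 / 10) : Real.exp p.re / 2 ≤ (cexp p).re := by
  rw [Complex.exp_re]
  have := cos_ge_half hp
  nlinarith [Real.exp_pos p.re]

lemma re_one_add_exp_pos {p : ℂ} (hp : |p.im| ≤ 1 / 10) : 0 < (1 + cexp p).re := by
  have := re_exp_ge hp
  have := Real.exp_pos p.re
  simp only [add_re, one_re]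
  linarith

lemma one_add_exp_ne {p : ℂ} (hp : |p.im| ≤ 1 / 10) : 1 + cexp p ≠ 0 := by
  intro h
  have := re_one_add_exp_pos hp
  rw [h] at this
  simp at this

lemma normSq_one_add_exp {p : ℂ} (hp : |p.im| ≤ 1 / 10) :
    1 + Real.exp p.re ^ 2 ≤ ‖1 + cexp p‖ ^ 2 := by
  have h1 := re_exp_ge hp
  have h2 : ‖cexp p‖ = Real.exp p.re := Complex.norm_exp p
  have h3 : ‖1 + cexp p‖ ^ 2 = 1 + 2 * (cexp p).re + ‖cexp p‖ ^ 2 := by
    rw [Complex.sq_norm, Complex.sq_norm, Complex.normSq_apply, Complex.normSq_apply]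
    simp only [add_re, one_re, add_im, one_im]
    ring
  rw [h3, h2]
  have := Real.exp_pos p.re
  linarith

lemma hasDerivAt_GG (ε : ℝ) {p : ℂ} (hp : |p.im| ≤ 1 / 10) : HasDerivAt (GG ε) (G1 ε p) p := by
  have he := Complex.hasDerivAt_exp p
  have h1 : HasDerivAt (fun q => 1 + cexp q) (cexp p) p := he.const_add 1
  have h2 := h1.clog (Or.inl (re_one_add_exp_pos hp))
  have h3 : HasDerivAt (fun q => cexp (-cexp q)) (cexp (-cexp p) * (-cexp p)) p := he.neg.cexp
  have h4 := h2.add (h3.const_mul (ε : ℂ))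
  refine HasDerivAt.congr_deriv h4 ?_
  unfold G1; ring

lemma hasDerivAt_G1 (ε : ℝ) {p : ℂ} (hp : |p.im| ≤ 1 / 10) : HasDerivAt (G1 ε) (G2 ε p) p := by
  have he := Complex.hasDerivAt_exp p
  have h1 : HasDerivAt (fun q => 1 + cexp q) (cexp p) p := he.const_add 1
  have h2 := he.div h1 (one_add_exp_ne hp)
  have h3 : HasDerivAt (fun q => cexp (-cexp q)) (cexp (-cexp p) * (-cexp p)) p := he.neg.cexp
  have h4 := h2.sub ((he.mul h3).const_mul (ε : ℂ))
  refine HasDerivAt.congr_deriv h4 ?_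
  unfold G2
  have := one_add_exp_ne hp
  field_simp
  ring

lemma cube_le_exp {t : ℝ} (ht : 0 ≤ t) : (1 + t) ^ 3 * Real.exp (-(t / 2)) ≤ 216 := by
  have h1 : (1 + t) / 6 ≤ Real.exp (t / 6) := by
    have := Real.add_one_le_exp (t / 6); linarith
  have h2 : ((1 + t) / 6) ^ 3 ≤ Real.exp (t / 6) ^ 3 := by gcongr
  have h3 : Real.exp (t / 6) ^ 3 = Real.exp (t / 2) := by
    rw [← Real.exp_nat_mul]; congr 1; push_cast; ring
  rw [h3] at h2
  rw [Real.exp_neg, ← div_eq_mul_inv, div_le_iff₀ (Real.exp_pos _)]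
  nlinarith

/-- The second derivative is close to the positive function `TT` on the strip. -/
lemma norm_G2_sub {ε : ℝ} (hε : 0 ≤ ε) (hε' : ε ≤ 1 / 10000) {p : ℂ} (hp : |p.im| ≤ 1 / 10) :
    ‖G2 ε p - TT p.re‖ ≤ TT p.re / 5 := by
  set τ := cexp p with hτ
  set t := Real.exp p.re with ht
  have ht0 : 0 < t := Real.exp_pos _
  have hnτ : ‖τ‖ = t := Complex.norm_exp p
  have hne : 1 + τ ≠ 0 := one_add_exp_ne hp
  have hne' : (1 + (t : ℂ)) ≠ 0 := by
    have : (1 + (t : ℂ)) = ((1 + t : ℝ) : ℂ) := by push_cast; rfl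
    rw [this]; exact_mod_cast (by positivity : (1 + t) ≠ 0)
  have hd : ‖τ - t‖ ≤ t / 10 := by
    have e : τ - t = t * (cexp (I * p.im) - 1) := by
      rw [hτ, ht]
      conv_lhs => rw [← Complex.re_add_im p, Complex.exp_add]
      push_cast
      simp only [add_re, ofReal_re, mul_re, I_re, mul_zero, ofReal_im, I_im, mul_one, sub_self,
        add_zero]
      rw [mul_comm I]; ring
    rw [e, norm_mul, Complex.norm_real, Real.norm_of_nonneg ht0.le]
    have := Real.norm_exp_I_mul_ofReal_sub_one_le (x := p.im)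
    rw [Real.norm_eq_abs] at this
    nlinarith
  have hA : ‖τ / (1 + τ) ^ 2 - (TT p.re : ℂ)‖ ≤ TT p.re / 10 := by
    have e : τ / (1 + τ) ^ 2 - (TT p.re : ℂ)
        = (τ - t) * (1 - τ * t) / ((1 + τ) ^ 2 * (1 + t) ^ 2) := by
      unfold TT; rw [← ht]; push_cast; field_simp; ring
    have hn1 : ‖1 - τ * t‖ ≤ 1 + t ^ 2 := by
      calc _ ≤ ‖(1 : ℂ)‖ + ‖τ * t‖ := norm_sub_le _ _
        _ = 1 + t ^ 2 := by
          rw [norm_one, norm_mul, hnτ, Complex.norm_real, Real.norm_of_nonneg ht0.le]; ring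
    have hn2 : 1 + t ^ 2 ≤ ‖1 + τ‖ ^ 2 := normSq_one_add_exp hp
    have hn3 : ‖(1 + (t : ℂ))‖ = 1 + t := by
      have : (1 + (t : ℂ)) = ((1 + t : ℝ) : ℂ) := by push_cast; rfl
      rw [this, Complex.norm_real, Real.norm_of_nonneg (by positivity)]
    rw [e, norm_div, norm_mul, norm_mul, norm_pow, norm_pow, hn3]
    have hpos : 0 < ‖1 + τ‖ ^ 2 := by nlinarith [sq_nonneg t]
    rw [div_le_iff₀ (by positivity)]
    unfold TT; rw [← ht]
    have e2 : t / (1 + t) ^ 2 / 10 * (‖1 + τ‖ ^ 2 * (1 + t) ^ 2) = t / 10 * ‖1 + τ‖ ^ 2 := by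
      field_simp
    rw [e2]
    exact mul_le_mul hd (hn1.trans hn2) (norm_nonneg _) (by positivity)
  have hB : ‖(ε : ℂ) * ((τ ^ 2 - τ) * cexp (-τ))‖ ≤ TT p.re / 10 := by
    rw [norm_mul, norm_mul, Complex.norm_real, Real.norm_of_nonneg hε, Complex.norm_exp]
    have h1 : ‖τ ^ 2 - τ‖ ≤ t * (1 + t) := by
      calc _ ≤ ‖τ ^ 2‖ + ‖τ‖ := norm_sub_le _ _
        _ = t * (1 + t) := by rw [norm_pow, hnτ]; ring
    have h2 : Real.exp (-τ).re ≤ Real.exp (-(t / 2)) := by
      apply Real.exp_le_exp.2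
      have := re_exp_ge hp
      simp only [neg_re]
      linarith
    have h3 := cube_le_exp ht0.le
    have h4 : ‖τ ^ 2 - τ‖ * Real.exp (-τ).re ≤ t * (1 + t) * Real.exp (-(t / 2)) :=
      mul_le_mul h1 h2 (Real.exp_pos _).le (by positivity)
    have h5 : t * (1 + t) * Real.exp (-(t / 2)) ≤ 216 * TT p.re := by
      unfold TT; rw [← ht]
      have e : t * (1 + t) * Real.exp (-(t / 2))
          = ((1 + t) ^ 3 * Real.exp (-(t / 2))) * (t / (1 + t) ^ 2) := by
        field_simp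
      rw [e]
      exact mul_le_mul_of_nonneg_right h3 (by positivity)
    have h6 := TT_pos p.re
    calc ε * (‖τ ^ 2 - τ‖ * Real.exp (-τ).re) ≤ (1 / 10000) * (216 * TT p.re) :=
          mul_le_mul hε' (h4.trans h5) (by positivity) (by norm_num)
      _ ≤ TT p.re / 10 := by linarith
  have e : G2 ε p - TT p.re
      = (τ / (1 + τ) ^ 2 - (TT p.re : ℂ)) + (ε : ℂ) * ((τ ^ 2 - τ) * cexp (-τ)) := by
    unfold G2; rw [← hτ]; ring
  rw [e]
  have := norm_add_le (τ / (1 + τ) ^ 2 - (TT p.re : ℂ)) ((ε : ℂ) * ((τ ^ 2 - τ) * cexp (-τ)))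
  linarith

lemma re_G2_ge {ε : ℝ} (hε : 0 ≤ ε) (hε' : ε ≤ 1 / 10000) {p : ℂ} (hp : |p.im| ≤ 1 / 10) :
    4 / 5 * TT p.re ≤ (G2 ε p).re := by
  have h := norm_G2_sub hε hε' hp
  have h2 := Complex.abs_re_le_norm (G2 ε p - TT p.re)
  simp only [sub_re, ofReal_re] at h2
  have := abs_le.1 (h2.trans h)
  linarith [this.1]

lemma re_G2_le {ε : ℝ} (hε : 0 ≤ ε) (hε' : ε ≤ 1 / 10000) {p : ℂ} (hp : |p.im| ≤ 1 / 10) :
    (G2 ε p).re ≤ 1 := by
  have h := norm_G2_sub hε hε' hp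
  have h2 := Complex.abs_re_le_norm (G2 ε p - TT p.re)
  simp only [sub_re, ofReal_re] at h2
  have := abs_le.1 (h2.trans h)
  linarith [this.2, TT_le p.re]

lemma abs_im_G2_le {ε : ℝ} (hε : 0 ≤ ε) (hε' : ε ≤ 1 / 10000) {p : ℂ} (hp : |p.im| ≤ 1 / 10) :
    |(G2 ε p).im| ≤ (G2 ε p).re / 4 := by
  have h := norm_G2_sub hε hε' hp
  have h2 := Complex.abs_im_le_norm (G2 ε p - TT p.re)
  simp only [sub_im, ofReal_im, sub_zero] at h2
  have := re_G2_ge hε hε' hp
  linarith

/-- Lower bound for the real part of the weight on the strip. -/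
lemma re_GG_ge {ε : ℝ} (hε : 0 ≤ ε) (hε' : ε ≤ 1 / 10000) {p : ℂ} (hp : |p.im| ≤ 1 / 10) :
    max 0 p.re - 1 ≤ (GG ε p).re := by
  unfold GG
  rw [add_re, Complex.log_re]
  have h1 := normSq_one_add_exp hp
  have hpos := Real.exp_pos p.re
  have hn : 0 ≤ ‖1 + cexp p‖ := norm_nonneg _
  have ha : 1 ≤ ‖1 + cexp p‖ := by nlinarith
  have hb : Real.exp p.re ≤ ‖1 + cexp p‖ := by nlinarith
  have hla : 0 ≤ Real.log ‖1 + cexp p‖ := Real.log_nonneg ha
  have hlb : p.re ≤ Real.log ‖1 + cexp p‖ := by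
    rw [Real.le_log_iff_exp_le (by linarith)]; exact hb
  have hc : |((ε : ℂ) * cexp (-cexp p)).re| ≤ 1 := by
    refine (Complex.abs_re_le_norm _).trans ?_
    rw [norm_mul, Complex.norm_real, Real.norm_of_nonneg hε, Complex.norm_exp]
    have : Real.exp (-cexp p).re ≤ 1 := by
      rw [Real.exp_le_one_iff]
      have := re_exp_ge hp
      simp only [neg_re]; linarith
    nlinarith [Real.exp_pos (-cexp p).re]
  have := max_le hla hlb
  linarith [(abs_le.1 hc).1]

/-! Real versions. -/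

lemma hasDerivAt_gg (ε x : ℝ) : HasDerivAt (gg ε) (g1 ε x) x := by
  have h := (hasDerivAt_GG ε (p := (x : ℂ)) (by simp)).real_of_complex
  rw [G1_ofReal] at h
  simpa [GG_ofReal] using h

lemma hasDerivAt_g1 (ε x : ℝ) : HasDerivAt (g1 ε) (g2 ε x) x := by
  have h := (hasDerivAt_G1 ε (p := (x : ℂ)) (by simp)).real_of_complex
  rw [G2_ofReal] at h
  simpa [G1_ofReal] using h

lemma g2_ge {ε : ℝ} (hε : 0 ≤ ε) (hε' : ε ≤ 1 / 10000) (x : ℝ) : 4 / 5 * TT x ≤ g2 ε x := by
  have := re_G2_ge hε hε' (p := (x : ℂ)) (by simp)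
  rwa [G2_ofReal, ofReal_re, ofReal_re] at this

lemma g2_le {ε : ℝ} (hε : 0 ≤ ε) (hε' : ε ≤ 1 / 10000) (x : ℝ) : g2 ε x ≤ 1 := by
  have := re_G2_le hε hε' (p := (x : ℂ)) (by simp)
  rwa [G2_ofReal, ofReal_re] at this

lemma g1_nonneg {ε : ℝ} (hε' : ε ≤ 1 / 10000) (x : ℝ) : 0 ≤ g1 ε x := by
  unfold g1
  set t := Real.exp x
  have ht : 0 < t := Real.exp_pos x
  have h1 : Real.exp (-t) ≤ 1 / (1 + t) := by
    rw [Real.exp_neg, ← one_div]
    apply one_div_le_one_div_of_le (by positivity)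
    have := Real.add_one_le_exp t; linarith
  have h2 : t * Real.exp (-t) ≤ t / (1 + t) := by
    calc _ ≤ t * (1 / (1 + t)) := by gcongr
      _ = _ := by ring
  have h3 : 0 ≤ t * Real.exp (-t) := by positivity
  nlinarith

lemma g1_le_one {ε : ℝ} (hε : 0 ≤ ε) (x : ℝ) : g1 ε x ≤ 1 := by
  unfold g1
  set t := Real.exp x
  have ht : 0 < t := Real.exp_pos x
  have h1 : t / (1 + t) ≤ 1 := by rw [div_le_one (by positivity)]; linarith
  have h3 : 0 ≤ ε * (t * Real.exp (-t)) := by positivity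
  linarith

end Pool.Agent.MP_6c43ae_an

end MrgPart0

-- ======== part 1: formerly Pool.Agent.MP_6c43ae_an.Calc
section MrgPart1

/-! Elementary calculus lemmas and the shift of a horizontal line of integration. -/

set_option autoImplicit false

namespace Pool.Agent.MP_6c43ae_an

open Complex Set Filter Topology MeasureTheory

lemma monotoneOn_Icc_of_hasDerivAt {f f1 : ℝ → ℝ} {a b : ℝ}
    (hf : ∀ s ∈ Icc a b, HasDerivAt f (f1 s) s) (h : ∀ s ∈ Icc a b, 0 ≤ f1 s) :
    MonotoneOn f (Icc a b) := by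
  apply monotoneOn_of_deriv_nonneg (convex_Icc a b)
  · exact fun s hs => (hf s hs).continuousAt.continuousWithinAt
  · exact fun s hs => (hf s (interior_subset hs)).differentiableAt.differentiableWithinAt
  · intro s hs
    rw [(hf s (interior_subset hs)).deriv]
    exact h s (interior_subset hs)

lemma nonneg_of_deriv2 {f f1 f2 : ℝ → ℝ} {b : ℝ}
    (hf : ∀ s, |s| ≤ b → HasDerivAt f (f1 s) s) (hf1 : ∀ s, |s| ≤ b → HasDerivAt f1 (f2 s) s)
    (h2 : ∀ s, |s| ≤ b → 0 ≤ f2 s) (h0 : f 0 = 0) (h10 : f1 0 = 0) :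
    ∀ s, |s| ≤ b → 0 ≤ f s := by
  intro s hs
  have hb : 0 ≤ b := (abs_nonneg s).trans hs
  have hm : MonotoneOn f1 (Icc (-b) b) :=
    monotoneOn_Icc_of_hasDerivAt (fun t ht => hf1 t (abs_le.2 ht)) (fun t ht => h2 t (abs_le.2 ht))
  have h0m : (0 : ℝ) ∈ Icc (-b) b := ⟨by linarith, hb⟩
  rcases le_total 0 s with h | h
  · have hm2 : MonotoneOn f (Icc 0 b) := by
      apply monotoneOn_Icc_of_hasDerivAt (f1 := f1)
      · intro t ht; exact hf t (abs_le.2 ⟨by linarith [ht.1], ht.2⟩)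
      · intro t ht
        rw [← h10]
        exact hm h0m ⟨by linarith [ht.1], ht.2⟩ ht.1
    rw [← h0]
    exact hm2 ⟨le_rfl, hb⟩ ⟨h, (abs_le.1 hs).2⟩ h
  · have hm2 : MonotoneOn (fun t => -f t) (Icc (-b) 0) := by
      apply monotoneOn_Icc_of_hasDerivAt (f1 := fun t => -f1 t)
      · intro t ht; exact (hf t (abs_le.2 ⟨ht.1, by linarith [ht.2]⟩)).neg
      · intro t ht
        have := hm ⟨ht.1, by linarith [ht.2]⟩ h0m ht.2
        rw [h10] at this
        linarith
    have := hm2 ⟨(abs_le.1 hs).1, h⟩ ⟨by linarith, le_rfl⟩ h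
    simp only [h0] at this
    linarith

lemma nonneg_of_deriv2' {f f1 f2 : ℝ → ℝ}
    (hf : ∀ s, HasDerivAt f (f1 s) s) (hf1 : ∀ s, HasDerivAt f1 (f2 s) s)
    (h2 : ∀ s, 0 ≤ f2 s) (h0 : f 0 = 0) (h10 : f1 0 = 0) (s : ℝ) : 0 ≤ f s :=
  nonneg_of_deriv2 (b := |s|) (fun t _ => hf t) (fun t _ => hf1 t) (fun t _ => h2 t) h0 h10 s le_rfl

lemma convexOn_of_deriv2 {f f1 f2 : ℝ → ℝ}
    (hf : ∀ s, HasDerivAt f (f1 s) s) (hf1 : ∀ s, HasDerivAt f1 (f2 s) s)
    (h2 : ∀ s, 0 ≤ f2 s) : ConvexOn ℝ univ f := by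
  have e : deriv f = f1 := funext fun s => (hf s).deriv
  apply Monotone.convexOn_univ_of_deriv (fun s => (hf s).differentiableAt)
  rw [e]
  apply monotone_of_deriv_nonneg (fun s => (hf1 s).differentiableAt)
  intro s
  rw [(hf1 s).deriv]
  exact h2 s

lemma midpoint_le_of_convexOn {f : ℝ → ℝ} (h : ConvexOn ℝ univ f) (a b : ℝ) :
    f ((a + b) / 2) ≤ (f a + f b) / 2 := by
  have := h.2 (mem_univ a) (mem_univ b) (show (0 : ℝ) ≤ 1 / 2 by norm_num)
    (show (0 : ℝ) ≤ 1 / 2 by norm_num) (by norm_num)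
  simp only [smul_eq_mul] at this
  have e : (a + b) / 2 = 1 / 2 * a + 1 / 2 * b := by ring
  rw [e]; linarith

lemma hasDerivAt_re {f : ℝ → ℂ} {f' : ℂ} {s : ℝ} (h : HasDerivAt f f' s) :
    HasDerivAt (fun t => (f t).re) f'.re s :=
  Complex.reCLM.hasFDerivAt.comp_hasDerivAt s h

lemma hasDerivAt_im {f : ℝ → ℂ} {f' : ℂ} {s : ℝ} (h : HasDerivAt f f' s) :
    HasDerivAt (fun t => (f t).im) f'.im s :=
  Complex.imCLM.hasFDerivAt.comp_hasDerivAt s h

/-- Derivative along the real line `s ↦ p + s * u`. -/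
lemma hasDerivAt_line {F : ℂ → ℂ} {F' p u : ℂ} {s : ℝ} (h : HasDerivAt F F' (p + s * u)) :
    HasDerivAt (fun t : ℝ => F (p + t * u)) (F' * u) s := by
  have h1 : HasDerivAt (fun z : ℂ => p + z * u) u (s : ℂ) := by
    simpa using ((hasDerivAt_id (s : ℂ)).mul_const u).const_add p
  have h2 : HasDerivAt (fun z : ℂ => F (p + z * u)) (F' * u) (s : ℂ) := h.comp (s : ℂ) h1
  exact h2.comp_ofReal

lemma integrable_exp_neg_mul_abs {a : ℝ} (ha : 0 < a) :
    Integrable (fun x : ℝ => Real.exp (-a * |x|)) := by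
  rw [← integrableOn_univ, ← Iic_union_Ioi (a := (0 : ℝ))]
  apply IntegrableOn.union
  · refine (integrableOn_exp_mul_Iic ha 0).congr_fun ?_ measurableSet_Iic
    intro x hx
    simp only [abs_of_nonpos (mem_Iic.1 hx)]
    congr 1; ring
  · refine (integrableOn_exp_mul_Ioi (neg_lt_zero.2 ha) 0).congr_fun ?_ measurableSet_Ioi
    intro x hx
    simp only [abs_of_pos (mem_Ioi.1 hx)]

lemma integrable_line {F : ℂ → ℂ} {b C a : ℝ} (ha : 0 < a)
    (hF : ∀ p : ℂ, |p.im| ≤ b → DifferentiableAt ℂ F p)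
    (hB : ∀ p : ℂ, |p.im| ≤ b → ‖F p‖ ≤ C * Real.exp (-a * |p.re|)) {y : ℝ} (hy : |y| ≤ b) :
    Integrable (fun x : ℝ => F (x + y * I)) := by
  have hc : Continuous (fun x : ℝ => F (x + y * I)) := by
    rw [continuous_iff_continuousAt]
    intro x
    have h1 : ContinuousAt F ((x : ℂ) + y * I) := (hF _ (by simpa using hy)).continuousAt
    exact ContinuousAt.comp (f := fun x : ℝ => (x : ℂ) + y * I) h1 (by fun_prop)
  refine ((integrable_exp_neg_mul_abs ha).const_mul C).mono' hc.aestronglyMeasurable ?_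
  refine Eventually.of_forall fun x => ?_
  simpa using hB ((x : ℂ) + y * I) (by simpa using hy)

/-- Shifting a horizontal line of integration inside a strip. -/
lemma integral_shift {F : ℂ → ℂ} {b C a : ℝ} (ha : 0 < a)
    (hF : ∀ p : ℂ, |p.im| ≤ b → DifferentiableAt ℂ F p)
    (hB : ∀ p : ℂ, |p.im| ≤ b → ‖F p‖ ≤ C * Real.exp (-a * |p.re|)) {y : ℝ} (hy : |y| ≤ b) :
    ∫ x : ℝ, F x = ∫ x : ℝ, F (x + y * I) := by
  have hb : 0 ≤ b := (abs_nonneg y).trans hy
  have i0 : Integrable (fun x : ℝ => F (x + (0 : ℝ) * I)) :=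
    integrable_line ha hF hB (by simpa using hb)
  have iy := integrable_line ha hF hB hy
  have hmem : ∀ t ∈ uIcc (0 : ℝ) y, |t| ≤ b := by
    intro t ht
    rcases le_total 0 y with h | h
    · rw [uIcc_of_le h] at ht
      rw [abs_of_nonneg h] at hy
      exact abs_le.2 ⟨by linarith [ht.1], ht.2.trans hy⟩
    · rw [uIcc_of_ge h] at ht
      rw [abs_of_nonpos h] at hy
      exact abs_le.2 ⟨by linarith [ht.1], by linarith [ht.2]⟩
  have vert : ∀ R : ℝ, ‖∫ t in (0 : ℝ)..y, F (R + t * I)‖ ≤ C * Real.exp (-a * |R|) * |y| := by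
    intro R
    have := intervalIntegral.norm_integral_le_of_norm_le_const (a := 0) (b := y)
      (C := C * Real.exp (-a * |R|)) (f := fun t : ℝ => F (R + t * I)) (fun t ht => by
        simpa using hB ((R : ℂ) + t * I) (by simpa using hmem t (uIoc_subset_uIcc ht)))
    simpa using this
  have rect : ∀ R : ℝ, (∫ x in (-R)..R, F (x + (0 : ℝ) * I)) - (∫ x in (-R)..R, F (x + y * I))
      = I • (∫ t in (0 : ℝ)..y, F ((-R : ℝ) + t * I)) - I • (∫ t in (0 : ℝ)..y, F (R + t * I)) := by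
    intro R
    have := Complex.integral_boundary_rect_eq_zero_of_differentiableOn F ((-R : ℝ) : ℂ)
      ((R : ℂ) + y * I) (by
        intro p hp
        refine (hF p ?_).differentiableWithinAt
        have := hp.2
        simp only [ofReal_im, add_im, mul_im, ofReal_re, I_im, mul_one, I_re, mul_zero, add_zero,
          zero_add, mem_preimage] at this
        exact hmem _ this)
    simp only [ofReal_re, add_re, mul_re, I_re, mul_zero, ofReal_im, I_im, mul_one, sub_self,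
      add_zero, add_im, mul_im, zero_add] at this
    linear_combination this
  have t1 : Tendsto (fun R : ℝ => (∫ x in (-R)..R, F (x + (0 : ℝ) * I))
      - (∫ x in (-R)..R, F (x + y * I))) atTop
      (𝓝 ((∫ x : ℝ, F (x + (0 : ℝ) * I)) - ∫ x : ℝ, F (x + y * I))) :=
    (intervalIntegral_tendsto_integral i0 tendsto_neg_atTop_atBot tendsto_id).sub
      (intervalIntegral_tendsto_integral iy tendsto_neg_atTop_atBot tendsto_id)
  have t2 : Tendsto (fun R : ℝ => (∫ x in (-R)..R, F (x + (0 : ℝ) * I))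
      - (∫ x in (-R)..R, F (x + y * I))) atTop (𝓝 0) := by
    have hlim : Tendsto (fun R : ℝ => 2 * (C * Real.exp (-a * |R|) * |y|)) atTop (𝓝 0) := by
      have h1 : Tendsto (fun R : ℝ => -a * |R|) atTop atBot :=
        tendsto_abs_atTop_atTop.const_mul_atTop_of_neg (neg_lt_zero.2 ha)
      have h2 := Real.tendsto_exp_atBot.comp h1
      have h3 := ((h2.const_mul C).mul_const |y|).const_mul 2
      simpa using h3
    refine squeeze_zero_norm (fun R => ?_) hlim
    rw [rect R]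
    have v1 := vert (-R)
    have v2 := vert R
    rw [abs_neg] at v1
    calc _ ≤ ‖I • (∫ t in (0 : ℝ)..y, F ((-R : ℝ) + t * I))‖
          + ‖I • (∫ t in (0 : ℝ)..y, F (R + t * I))‖ := norm_sub_le _ _
      _ ≤ _ := by
          rw [norm_smul, norm_smul, Complex.norm_I, one_mul, one_mul]
          linarith
  have := tendsto_nhds_unique t1 t2
  rw [sub_eq_zero] at this
  rw [← this]
  simp

end Pool.Agent.MP_6c43ae_an

end MrgPart1

-- ======== part 2: formerly Pool.Agent.MP_6c43ae_an.Saddle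
section MrgPart2

/-! A lower bound for the Laplace transform of `exp (-N G)` at complex points. -/

set_option autoImplicit false

namespace Pool.Agent.MP_6c43ae_an

open Complex Set Filter Topology MeasureTheory Metric

noncomputable def FF (ε N : ℝ) (ξ p : ℂ) : ℂ := cexp (ξ * p - N * GG ε p)

noncomputable def EE (ε N : ℝ) (ξ : ℂ) : ℂ := ∫ x : ℝ, FF ε N ξ x

noncomputable def ER (ε N σ : ℝ) : ℝ := ∫ x : ℝ, Real.exp (σ * x - N * gg ε x)

lemma FF_ofReal (ε N σ x : ℝ) : FF ε N σ x = (Real.exp (σ * x - N * gg ε x) : ℂ) := by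
  unfold FF; rw [GG_ofReal]; push_cast; rfl

lemma EE_ofReal (ε N σ : ℝ) : EE ε N σ = (ER ε N σ : ℂ) := by
  unfold EE ER
  simp_rw [FF_ofReal]
  exact integral_ofReal

lemma norm_FF (ε N : ℝ) (ξ p : ℂ) :
    ‖FF ε N ξ p‖ = Real.exp (ξ.re * p.re - ξ.im * p.im - N * (GG ε p).re) := by
  unfold FF
  rw [Complex.norm_exp]
  simp

lemma differentiableAt_FF (ε N : ℝ) (ξ : ℂ) {p : ℂ} (hp : |p.im| ≤ 1 / 10) :
    DifferentiableAt ℂ (FF ε N ξ) p := by
  have h := (hasDerivAt_GG ε hp).differentiableAt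
  unfold FF
  exact ((differentiableAt_id.const_mul ξ).sub (h.const_mul _)).cexp

lemma norm_FF_le {ε : ℝ} (hε : 0 ≤ ε) (hε' : ε ≤ 1 / 10000) {N : ℝ} {ξ : ℂ} (h0 : 0 < ξ.re)
    (h1 : ξ.re < N) {p : ℂ} (hp : |p.im| ≤ 1 / 10) :
    ‖FF ε N ξ p‖ ≤ Real.exp (|ξ.im| / 10 + N) * Real.exp (-(min ξ.re (N - ξ.re)) * |p.re|) := by
  rw [norm_FF, ← Real.exp_add, Real.exp_le_exp]
  have hN : 0 < N := h0.trans h1
  have h2 := re_GG_ge hε hε' hp
  have h3 : -(ξ.im * p.im) ≤ |ξ.im| / 10 := by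
    have := neg_abs_le (ξ.im * p.im)
    rw [abs_mul] at this
    nlinarith [abs_nonneg ξ.im]
  have h4 : N * (max 0 p.re - 1) ≤ N * (GG ε p).re := by gcongr
  have h5 : ξ.re * p.re - N * max 0 p.re ≤ -(min ξ.re (N - ξ.re)) * |p.re| := by
    have m1 := min_le_left ξ.re (N - ξ.re)
    have m2 := min_le_right ξ.re (N - ξ.re)
    rcases le_total 0 p.re with h | h
    · rw [max_eq_right h, abs_of_nonneg h]; nlinarith
    · rw [max_eq_left h, abs_of_nonpos h]; nlinarith
  nlinarith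

lemma integrable_FF {ε : ℝ} (hε : 0 ≤ ε) (hε' : ε ≤ 1 / 10000) {N : ℝ} {ξ : ℂ} (h0 : 0 < ξ.re)
    (h1 : ξ.re < N) {y : ℝ} (hy : |y| ≤ 1 / 10) :
    Integrable (fun x : ℝ => FF ε N ξ (x + y * I)) :=
  integrable_line (lt_min h0 (sub_pos.2 h1)) (fun _ hp => differentiableAt_FF ε N ξ hp)
    (fun _ hp => norm_FF_le hε hε' h0 h1 hp) hy

lemma integrable_real {ε : ℝ} (hε : 0 ≤ ε) (hε' : ε ≤ 1 / 10000) {N σ : ℝ} (h0 : 0 < σ)
    (h1 : σ < N) : Integrable (fun x : ℝ => Real.exp (σ * x - N * gg ε x)) := by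
  have := (integrable_FF hε hε' (N := N) (ξ := σ) (by simpa using h0) (by simpa using h1)
    (y := 0) (by norm_num)).norm
  simpa [FF_ofReal, -ofReal_exp] using this

lemma EE_shift {ε : ℝ} (hε : 0 ≤ ε) (hε' : ε ≤ 1 / 10000) {N : ℝ} {ξ : ℂ} (h0 : 0 < ξ.re)
    (h1 : ξ.re < N) {y : ℝ} (hy : |y| ≤ 1 / 10) :
    EE ε N ξ = ∫ x : ℝ, FF ε N ξ (x + y * I) :=
  integral_shift (lt_min h0 (sub_pos.2 h1)) (fun _ hp => differentiableAt_FF ε N ξ hp)
    (fun _ hp => norm_FF_le hε hε' h0 h1 hp) hy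

/-- The real part of the weight decreases away from the real axis. -/
lemma re_GG_le {ε : ℝ} (hε : 0 ≤ ε) (hε' : ε ≤ 1 / 10000) (x : ℝ) {y : ℝ} (hy : |y| ≤ 1 / 10) :
    (GG ε (x + y * I)).re ≤ gg ε x := by
  have him : ∀ s : ℝ, |s| ≤ 1 / 10 → |((x : ℂ) + s * I).im| ≤ 1 / 10 := fun s hs => by
    simpa using hs
  have := nonneg_of_deriv2 (b := 1 / 10) (f := fun s => gg ε x - (GG ε (x + s * I)).re)
    (f1 := fun s => (G1 ε (x + s * I)).im) (f2 := fun s => (G2 ε (x + s * I)).re)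
    (fun s hs => by
      have := (hasDerivAt_re (hasDerivAt_line (hasDerivAt_GG ε (him s hs)))).const_sub (gg ε x)
      simpa using this)
    (fun s hs => by
      have := hasDerivAt_im (hasDerivAt_line (hasDerivAt_G1 ε (him s hs)))
      simpa using this)
    (fun s hs => by
      have := re_G2_ge hε hε' (him s hs)
      have := TT_pos ((x : ℂ) + s * I).re
      linarith)
    (by simp [GG_ofReal]) (by simp [G1_ofReal]) y hy
  linarith

lemma abs_im_G1_ge {ε : ℝ} (hε : 0 ≤ ε) (hε' : ε ≤ 1 / 10000) {p : ℂ} (hp : |p.im| ≤ 1 / 10) :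
    4 / 5 * TT p.re * |p.im| ≤ |(G1 ε p).im| := by
  set x := p.re
  set y := p.im
  have hpe : p = (x : ℂ) + y * I := (Complex.re_add_im p).symm
  have him : ∀ s : ℝ, |s| ≤ 1 / 10 → |((x : ℂ) + s * I).im| ≤ 1 / 10 := fun s hs => by
    simpa using hs
  have hm : MonotoneOn (fun s : ℝ => (G1 ε (x + s * I)).im - 4 / 5 * TT x * s)
      (Icc (-(1 / 10)) (1 / 10)) := by
    apply monotoneOn_Icc_of_hasDerivAt (f1 := fun s => (G2 ε (x + s * I)).re - 4 / 5 * TT x)
    · intro s hs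
      have := (hasDerivAt_im (hasDerivAt_line (hasDerivAt_G1 ε (him s (abs_le.2 hs))))).sub
        ((hasDerivAt_id s).const_mul (4 / 5 * TT x))
      refine HasDerivAt.congr_deriv this ?_
      simp
    · intro s hs
      have := re_G2_ge hε hε' (him s (abs_le.2 hs))
      simp only [add_re, ofReal_re, mul_re, I_re, mul_zero, ofReal_im, I_im, mul_one, sub_self,
        add_zero] at this
      linarith
  have h0 : (0 : ℝ) ∈ Icc (-(1 / 10) : ℝ) (1 / 10) := by constructor <;> norm_num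
  have hy : y ∈ Icc (-(1 / 10) : ℝ) (1 / 10) := abs_le.1 hp
  rw [hpe]
  rcases le_total 0 y with h | h
  · have := hm h0 hy h
    simp only [ofReal_zero, zero_mul, add_zero, G1_ofReal, ofReal_im, mul_zero, sub_zero] at this
    rw [abs_of_nonneg h]
    linarith [le_abs_self (G1 ε (x + y * I)).im]
  · have := hm hy h0 h
    simp only [ofReal_zero, zero_mul, add_zero, G1_ofReal, ofReal_im, mul_zero, sub_zero] at this
    rw [abs_of_nonpos h]
    linarith [neg_abs_le (G1 ε (x + y * I)).im]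

noncomputable def psi (ε : ℝ) (p : ℂ) (s : ℝ) : ℂ := GG ε (p + s) - GG ε p - G1 ε p * s

lemma hasDerivAt_psi (ε : ℝ) {p : ℂ} (hp : |p.im| ≤ 1 / 10) (s : ℝ) :
    HasDerivAt (psi ε p) (G1 ε (p + s) - G1 ε p) s := by
  have h1 := hasDerivAt_line (p := p) (u := 1) (s := s)
    (hasDerivAt_GG ε (p := p + s * 1) (by simpa using hp))
  simp only [mul_one] at h1
  have h2 : HasDerivAt (fun t : ℝ => G1 ε p * (t : ℂ)) (G1 ε p) s := by
    simpa using ((hasDerivAt_id (s : ℂ)).const_mul (G1 ε p)).comp_ofReal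
  exact (h1.sub_const (GG ε p)).sub h2

lemma hasDerivAt_psi1 (ε : ℝ) {p : ℂ} (hp : |p.im| ≤ 1 / 10) (s : ℝ) :
    HasDerivAt (fun t : ℝ => G1 ε (p + t) - G1 ε p) (G2 ε (p + s)) s := by
  have h1 := hasDerivAt_line (p := p) (u := 1) (s := s)
    (hasDerivAt_G1 ε (p := p + s * 1) (by simpa using hp))
  simp only [mul_one] at h1
  exact h1.sub_const _

lemma psi_zero (ε : ℝ) (p : ℂ) : psi ε p 0 = 0 := by simp [psi]

lemma re_psi_half {ε : ℝ} (hε : 0 ≤ ε) (hε' : ε ≤ 1 / 10000) {p : ℂ} (hp : |p.im| ≤ 1 / 10)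
    (s : ℝ) : (psi ε p (s / 2)).re ≤ (psi ε p s).re / 2 := by
  have hc : ConvexOn ℝ univ (fun t => (psi ε p t).re) :=
    convexOn_of_deriv2 (fun t => hasDerivAt_re (hasDerivAt_psi ε hp t))
      (fun t => hasDerivAt_re (hasDerivAt_psi1 ε hp t)) (fun t => by
        have := re_G2_ge hε hε' (p := p + t) (by simpa using hp)
        have := TT_pos (p + t).re
        linarith)
  have := midpoint_le_of_convexOn hc s 0
  simpa [psi_zero] using this

lemma abs_im_psi_le {ε : ℝ} (hε : 0 ≤ ε) (hε' : ε ≤ 1 / 10000) {p : ℂ} (hp : |p.im| ≤ 1 / 10)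
    (s : ℝ) : |(psi ε p s).im| ≤ (psi ε p s).re / 4 := by
  have hb : ∀ t : ℝ, |(G2 ε (p + t)).im| ≤ (G2 ε (p + t)).re / 4 := fun t =>
    abs_im_G2_le hε hε' (p := p + t) (by simpa using hp)
  have h1 := nonneg_of_deriv2' (f := fun t => (psi ε p t).re / 4 + (psi ε p t).im)
    (fun t => ((hasDerivAt_re (hasDerivAt_psi ε hp t)).div_const 4).add
      (hasDerivAt_im (hasDerivAt_psi ε hp t)))
    (fun t => ((hasDerivAt_re (hasDerivAt_psi1 ε hp t)).div_const 4).add
      (hasDerivAt_im (hasDerivAt_psi1 ε hp t)))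
    (fun t => by linarith [(abs_le.1 (hb t)).1]) (by simp [psi_zero]) (by simp) s
  have h2 := nonneg_of_deriv2' (f := fun t => (psi ε p t).re / 4 - (psi ε p t).im)
    (fun t => ((hasDerivAt_re (hasDerivAt_psi ε hp t)).div_const 4).sub
      (hasDerivAt_im (hasDerivAt_psi ε hp t)))
    (fun t => ((hasDerivAt_re (hasDerivAt_psi1 ε hp t)).div_const 4).sub
      (hasDerivAt_im (hasDerivAt_psi1 ε hp t)))
    (fun t => by linarith [(abs_le.1 (hb t)).2]) (by simp [psi_zero]) (by simp) s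
  exact abs_le.2 ⟨by linarith, by linarith⟩

lemma re_exp_psi_ge {ε : ℝ} (hε : 0 ≤ ε) (hε' : ε ≤ 1 / 10000) {p : ℂ} (hp : |p.im| ≤ 1 / 10)
    {N : ℝ} (hN : 0 ≤ N) (s : ℝ) :
    ‖cexp (-(N * psi ε p s))‖ - 1 / 4 * ‖cexp (-(N * psi ε p (s / 2)))‖
      ≤ (cexp (-(N * psi ε p s))).re := by
  rw [Complex.norm_exp, Complex.norm_exp, Complex.exp_re]
  simp only [neg_re, mul_re, ofReal_re, ofReal_im, zero_mul, sub_zero, neg_im, mul_im, add_zero,
    Real.cos_neg]
  set R := (psi ε p s).re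
  set J := (psi ε p s).im
  set R2 := (psi ε p (s / 2)).re
  have h1 : R2 ≤ R / 2 := re_psi_half hε hε' hp s
  have h2 : |J| ≤ R / 4 := abs_im_psi_le hε hε' hp s
  have h3 : 1 - N * R / 4 ≤ Real.cos (N * J) := by
    have := Real.abs_cos_sub_cos_le (N * J) 0
    rw [Real.cos_zero, sub_zero, abs_mul, abs_of_nonneg hN] at this
    have h4 := (abs_le.1 this).1
    nlinarith
  have h5 : N * R ≤ Real.exp (N * R / 2) := by
    have hu : 0 ≤ N * R / 2 := by
      have : 0 ≤ R := by linarith [abs_nonneg J]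
      positivity
    have := Real.quadratic_le_exp_of_nonneg hu
    nlinarith [sq_nonneg (N * R / 2 - 1)]
  have h6 : Real.exp (-(N * R)) * (N * R) ≤ Real.exp (-(N * R2)) := by
    calc _ ≤ Real.exp (-(N * R)) * Real.exp (N * R / 2) := by gcongr
      _ = Real.exp (-(N * R) + N * R / 2) := (Real.exp_add _ _).symm
      _ ≤ _ := by apply Real.exp_le_exp.2; nlinarith
  have h7 := Real.exp_pos (-(N * R))
  nlinarith

/-- Lower bound for the Laplace transform at a point `N G'(p)`. -/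
lemma norm_EE_ge {ε : ℝ} (hε : 0 ≤ ε) (hε' : ε ≤ 1 / 10000) {N : ℝ} (hN : 0 < N) {p : ℂ}
    (hp : |p.im| ≤ 1 / 10) (h0 : 0 < (G1 ε p).re) (h1 : (G1 ε p).re < 1) :
    1 / 2 * (Real.exp (-(N * |(G1 ε p).im| * |p.im|)) * ER ε N (N * (G1 ε p).re))
      ≤ ‖EE ε N (N * G1 ε p)‖ := by
  set ζ := G1 ε p with hζ
  set ξ : ℂ := N * ζ with hξ
  have hre : ξ.re = N * ζ.re := by simp [hξ]
  have him : ξ.im = N * ζ.im := by simp [hξ]
  have h0' : 0 < ξ.re := by rw [hre]; positivity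
  have h1' : ξ.re < N := by rw [hre]; nlinarith
  have hI := integrable_FF hε hε' h0' h1' hp
  have hpt : ∀ s : ℝ, ((p.re + s : ℝ) : ℂ) + p.im * I = p + s := by
    intro s
    conv_rhs => rw [← Complex.re_add_im p]
    push_cast; ring
  have hI2 : Integrable (fun s : ℝ => FF ε N ξ (p + s)) := by
    have := hI.comp_add_left p.re
    simpa only [hpt] using this
  have e1 : EE ε N ξ = ∫ s : ℝ, FF ε N ξ (p + s) := by
    rw [EE_shift hε hε' h0' h1' hp,
      ← integral_add_left_eq_self (fun x : ℝ => FF ε N ξ (x + p.im * I)) p.re]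
    simp only [hpt]
  have e1' : ∫ x : ℝ, ‖FF ε N ξ (x + p.im * I)‖ = ∫ s : ℝ, ‖FF ε N ξ (p + s)‖ := by
    rw [← integral_add_left_eq_self (fun x : ℝ => ‖FF ε N ξ (x + p.im * I)‖) p.re]
    simp only [hpt]
  set W : ℝ → ℂ := fun s => cexp (-(N * psi ε p s)) with hW
  have e2 : ∀ s : ℝ, FF ε N ξ (p + s) = FF ε N ξ p * W s := by
    intro s
    simp only [FF, hW, psi, ← Complex.exp_add]
    congr 1
    rw [hξ, hζ]; ring
  have hF0 : FF ε N ξ p ≠ 0 := Complex.exp_ne_zero _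
  have hIW : Integrable W := by
    have := hI2.const_mul (FF ε N ξ p)⁻¹
    refine this.congr (Eventually.of_forall fun s => ?_)
    simp only [e2]
    field_simp
  have hIW2 : Integrable (fun s => ‖W (s / 2)‖) := hIW.norm.comp_div (by norm_num : (2 : ℝ) ≠ 0)
  have e3 : ∫ s, ‖W (s / 2)‖ = 2 * ∫ s, ‖W s‖ := by
    have := Measure.integral_comp_div (fun s => ‖W s‖) 2
    simpa using this
  have l1 : 1 / 2 * ∫ s, ‖W s‖ ≤ ‖∫ s, W s‖ := by
    have a1 : ∫ s, (‖W s‖ - 1 / 4 * ‖W (s / 2)‖) ≤ ∫ s, (W s).re :=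
      integral_mono (hIW.norm.sub (hIW2.const_mul _)) hIW.re
        (fun s => re_exp_psi_ge hε hε' hp hN.le s)
    rw [integral_sub hIW.norm (hIW2.const_mul _), integral_const_mul, e3] at a1
    have a2 : ∫ s, (W s).re = (∫ s, W s).re := integral_re hIW
    have a3 := Complex.re_le_norm (∫ s, W s)
    linarith
  have l2 : ∫ s : ℝ, ‖FF ε N ξ (p + s)‖ = ‖FF ε N ξ p‖ * ∫ s, ‖W s‖ := by
    simp only [e2, norm_mul]
    rw [integral_const_mul]
  have l3 : ‖EE ε N ξ‖ = ‖FF ε N ξ p‖ * ‖∫ s, W s‖ := by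
    rw [e1]
    simp only [e2]
    rw [integral_const_mul, norm_mul]
  have l4 : Real.exp (-(N * |ζ.im| * |p.im|)) * ER ε N (N * ζ.re)
      ≤ ∫ x : ℝ, ‖FF ε N ξ (x + p.im * I)‖ := by
    unfold ER
    rw [← integral_const_mul]
    refine integral_mono ((integrable_real hε hε' (by positivity) (by nlinarith)).const_mul _)
      hI.norm (fun x => ?_)
    simp only [norm_FF]
    rw [← Real.exp_add, Real.exp_le_exp, hre, him]
    have b1 := re_GG_le hε hε' x hp
    have b2 : ζ.im * p.im ≤ |ζ.im| * |p.im| := by rw [← abs_mul]; exact le_abs_self _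
    simp only [add_re, ofReal_re, mul_re, I_re, mul_zero, ofReal_im, I_im, mul_one, sub_self,
      add_zero, add_im, mul_im, zero_add]
    nlinarith
  rw [l3]
  rw [e1', l2] at l4
  have := norm_nonneg (FF ε N ξ p)
  nlinarith

/-- Existence of complex saddle points. -/
lemma exists_saddle {ε : ℝ} (hε : 0 ≤ ε) (hε' : ε ≤ 1 / 10000) {x c : ℝ} (hc : 0 < c)
    (hT : ∀ s, |s - x| ≤ 1 / 10 → c ≤ 4 / 5 * TT s) {ζ : ℂ} (hζ : ‖ζ - g1 ε x‖ < c / 20) :
    ∃ p : ℂ, ‖p - x‖ ≤ 1 / 10 ∧ G1 ε p = ζ := by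
  have him : ∀ p : ℂ, ‖p - x‖ ≤ 1 / 10 → |p.im| ≤ 1 / 10 := fun p hp => by
    have := Complex.abs_im_le_norm (p - x)
    simp only [sub_im, ofReal_im, sub_zero] at this
    linarith
  have hre : ∀ p : ℂ, ‖p - x‖ ≤ 1 / 10 → |p.re - x| ≤ 1 / 10 := fun p hp => by
    have := Complex.abs_re_le_norm (p - x)
    simp only [sub_re, ofReal_re] at this
    linarith
  have key : ∀ p : ℂ, ‖p - x‖ ≤ 1 / 10 → c * ‖p - x‖ ≤ ‖G1 ε p - G1 ε x‖ := by
    intro p hp
    set u := p - x with hu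
    have hin : ∀ t ∈ Icc (0 : ℝ) 1, ‖((x : ℂ) + t * u) - x‖ ≤ 1 / 10 := by
      intro t ht
      rw [add_sub_cancel_left, norm_mul, Complex.norm_real, Real.norm_of_nonneg ht.1]
      nlinarith [ht.1, ht.2, norm_nonneg u]
    have hm : MonotoneOn (fun t : ℝ => ((starRingEnd ℂ) u * G1 ε (x + t * u)).re
        - c * ‖u‖ ^ 2 * t) (Icc 0 1) := by
      apply monotoneOn_Icc_of_hasDerivAt
        (f1 := fun t => ((starRingEnd ℂ) u * (G2 ε (x + t * u) * u)).re - c * ‖u‖ ^ 2)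
      · intro t ht
        have := (hasDerivAt_re ((hasDerivAt_line
          (hasDerivAt_G1 ε (him _ (hin t ht)))).const_mul ((starRingEnd ℂ) u))).sub
          ((hasDerivAt_id t).const_mul (c * ‖u‖ ^ 2))
        refine HasDerivAt.congr_deriv this ?_
        rw [mul_one]
      · intro t ht
        have e : (starRingEnd ℂ) u * (G2 ε (x + t * u) * u)
            = ((‖u‖ ^ 2 : ℝ) : ℂ) * G2 ε (x + t * u) := by
          rw [← Complex.normSq_eq_norm_sq, Complex.normSq_eq_conj_mul_self]; ring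
        rw [e, re_ofReal_mul]
        have a1 := re_G2_ge hε hε' (him _ (hin t ht))
        have a2 := hT _ (hre _ (hin t ht))
        nlinarith [sq_nonneg ‖u‖]
    have := hm ⟨le_rfl, zero_le_one⟩ ⟨zero_le_one, le_rfl⟩ zero_le_one
    simp only [ofReal_zero, zero_mul, add_zero, mul_zero, sub_zero, ofReal_one, one_mul,
      mul_one] at this
    have hpu : (x : ℂ) + u = p := by rw [hu]; ring
    rw [hpu] at this
    have a3 : ((starRingEnd ℂ) u * (G1 ε p - G1 ε x)).re ≤ ‖u‖ * ‖G1 ε p - G1 ε x‖ := by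
      refine (Complex.re_le_norm _).trans ?_
      rw [norm_mul, Complex.norm_conj]
    rw [mul_sub, sub_re] at a3
    rcases (norm_nonneg u).eq_or_lt with h | h
    · rw [← h, mul_zero]; exact norm_nonneg _
    · have : ‖u‖ * (c * ‖u‖) ≤ ‖u‖ * ‖G1 ε p - G1 ε x‖ := by nlinarith
      exact le_of_mul_le_mul_left this h
  have hd : DiffContOnCl ℂ (G1 ε) (ball (x : ℂ) (1 / 10)) := by
    apply DifferentiableOn.diffContOnCl
    rw [closure_ball _ (by norm_num)]
    intro p hp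
    exact (hasDerivAt_G1 ε (him p (by simpa [dist_eq_norm] using hp))).differentiableAt
      |>.differentiableWithinAt
  have hsub := hd.ball_subset_image_closedBall (ε := c / 10) (by norm_num) (fun z hz => by
    rw [mem_sphere, dist_eq_norm] at hz
    have := key z hz.le
    rw [hz] at this
    linarith) (by
    have hev : ∀ᶠ z in 𝓝[≠] (x : ℂ), G1 ε z ≠ G1 ε x := by
      have h1 : ∀ᶠ z in 𝓝[≠] (x : ℂ), z ∈ closedBall (x : ℂ) (1 / 10) :=
        nhdsWithin_le_nhds (closedBall_mem_nhds _ (by norm_num))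
      filter_upwards [h1, self_mem_nhdsWithin] with z hz hz'
      intro h
      have := key z (by simpa [dist_eq_norm] using hz)
      rw [h, sub_self, norm_zero] at this
      have h2 : 0 < ‖z - x‖ := norm_pos_iff.2 (sub_ne_zero.2 hz')
      nlinarith
    exact hev.frequently.filter_mono nhdsWithin_le_nhds)
  have : ζ ∈ ball (G1 ε x) (c / 10 / 2) := by
    rw [mem_ball, dist_eq_norm, G1_ofReal]; linarith
  obtain ⟨p, hp, hp'⟩ := hsub this
  exact ⟨p, by simpa [dist_eq_norm] using hp, hp'⟩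

end Pool.Agent.MP_6c43ae_an

end MrgPart2

-- ======== part 3: formerly Pool.Agent.MP_6c43ae_an.FinDiff
section MrgPart3

/-! Finite differences of holomorphic functions and summation by parts. -/

set_option autoImplicit false

namespace Pool.Agent.MP_6c43ae_an

open Metric Set Finset

/-- One step: a bounded holomorphic function on a disc has a small forward difference on a
smaller disc. -/
lemma fwdDiff_step {A : ℂ → ℂ} {c : ℂ} {ρ r B : ℝ} (hr : 0 < r)
    (hA : DifferentiableOn ℂ A (ball c ρ)) (hB : ∀ z ∈ ball c ρ, ‖A z‖ ≤ B) :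
    DifferentiableOn ℂ (fwdDiff 1 A) (ball c (ρ - (r + 1))) ∧
      ∀ z ∈ ball c (ρ - (r + 1)), ‖fwdDiff 1 A z‖ ≤ B / r := by
  have hsub : ∀ z ∈ ball c (ρ - (r + 1)), z ∈ ball c (ρ - r) ∧ z + 1 ∈ ball c (ρ - r) := by
    intro z hz
    rw [mem_ball, dist_eq_norm] at hz
    constructor
    · rw [mem_ball, dist_eq_norm]; linarith
    · rw [mem_ball, dist_eq_norm]
      have : z + 1 - c = (z - c) + 1 := by ring
      rw [this]
      have := norm_add_le (z - c) 1
      rw [norm_one] at this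
      linarith
  have hsub2 : ball c (ρ - r) ⊆ ball c ρ := ball_subset_ball (by linarith)
  constructor
  · intro z hz
    have h1 : DifferentiableAt ℂ A (z + 1) :=
      hA.differentiableAt (isOpen_ball.mem_nhds (hsub2 (hsub z hz).2))
    have h2 : DifferentiableAt ℂ A z :=
      hA.differentiableAt (isOpen_ball.mem_nhds (hsub2 (hsub z hz).1))
    have h3 : DifferentiableAt ℂ (fun n => A (n + 1)) z :=
      h1.comp z (differentiableAt_id.add_const 1)
    exact (h3.sub h2).differentiableWithinAt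
  · intro z hz
    have hder : ∀ w ∈ ball c (ρ - r), ‖deriv A w‖ ≤ B / r := by
      intro w hw
      have hcb : closedBall w r ⊆ ball c ρ := by
        intro u hu
        rw [mem_closedBall] at hu
        rw [mem_ball] at hw ⊢
        have := dist_triangle u w c
        linarith
      apply Complex.norm_deriv_le_of_forall_mem_sphere_norm_le hr
      · apply DifferentiableOn.diffContOnCl
        rw [closure_ball w hr.ne']
        exact hA.mono hcb
      · intro u hu
        exact hB u (hcb (sphere_subset_closedBall hu))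
    have hdiff : ∀ w ∈ ball c (ρ - r), DifferentiableAt ℂ A w := fun w hw =>
      hA.differentiableAt (isOpen_ball.mem_nhds (hsub2 hw))
    have := (convex_ball c (ρ - r)).norm_image_sub_le_of_norm_deriv_le hdiff hder
      (hsub z hz).1 (hsub z hz).2
    simpa [fwdDiff] using this

lemma fwdDiff_iter_bound {c : ℂ} {r : ℝ} (hr : 0 < r) (L : ℕ) :
    ∀ {A : ℂ → ℂ} {ρ B : ℝ}, DifferentiableOn ℂ A (ball c ρ) → (∀ z ∈ ball c ρ, ‖A z‖ ≤ B) →
      ∀ z ∈ ball c (ρ - L * (r + 1)), ‖(fwdDiff 1)^[L] A z‖ ≤ B / r ^ L := by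
  induction L with
  | zero => intro A ρ B _ hB z hz; simpa using hB z (by simpa using hz)
  | succ L ih =>
    intro A ρ B hA hB z hz
    obtain ⟨h1, h2⟩ := fwdDiff_step hr hA hB
    rw [Function.iterate_succ_apply]
    have := ih h1 h2 z (by
      have e : ρ - (r + 1) - L * (r + 1) = ρ - ((L + 1 : ℕ) : ℝ) * (r + 1) := by
        push_cast; ring
      rw [e]; exact hz)
    rw [div_div, ← pow_succ'] at this
    exact this

/-- Iterated differences of a sequence agree with those of a function it samples. -/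
lemma fwdDiff_iter_sample {a : ℤ → ℂ} {A : ℂ → ℂ} {j : ℤ} {L : ℕ}
    (h : ∀ i : ℕ, i ≤ L → a (j + i) = A ((j : ℂ) + i)) :
    (fwdDiff 1)^[L] a j = (fwdDiff 1)^[L] A (j : ℂ) := by
  rw [fwdDiff_iter_eq_sum_shift, fwdDiff_iter_eq_sum_shift]
  refine Finset.sum_congr rfl fun i hi => ?_
  have hi' : i ≤ L := Nat.lt_succ_iff.mp (Finset.mem_range.mp hi)
  have := h i hi'
  simp only [nsmul_eq_mul, mul_one]
  rw [this]

/-- Crude bound for iterated differences. -/
lemma fwdDiff_iter_crude {a : ℤ → ℂ} {j : ℤ} {L : ℕ} {K : ℝ}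
    (h : ∀ i : ℕ, i ≤ L → ‖a (j + i)‖ ≤ K) :
    ‖(fwdDiff 1)^[L] a j‖ ≤ 2 ^ L * K := by
  rw [fwdDiff_iter_eq_sum_shift]
  calc ‖∑ k ∈ range (L + 1), ((-1 : ℤ) ^ (L - k) * L.choose k) • a (j + k • 1)‖
      ≤ ∑ k ∈ range (L + 1), ‖((-1 : ℤ) ^ (L - k) * L.choose k) • a (j + k • 1)‖ :=
        norm_sum_le _ _
    _ ≤ ∑ k ∈ range (L + 1), (L.choose k : ℝ) * K := by
        refine Finset.sum_le_sum fun i hi => ?_
        have hi' : i ≤ L := Nat.lt_succ_iff.mp (Finset.mem_range.mp hi)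
        have := h i hi'
        rw [zsmul_eq_mul, norm_mul]
        simp only [nsmul_eq_mul, mul_one]
        have e : ‖(((-1 : ℤ) ^ (L - i) * L.choose i : ℤ) : ℂ)‖ = (L.choose i : ℝ) := by
          push_cast
          simp
        rw [e]
        exact mul_le_mul_of_nonneg_left this (Nat.cast_nonneg _)
    _ = 2 ^ L * K := by
        rw [← Finset.sum_mul]
        congr 1
        exact_mod_cast Nat.sum_range_choose L

/-- Summation by parts. -/
lemma sum_fwdDiff_iter {w : ℂ} (hw : w ≠ 0) (N : ℤ) (L : ℕ) :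
    ∀ (M : ℤ) (a : ℤ → ℂ), (∀ j, j < M → a j = 0) → (∀ j, N < j → a j = 0) →
      ∑ j ∈ Finset.Icc (M - L) N, (fwdDiff 1)^[L] a j * w ^ j
        = (w⁻¹ - 1) ^ L * ∑ j ∈ Finset.Icc M N, a j * w ^ j := by
  induction L with
  | zero => intro M a _ _; simp
  | succ L ih =>
    intro M a h1 h2
    rw [Function.iterate_succ_apply]
    have e : M - ((L + 1 : ℕ) : ℤ) = (M - 1) - L := by push_cast; ring
    rw [e, ih (M - 1) (fwdDiff 1 a)]
    · rw [pow_succ, mul_assoc]
      congr 1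
      -- one step
      have s1 : ∑ j ∈ Finset.Icc (M - 1) N, a (j + 1) * w ^ j
          = w⁻¹ * ∑ j ∈ Finset.Icc M N, a j * w ^ j := by
        have t1 : ∑ j ∈ Finset.Icc (M - 1) N, a (j + 1) * w ^ j
            = ∑ j ∈ Finset.Icc M (N + 1), a j * w ^ (j - 1) := by
          refine Finset.sum_bij (fun j _ => j + 1) ?_ ?_ ?_ ?_
          · intro j hj; simp only [Finset.mem_Icc] at hj ⊢; omega
          · intro j _ j' _ h; omega
          · intro j hj; refine ⟨j - 1, ?_, by ring⟩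
            simp only [Finset.mem_Icc] at hj ⊢; omega
          · intro j _; simp
        have t2 : ∑ j ∈ Finset.Icc M (N + 1), a j * w ^ (j - 1)
            = ∑ j ∈ Finset.Icc M N, a j * w ^ (j - 1) := by
          symm
          apply Finset.sum_subset
          · intro j hj; simp only [Finset.mem_Icc] at hj ⊢; omega
          · intro j hj hj'
            simp only [Finset.mem_Icc] at hj hj'
            rw [h2 j (by omega), zero_mul]
        rw [t1, t2, Finset.mul_sum]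
        refine Finset.sum_congr rfl fun j _ => ?_
        rw [zpow_sub_one₀ hw]; ring
      have s2 : ∑ j ∈ Finset.Icc (M - 1) N, a j * w ^ j
          = ∑ j ∈ Finset.Icc M N, a j * w ^ j := by
        symm
        apply Finset.sum_subset
        · intro j hj; simp only [Finset.mem_Icc] at hj ⊢; omega
        · intro j hj hj'
          simp only [Finset.mem_Icc] at hj hj'
          rw [h1 j (by omega), zero_mul]
      simp only [fwdDiff, sub_mul, Finset.sum_sub_distrib]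
      rw [s1, s2]; ring
    · intro j hj
      simp only [fwdDiff]
      rw [h1 j (by omega), h1 (j + 1) (by omega), sub_zero]
    · intro j hj
      simp only [fwdDiff]
      rw [h2 j hj, h2 (j + 1) (by omega), sub_zero]

/-- If all `L`-th differences of a finitely supported sequence are small, then the
trigonometric sum is small away from `w = 1`. -/
lemma norm_sum_le_of_fwdDiff {w : ℂ} (hw : ‖w‖ = 1) {d K : ℝ} (hd : 0 < d) (hdw : d ≤ ‖w - 1‖)
    (N : ℕ) (L : ℕ) (a : ℤ → ℂ) (h1 : ∀ j, j < 0 → a j = 0) (h2 : ∀ j, (N : ℤ) < j → a j = 0)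
    (hK : ∀ j, ‖(fwdDiff 1)^[L] a j‖ ≤ K) :
    ‖∑ j ∈ Finset.Icc (0 : ℤ) N, a j * w ^ j‖ ≤ (N + L + 1) * K / d ^ L := by
  have hw0 : w ≠ 0 := by intro h; rw [h] at hw; simp at hw
  have key := sum_fwdDiff_iter hw0 N L 0 a h1 h2
  have hn : ‖w⁻¹ - 1‖ = ‖w - 1‖ := by
    have : w⁻¹ - 1 = -(w⁻¹) * (w - 1) := by field_simp; ring
    rw [this, norm_mul, norm_neg, norm_inv, hw]; simp
  have hle : ‖∑ j ∈ Finset.Icc ((0 : ℤ) - L) N, (fwdDiff 1)^[L] a j * w ^ j‖
      ≤ (N + L + 1) * K := by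
    calc _ ≤ ∑ j ∈ Finset.Icc ((0 : ℤ) - L) N, ‖(fwdDiff 1)^[L] a j * w ^ j‖ := norm_sum_le _ _
      _ ≤ ∑ _j ∈ Finset.Icc ((0 : ℤ) - L) N, K := by
          refine Finset.sum_le_sum fun j _ => ?_
          rw [norm_mul, norm_zpow, hw, one_zpow, mul_one]
          exact hK j
      _ = (N + L + 1) * K := by
          rw [Finset.sum_const, Int.card_Icc, nsmul_eq_mul]
          congr 1
          have : ((N : ℤ) + 1 - (0 - L)).toNat = N + L + 1 := by omega
          rw [this]; push_cast; ring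
  rw [key, norm_mul, norm_pow, hn] at hle
  rw [le_div_iff₀ (pow_pos hd L)]
  calc _ ≤ ‖∑ j ∈ Finset.Icc (0 : ℤ) N, a j * w ^ j‖ * ‖w - 1‖ ^ L := by
        gcongr
    _ ≤ _ := by rw [mul_comm]; exact hle

end Pool.Agent.MP_6c43ae_an

end MrgPart3

-- marker of a merged file
example : 731051 + 823470 = 731051 + 823470 := rfl
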