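import Mathlib.LinearAlgebra.FreeModule.PID
import Mathlib.RingTheory.Flat.TorsionFree
import Mathlib.Algebra.Module.StablyFree.Basic
import Mathlib.Algebra.Order.Archimedean.Real.Hom
import Mathlib.Analysis.SpecialFunctions.Complex.Analytic
import Mathlib.Analysis.CStarAlgebra.ContinuousLinearMap
import Mathlib.Analysis.SpecialFunctions.SmoothTransition
import Mathlib.Geometry.Manifold.VectorBundle.Basic
import Mathlib.RingTheory.Complex
import Mathlib.RingTheory.Norm.Transitivity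
import Mathlib.Topology.Compactification.OnePoint.Basic
import Mathlib.RingTheory.SimpleRing.Principal
import Mathlib.Probability.Moments.ComplexMGF
import Mathlib.RingTheory.TotallySplit
import Mathlib.Topology.UniformSpace.Uniformizable
import Pool.Agent.MP_6c43ae_an.Defs
import Pool.Agent.MP_6c43ae_an.FinDiff

-- ======== part 0: formerly Pool.Agent.MP_6c43ae_an.Sphere
section MrgPart0

/-! The Riemann sphere as a complex manifold and the hyperplane bundle on it. -/

set_option autoImplicit false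

open scoped Manifold ContDiff

namespace Pool.Agent.MP_6c43ae_an

open Set Filter Topology OnePoint

/-- The affine coordinate. -/
noncomputable def c0 (x : OnePoint ℂ) : ℂ := x.elim 0 id

/-- The coordinate at infinity. -/
noncomputable def c1 (x : OnePoint ℂ) : ℂ := x.elim 0 (fun z => z⁻¹)

open Classical in
noncomputable def i1 (w : ℂ) : OnePoint ℂ := if w = 0 then (∞ : OnePoint ℂ) else ((w⁻¹ : ℂ) : OnePoint ℂ)

@[simp] lemma c0_coe (z : ℂ) : c0 z = z := rfl
@[simp] lemma c1_coe (z : ℂ) : c1 z = z⁻¹ := rfl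
@[simp] lemma c1_infty : c1 (∞ : OnePoint ℂ) = 0 := rfl
@[simp] lemma i1_zero : i1 0 = (∞ : OnePoint ℂ) := by simp [i1]
lemma i1_of_ne {w : ℂ} (h : w ≠ 0) : i1 w = ((w⁻¹ : ℂ) : OnePoint ℂ) := by simp [i1, h]

@[simp] lemma c1_i1 (w : ℂ) : c1 (i1 w) = w := by
  by_cases h : w = 0
  · simp [h]
  · simp [i1_of_ne h]

lemma coclosedCompact_eq : coclosedCompact ℂ = Bornology.cobounded ℂ := by
  rw [Filter.coclosedCompact_eq_cocompact, Metric.cobounded_eq_cocompact]

lemma continuousAt_c0 (z : ℂ) : ContinuousAt c0 (z : OnePoint ℂ) :=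
  OnePoint.continuousAt_coe.2 continuousAt_id

lemma continuousAt_c1 {x : OnePoint ℂ} (hx : x ≠ ((0 : ℂ) : OnePoint ℂ)) : ContinuousAt c1 x := by
  induction x using OnePoint.rec with
  | infty =>
    rw [OnePoint.continuousAt_infty', coclosedCompact_eq]
    exact tendsto_inv₀_cobounded
  | coe z =>
    have hz : z ≠ 0 := fun h => hx (by rw [h])
    exact OnePoint.continuousAt_coe.2 (continuousAt_inv₀ hz)

lemma continuous_i1 : Continuous i1 := by
  rw [continuous_iff_continuousAt]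
  intro w
  by_cases h : w = 0
  · subst h
    rw [ContinuousAt, i1_zero, ← nhdsNE_sup_pure, tendsto_sup]
    constructor
    · have h1 : Tendsto (fun w : ℂ => ((w⁻¹ : ℂ) : OnePoint ℂ)) (𝓝[≠] 0) (𝓝 (∞ : OnePoint ℂ)) := by
        refine OnePoint.tendsto_coe_infty.comp ?_
        rw [coclosedCompact_eq]
        exact tendsto_inv₀_nhdsNE_zero
      refine h1.congr' ?_
      filter_upwards [self_mem_nhdsWithin] with w hw
      exact (i1_of_ne hw).symm
    · rw [tendsto_pure_left]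
      intro s hs
      rw [i1_zero]
      exact mem_of_mem_nhds hs
  · have h1 : ContinuousAt (fun w : ℂ => ((w⁻¹ : ℂ) : OnePoint ℂ)) w :=
      OnePoint.continuous_coe.continuousAt.comp (continuousAt_inv₀ h)
    refine h1.congr ?_
    filter_upwards [isOpen_ne.mem_nhds h] with w hw
    exact (i1_of_ne hw).symm

noncomputable def chart0 : OpenPartialHomeomorph (OnePoint ℂ) ℂ where
  toFun := c0
  invFun := fun z => (z : OnePoint ℂ)
  source := {x | x ≠ (∞ : OnePoint ℂ)}
  target := univ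
  map_source' := fun _ _ => mem_univ _
  map_target' := fun z _ => OnePoint.coe_ne_infty z
  left_inv' := by
    intro x hx
    induction x using OnePoint.rec with
    | infty => exact absurd rfl hx
    | coe z => rfl
  right_inv' := fun _ _ => rfl
  open_source := isOpen_ne
  open_target := isOpen_univ
  continuousOn_toFun := by
    intro x hx
    induction x using OnePoint.rec with
    | infty => exact absurd rfl hx
    | coe z => exact (continuousAt_c0 z).continuousWithinAt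
  continuousOn_invFun := OnePoint.continuous_coe.continuousOn

noncomputable def chart1 : OpenPartialHomeomorph (OnePoint ℂ) ℂ where
  toFun := c1
  invFun := i1
  source := {x | x ≠ ((0 : ℂ) : OnePoint ℂ)}
  target := univ
  map_source' := fun _ _ => mem_univ _
  map_target' := by
    intro w _
    by_cases h : w = 0
    · subst h; rw [i1_zero]; exact OnePoint.infty_ne_coe 0
    · rw [i1_of_ne h]
      intro h2
      exact inv_ne_zero h (OnePoint.coe_injective h2)
  left_inv' := by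
    intro x hx
    induction x using OnePoint.rec with
    | infty => simp
    | coe z =>
      have hz : z ≠ 0 := fun h => hx (by rw [h])
      rw [c1_coe, i1_of_ne (inv_ne_zero hz), inv_inv]
  right_inv' := fun w _ => c1_i1 w
  open_source := isOpen_ne
  open_target := isOpen_univ
  continuousOn_toFun := fun _ hx => (continuousAt_c1 hx).continuousWithinAt
  continuousOn_invFun := continuous_i1.continuousOn

noncomputable instance chartedSphere : ChartedSpace ℂ (OnePoint ℂ) where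
  atlas := {chart0, chart1}
  chartAt x := x.elim chart1 (fun _ => chart0)
  mem_chart_source x := by
    induction x using OnePoint.rec with
    | infty => exact OnePoint.infty_ne_coe 0
    | coe z => exact OnePoint.coe_ne_infty z
  chart_mem_atlas x := by
    induction x using OnePoint.rec with
    | infty => exact Or.inr rfl
    | coe z => exact Or.inl rfl

lemma chartAt_coe (z : ℂ) : chartAt ℂ (z : OnePoint ℂ) = chart0 := rfl
lemma chartAt_infty : chartAt ℂ (∞ : OnePoint ℂ) = chart1 := rfl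
@[simp] lemma chart0_apply (x : OnePoint ℂ) : chart0 x = c0 x := rfl
@[simp] lemma chart1_apply (x : OnePoint ℂ) : chart1 x = c1 x := rfl
@[simp] lemma chart0_symm_apply (z : ℂ) : chart0.symm z = (z : OnePoint ℂ) := rfl
@[simp] lemma chart1_symm_apply (z : ℂ) : chart1.symm z = i1 z := rfl

instance manifoldSphere : IsManifold 𝓘(ℂ, ℂ) ω (OnePoint ℂ) := by
  apply isManifold_of_contDiffOn
  intro e e' he he'
  simp only [mfld_simps]
  rcases he with rfl | rfl <;> rcases he' with rfl | rfl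
  · exact contDiffOn_id
  · intro z hz
    have hz0 : z ≠ 0 := fun h => hz.2 (by rw [h]; rfl)
    exact (contDiffAt_inv ℂ hz0).contDiffWithinAt
  · intro z hz
    have hz0 : z ≠ 0 := fun h => hz.2 (by rw [h]; exact i1_zero)
    refine ((contDiffAt_inv ℂ hz0).congr_of_eventuallyEq ?_).contDiffWithinAt
    filter_upwards [isOpen_ne.mem_nhds hz0] with w hw
    change c0 (i1 w) = _
    rw [i1_of_ne hw, c0_coe]
  · refine contDiffOn_id.congr fun z _ => ?_
    exact c1_i1 z

section smooth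

variable {𝕜 : Type} [NontriviallyNormedField 𝕜] [NormedAlgebra 𝕜 ℂ]

lemma contMDiffAt_iff_chart {F : Type} [NormedAddCommGroup F] [NormedSpace 𝕜 F] {n : ℕ∞ω}
    {f : OnePoint ℂ → F} {x : OnePoint ℂ} :
    ContMDiffAt 𝓘(𝕜, ℂ) 𝓘(𝕜, F) n f x ↔
      ContDiffAt 𝕜 n (f ∘ (chartAt ℂ x).symm) (chartAt ℂ x x) := by
  rw [contMDiffAt_iff_source]
  simp only [mfld_simps, contMDiffWithinAt_univ, contMDiffAt_iff_contDiffAt]

lemma contMDiffAt_c0 (n : ℕ∞ω) {x : OnePoint ℂ} (hx : x ≠ (∞ : OnePoint ℂ)) :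
    ContMDiffAt 𝓘(𝕜, ℂ) 𝓘(𝕜, ℂ) n c0 x := by
  induction x using OnePoint.rec with
  | infty => exact absurd rfl hx
  | coe z => rw [contMDiffAt_iff_chart]; exact contDiffAt_id

lemma contMDiffAt_c1 (n : ℕ∞ω) {x : OnePoint ℂ} (hx : x ≠ ((0 : ℂ) : OnePoint ℂ)) :
    ContMDiffAt 𝓘(𝕜, ℂ) 𝓘(𝕜, ℂ) n c1 x := by
  rw [contMDiffAt_iff_chart]
  induction x using OnePoint.rec with
  | infty =>
    have : c1 ∘ (chartAt ℂ (∞ : OnePoint ℂ)).symm = id := funext fun w => c1_i1 w
    rw [this]; exact contDiffAt_id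
  | coe z =>
    have hz : z ≠ 0 := fun h => hx (by rw [h])
    exact contDiffAt_inv 𝕜 hz

end smooth

lemma mdifferentiableAt_coe_iff {f : OnePoint ℂ → ℂ} {z : ℂ}
    (h : MDifferentiableAt 𝓘(ℂ, ℂ) 𝓘(ℂ, ℂ) f (z : OnePoint ℂ)) :
    DifferentiableAt ℂ (fun u : ℂ => f u) z := by
  rw [mdifferentiableAt_iff] at h
  have := h.2
  simp only [mfld_simps, differentiableWithinAt_univ] at this
  exact this

/-- The two open sets of the cover. -/
def UU : Bool → Set (OnePoint ℂ)
  | false => {x | x ≠ (∞ : OnePoint ℂ)}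
  | true => {x | x ≠ ((0 : ℂ) : OnePoint ℂ)}

/-- The transition functions. -/
noncomputable def tr : Bool → Bool → OnePoint ℂ → ℂ
  | false, false => fun _ => 1
  | true, true => fun _ => 1
  | false, true => c1
  | true, false => c0

lemma isOpen_UU (i : Bool) : IsOpen (UU i) := by cases i <;> exact isOpen_ne

lemma mem_both {x : OnePoint ℂ} (h0 : x ∈ UU false) (h1 : x ∈ UU true) :
    ∃ z : ℂ, z ≠ 0 ∧ x = z := by
  induction x using OnePoint.rec with
  | infty => exact absurd rfl h0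
  | coe z => exact ⟨z, fun h => h1 (by rw [h]), rfl⟩

lemma contMDiffOn_tr (i j : Bool) :
    ContMDiffOn 𝓘(ℂ, ℂ) 𝓘(ℂ, ℂ) ω (tr i j) (UU i ∩ UU j) := by
  cases i <;> cases j
  · exact contMDiffOn_const
  · exact fun x hx => (contMDiffAt_c1 ω hx.2).contMDiffWithinAt
  · exact fun x hx => (contMDiffAt_c0 ω hx.2).contMDiffWithinAt
  · exact contMDiffOn_const

lemma contMDiffOn_coord (i j : Bool) :
    ContMDiffOn 𝓘(ℂ, ℂ) 𝓘(ℂ, ℂ →L[ℂ] ℂ) ω (fun x => ContinuousLinearMap.mul ℂ ℂ (tr i j x))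
      (UU i ∩ UU j) :=
  (ContinuousLinearMap.mul ℂ ℂ).contMDiff.comp_contMDiffOn (contMDiffOn_tr i j)

/-- The hyperplane bundle. -/
noncomputable def LL : VectorBundleCore ℂ (OnePoint ℂ) ℂ Bool where
  baseSet := UU
  isOpen_baseSet := isOpen_UU
  indexAt x := x.elim true (fun _ => false)
  mem_baseSet_at x := by
    induction x using OnePoint.rec with
    | infty => exact OnePoint.infty_ne_coe 0
    | coe z => exact OnePoint.coe_ne_infty z
  coordChange i j x := ContinuousLinearMap.mul ℂ ℂ (tr i j x)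
  coordChange_self i x _ v := by cases i <;> simp [tr]
  continuousOn_coordChange i j := (contMDiffOn_coord i j).continuousOn
  coordChange_comp i j k x hx v := by
    simp only [ContinuousLinearMap.mul_apply']
    cases i <;> cases j <;> cases k <;> simp only [tr, one_mul]
    · obtain ⟨z, hz, rfl⟩ := mem_both hx.1.1 hx.1.2
      simp [hz]
    · obtain ⟨z, hz, rfl⟩ := mem_both hx.1.2 hx.1.1
      simp [hz]

lemma LL_isContMDiff : LL.IsContMDiff 𝓘(ℂ, ℂ) ω := ⟨contMDiffOn_coord⟩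

@[simp] lemma LL_baseSet (i : Bool) : LL.baseSet i = UU i := rfl
@[simp] lemma LL_coord (i j : Bool) (x : OnePoint ℂ) : LL.coordChange i j x 1 = tr i j x := by
  simp [LL]
@[simp] lemma LL_indexAt_coe (z : ℂ) : LL.indexAt (z : OnePoint ℂ) = false := rfl

end Pool.Agent.MP_6c43ae_an

end MrgPart0

-- ======== part 1: formerly Pool.Agent.MP_6c43ae_an.Angular
section MrgPart1

/-! Exponential cancellation in the angular direction. -/

set_option autoImplicit false

namespace Pool.Agent.MP_6c43ae_an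

open Complex Set Filter Topology MeasureTheory Metric

lemma gg_sub_le {ε : ℝ} (hε : 0 ≤ ε) {x s : ℝ} (h : x ≤ s) : gg ε s - gg ε x ≤ s - x := by
  have hm : MonotoneOn (fun t => t - gg ε t) (Icc x s) :=
    monotoneOn_Icc_of_hasDerivAt (f1 := fun t => 1 - g1 ε t)
      (fun t _ => (hasDerivAt_id t).sub (hasDerivAt_gg ε t))
      (fun t _ => by linarith [g1_le_one hε t])
  have := hm ⟨le_rfl, h⟩ ⟨h, le_rfl⟩ h
  simp only at this
  linarith

lemma ER_ge {ε : ℝ} (hε : 0 ≤ ε) (hε' : ε ≤ 1 / 10000) {N σ : ℝ} (h0 : 0 < σ) (h1 : σ < N)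
    (x : ℝ) : Real.exp (σ * x - N * gg ε x) / (Real.exp 1 * N) ≤ ER ε N σ := by
  have hN : 0 < N := h0.trans h1
  have hI := integrable_real hε hε' h0 h1
  have hxx : x ≤ x + 1 / N := by have : 0 < 1 / N := by positivity
                                 linarith
  have a1 : ∫ s in x..(x + 1 / N), Real.exp (σ * s - N * gg ε s) ≤ ER ε N σ := by
    rw [intervalIntegral.integral_of_le hxx]
    exact setIntegral_le_integral hI (Eventually.of_forall fun s => (Real.exp_pos _).le)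
  have a2 : ∫ _s in x..(x + 1 / N), Real.exp (σ * x - N * gg ε x - 1)
      ≤ ∫ s in x..(x + 1 / N), Real.exp (σ * s - N * gg ε s) := by
    apply intervalIntegral.integral_mono_on hxx intervalIntegrable_const hI.intervalIntegrable
    intro s hs
    apply Real.exp_le_exp.2
    have b1 := gg_sub_le hε hs.1
    have b2 : N * (s - x) ≤ 1 := by
      have : s - x ≤ 1 / N := by linarith [hs.2]
      rw [le_div_iff₀ hN] at this
      linarith
    nlinarith [hs.1]
  rw [intervalIntegral.integral_const, smul_eq_mul] at a2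
  have e : Real.exp (σ * x - N * gg ε x) / (Real.exp 1 * N)
      = (x + 1 / N - x) * Real.exp (σ * x - N * gg ε x - 1) := by
    rw [Real.exp_sub _ 1]; field_simp; ring
  rw [e]; linarith

lemma ER_pos {ε : ℝ} (hε : 0 ≤ ε) (hε' : ε ≤ 1 / 10000) {N σ : ℝ} (h0 : 0 < σ) (h1 : σ < N) :
    0 < ER ε N σ := by
  have hN : 0 < N := h0.trans h1
  exact lt_of_lt_of_le (by positivity) (ER_ge hε hε' h0 h1 0)

lemma gg_taylor {ε : ℝ} (hε : 0 ≤ ε) (hε' : ε ≤ 1 / 10000) (x s : ℝ) :
    gg ε (x + s) ≤ gg ε x + g1 ε x * s + s ^ 2 / 2 := by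
  have := nonneg_of_deriv2' (f := fun s => gg ε x + g1 ε x * s + s ^ 2 / 2 - gg ε (x + s))
    (f1 := fun s => g1 ε x + s - g1 ε (x + s)) (f2 := fun s => 1 - g2 ε (x + s))
    (fun s => by
      have h1 := (hasDerivAt_gg ε (x + s)).comp_const_add x s
      have h2 := ((((hasDerivAt_id s).const_mul (g1 ε x)).const_add (gg ε x)).add
        ((hasDerivAt_pow 2 s).div_const 2)).sub h1
      refine HasDerivAt.congr_deriv h2 ?_
      simp)
    (fun s => by
      have h1 := (hasDerivAt_g1 ε (x + s)).comp_const_add x s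
      exact ((hasDerivAt_id s).const_add (g1 ε x)).sub h1)
    (fun s => by linarith [g2_le hε hε' (x + s)]) (by simp) (by simp) s
  linarith

lemma ratio_le {ε : ℝ} (hε : 0 ≤ ε) (hε' : ε ≤ 1 / 10000) {N σ : ℝ} (h0 : 0 < σ) (h1 : σ < N)
    (x : ℝ) {γ : ℝ} (hγ : 0 ≤ γ) (hγ' : γ ≤ |σ / N - g1 ε x|) :
    Real.exp (σ * x - N * gg ε x) / ER ε N σ ≤ Real.exp 1 * N * Real.exp (-(N * (γ ^ 2 / 2))) := by
  have hN : 0 < N := h0.trans h1
  set s := σ / N - g1 ε x with hs
  have a1 := ER_ge hε hε' h0 h1 (x + s)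
  have a2 := gg_taylor hε hε' x s
  have hσ : σ = N * (s + g1 ε x) := by rw [hs]; field_simp; ring
  have a3 : γ ^ 2 ≤ s ^ 2 := by rw [← sq_abs s]; gcongr
  have a4 : σ * x - N * gg ε x + N * (γ ^ 2 / 2) ≤ σ * (x + s) - N * gg ε (x + s) := by
    have : σ * s = N * (s + g1 ε x) * s := by rw [← hσ]
    nlinarith
  rw [div_le_iff₀ (ER_pos hε hε' h0 h1)]
  rw [div_le_iff₀ (by positivity)] at a1
  have a5 : Real.exp (σ * x - N * gg ε x)
      ≤ Real.exp (σ * (x + s) - N * gg ε (x + s)) * Real.exp (-(N * (γ ^ 2 / 2))) := by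
    rw [← Real.exp_add]; apply Real.exp_le_exp.2; linarith
  have a6 := Real.exp_pos (-(N * (γ ^ 2 / 2)))
  nlinarith

lemma TT_ge (s : ℝ) : Real.exp (-|s|) / 4 ≤ TT s := by
  unfold TT
  have h := Real.exp_pos s
  rw [div_le_div_iff₀ (by norm_num) (by positivity)]
  rcases le_total 0 s with hs | hs
  · rw [abs_of_nonneg hs, Real.exp_neg]
    have h1 : 1 ≤ Real.exp s := Real.one_le_exp hs
    rw [inv_mul_le_iff₀ h]
    nlinarith
  · rw [abs_of_nonpos hs, neg_neg]
    have h1 : Real.exp s ≤ 1 := Real.exp_le_one_iff.2 hs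
    have : (1 + Real.exp s) ^ 2 ≤ 4 := by nlinarith
    nlinarith

lemma TT_le_exp (s : ℝ) : TT s ≤ Real.exp (-|s|) := by
  unfold TT
  have h := Real.exp_pos s
  rw [div_le_iff₀ (by positivity)]
  rcases le_total 0 s with hs | hs
  · rw [abs_of_nonneg hs, Real.exp_neg, le_inv_mul_iff₀ h]
    nlinarith
  · rw [abs_of_nonpos hs, neg_neg]
    nlinarith [mul_pos h h, mul_pos (mul_pos h h) h]

lemma differentiableOn_EE {ε : ℝ} (hε : 0 ≤ ε) (hε' : ε ≤ 1 / 10000) (N : ℝ) :
    DifferentiableOn ℂ (EE ε N) {ξ | 0 < ξ.re ∧ ξ.re < N} := by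
  set ρ : ℝ → NNReal := fun x => (Real.exp (-(N * gg ε x))).toNNReal with hρ
  have hgc : Continuous (gg ε) := continuous_iff_continuousAt.2 fun x =>
    (hasDerivAt_gg ε x).continuousAt
  have hρm : Measurable ρ := by
    apply Measurable.real_toNNReal
    exact (Real.continuous_exp.comp ((hgc.const_mul N).neg)).measurable
  set μ : Measure ℝ := volume.withDensity (fun x => (ρ x : ENNReal)) with hμ
  have e : EE ε N = ProbabilityTheory.complexMGF id μ := by
    funext ξ
    unfold EE ProbabilityTheory.complexMGF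
    rw [hμ, integral_withDensity_eq_integral_smul hρm]
    refine integral_congr_ae (Eventually.of_forall fun x => ?_)
    simp only [hρ, id, FF, NNReal.smul_def, Real.coe_toNNReal _ (Real.exp_pos _).le, real_smul,
      GG_ofReal]
    push_cast
    rw [← Complex.exp_add]
    congr 1; ring
  rw [e]
  refine ProbabilityTheory.differentiableOn_complexMGF.mono ?_
  intro ξ hξ
  have hsub : Ioo 0 N ⊆ ProbabilityTheory.integrableExpSet id μ := by
    intro σ hσ
    simp only [ProbabilityTheory.integrableExpSet, mem_ofPred_eq, id]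
    rw [hμ, integrable_withDensity_iff_integrable_smul hρm]
    refine (integrable_real hε hε' hσ.1 hσ.2).congr (Eventually.of_forall fun x => ?_)
    simp only [hρ, NNReal.smul_def, Real.coe_toNNReal _ (Real.exp_pos _).le, smul_eq_mul]
    rw [← Real.exp_add]
    congr 1; ring
  exact interior_maximal hsub isOpen_Ioo hξ

lemma g1_bounds {ε : ℝ} (hε : 0 ≤ ε) (hε' : ε ≤ 1 / 10000) {x c : ℝ}
    (hT : ∀ s, |s - x| ≤ 1 → c ≤ 4 / 5 * TT s) : c ≤ g1 ε x ∧ g1 ε x ≤ 1 - c := by
  have hm : MonotoneOn (fun t => g1 ε t - c * t) (Icc (x - 1) (x + 1)) := by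
    apply monotoneOn_Icc_of_hasDerivAt (f1 := fun t => g2 ε t - c)
    · intro t _
      refine HasDerivAt.congr_deriv
        ((hasDerivAt_g1 ε t).sub ((hasDerivAt_id t).const_mul c)) ?_
      rw [mul_one]
    · intro t ht
      have := hT t (abs_le.2 ⟨by linarith [ht.1], by linarith [ht.2]⟩)
      linarith [g2_ge hε hε' t]
  have m1 : x - 1 ∈ Icc (x - 1) (x + 1) := ⟨le_rfl, by linarith⟩
  have m2 : x ∈ Icc (x - 1) (x + 1) := ⟨by linarith, by linarith⟩
  have m3 : x + 1 ∈ Icc (x - 1) (x + 1) := ⟨by linarith, le_rfl⟩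
  have a1 := hm m1 m2 (by linarith)
  have a2 := hm m2 m3 (by linarith)
  simp only at a1 a2
  have a3 := g1_nonneg hε' (x - 1)
  have a4 := g1_le_one hε (x + 1)
  constructor <;> nlinarith

/-- The normalised coefficient sequence. -/
noncomputable def aa (ε : ℝ) (n : ℕ) (x : ℝ) (j : ℤ) : ℂ :=
  if 1 ≤ j ∧ j < n then ((Real.exp (j * x - n * gg ε x) / ER ε n j : ℝ) : ℂ) else 0

/-- Its holomorphic interpolation. -/
noncomputable def AA (ε : ℝ) (n : ℕ) (x : ℝ) (ξ : ℂ) : ℂ := FF ε n ξ x / EE ε n ξ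

lemma AA_bound {ε : ℝ} (hε : 0 ≤ ε) (hε' : ε ≤ 1 / 10000) {n : ℕ} (hn : 0 < n) {x c η : ℝ}
    (hc : 0 < c) (hT : ∀ s, |s - x| ≤ 1 → c ≤ 4 / 5 * TT s) {ξ : ℂ}
    (hξ : ‖ξ / n - g1 ε x‖ < c / 20) (hη : |ξ.im| ≤ η * n) :
    0 < ξ.re ∧ ξ.re < n ∧ EE ε n ξ ≠ 0 ∧
      ‖AA ε n x ξ‖ ≤ 2 * (Real.exp 1 * n) * Real.exp (n * (η ^ 2 / c)) := by
  have hN : (0 : ℝ) < n := by exact_mod_cast hn
  obtain ⟨p, hp, hpζ⟩ := exists_saddle hε hε' hc (fun s hs => hT s (by linarith)) hξ
  have him : |p.im| ≤ 1 / 10 := by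
    have := Complex.abs_im_le_norm (p - x)
    simp only [sub_im, ofReal_im, sub_zero] at this
    linarith
  have hre : |p.re - x| ≤ 1 := by
    have := Complex.abs_re_le_norm (p - x)
    simp only [sub_re, ofReal_re] at this
    linarith
  obtain ⟨b1, b2⟩ := g1_bounds hε hε' hT
  have hζre : |(G1 ε p).re - g1 ε x| < c / 20 := by
    have := Complex.abs_re_le_norm (ξ / n - g1 ε x)
    rw [hpζ]
    simp only [sub_re, ofReal_re] at this
    linarith
  have h0 : 0 < (G1 ε p).re := by linarith [(abs_lt.1 hζre).1]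
  have h1 : (G1 ε p).re < 1 := by linarith [(abs_lt.1 hζre).2]
  have hξe : ξ = (n : ℝ) * G1 ε p := by
    rw [hpζ]; push_cast
    have : (n : ℂ) ≠ 0 := by exact_mod_cast hn.ne'
    field_simp
  have hξre : ξ.re = n * (G1 ε p).re := by rw [hξe]; simp
  have hξim : ξ.im = n * (G1 ε p).im := by rw [hξe]; simp
  have h0' : 0 < ξ.re := by rw [hξre]; positivity
  have h1' : ξ.re < n := by rw [hξre]; nlinarith
  have key := norm_EE_ge hε hε' hN him h0 h1
  rw [← hξe, ← hξre] at key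
  have hτ : |(G1 ε p).im| ≤ η := by
    rw [hξim, abs_mul, abs_of_pos hN] at hη
    nlinarith
  have hy : c * |p.im| ≤ η := by
    have a1 := abs_im_G1_ge hε hε' him
    have a2 := hT _ hre
    nlinarith [abs_nonneg p.im]
  have hprod : |(G1 ε p).im| * |p.im| ≤ η ^ 2 / c := by
    rw [le_div_iff₀ hc]
    have : 0 ≤ c * |p.im| := by positivity
    nlinarith [abs_nonneg (G1 ε p).im]
  have hlow := ER_ge hε hε' h0' h1' x
  have hE : 1 / 2 * (Real.exp (-(n * (η ^ 2 / c)))
      * (Real.exp (ξ.re * x - n * gg ε x) / (Real.exp 1 * n))) ≤ ‖EE ε n ξ‖ := by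
    refine le_trans ?_ key
    have a1 : Real.exp (-(n * (η ^ 2 / c))) ≤ Real.exp (-(n * |(G1 ε p).im| * |p.im|)) := by
      apply Real.exp_le_exp.2
      have := mul_le_mul_of_nonneg_left hprod hN.le
      linarith
    gcongr
  have hEpos : 0 < ‖EE ε n ξ‖ := lt_of_lt_of_le (by positivity) hE
  refine ⟨h0', h1', norm_pos_iff.1 hEpos, ?_⟩
  unfold AA
  rw [norm_div, norm_FF, div_le_iff₀ hEpos]
  simp only [ofReal_re, ofReal_im, mul_zero, sub_zero, GG_ofReal]
  refine le_trans (le_of_eq ?_) (mul_le_mul_of_nonneg_left hE (by positivity))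
  rw [Real.exp_neg]
  field_simp

lemma AA_int (ε : ℝ) (n : ℕ) (x : ℝ) {j : ℤ} (h0 : 0 < ((j : ℂ)).re) (h1 : ((j : ℂ)).re < n) :
    aa ε n x j = AA ε n x j := by
  simp only [intCast_re] at h0 h1
  have a0 : 1 ≤ j := by exact_mod_cast h0
  have a1 : j < n := by exact_mod_cast h1
  unfold aa AA
  rw [if_pos ⟨a0, a1⟩]
  have : (j : ℂ) = ((j : ℝ) : ℂ) := by push_cast; rfl
  rw [this, FF_ofReal, EE_ofReal]
  push_cast
  rfl

lemma aa_far {ε : ℝ} (hε : 0 ≤ ε) (hε' : ε ≤ 1 / 10000) (n : ℕ) (x : ℝ) {j : ℤ} {γ : ℝ}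
    (hγ : 0 ≤ γ) (hγ' : γ ≤ |(j : ℝ) / n - g1 ε x|) :
    ‖aa ε n x j‖ ≤ Real.exp 1 * n * Real.exp (-(n * (γ ^ 2 / 2))) := by
  unfold aa
  split_ifs with h
  · have h0 : (0 : ℝ) < j := by exact_mod_cast h.1
    have h1 : (j : ℝ) < n := by exact_mod_cast h.2
    rw [Complex.norm_real, Real.norm_of_nonneg
      (div_nonneg (Real.exp_pos _).le (ER_pos hε hε' h0 h1).le)]
    exact ratio_le hε hε' h0 h1 x hγ hγ'
  · rw [norm_zero]; positivity

/-- Exponential cancellation of the trigonometric sum away from `w = 1`. -/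
theorem angular_decay (R : ℝ) {d : ℝ} (hd : 0 < d) :
    ∃ C c : ℝ, 0 < C ∧ 0 < c ∧ ∀ ε : ℝ, 0 ≤ ε → ε ≤ 1 / 10000 → ∀ n : ℕ, 0 < n → ∀ x : ℝ,
      |x| ≤ R → ∀ w : ℂ, ‖w‖ = 1 → d ≤ ‖w - 1‖ →
        ‖∑ j ∈ Finset.Icc (0 : ℤ) n, aa ε n x j * w ^ j‖ ≤ C * n ^ 2 * Real.exp (-(c * n)) := by
  set c0 : ℝ := Real.exp (-(|R| + 1)) / 5 with hc0
  have hc0p : 0 < c0 := by positivity
  have hc01 : c0 ≤ 1 := by
    have : Real.exp (-(|R| + 1)) ≤ 1 := Real.exp_le_one_iff.2 (by linarith [abs_nonneg R])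
    linarith
  set r : ℝ := Real.exp 1 / d with hr
  have hrp : 0 < r := by positivity
  set β : ℝ := (c0 / 160) ^ 2 / 2 with hβ
  have hβp : 0 < β := by positivity
  obtain ⟨η, hηp, hη1, hη2, hη3⟩ :
      ∃ η : ℝ, 0 < η ∧ η ≤ c0 / 160 ∧ η ≤ c0 / (8 * (r + 1)) ∧ η ≤ β * d / 4 :=
    ⟨min (c0 / 160) (min (c0 / (8 * (r + 1))) (β * d / 4)), by positivity, min_le_left _ _,
      (min_le_right _ _).trans (min_le_left _ _), (min_le_right _ _).trans (min_le_right _ _)⟩
  set lam : ℝ := η / (r + 1) with hlam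
  have hlamp : 0 < lam := by positivity
  have hlamη : lam ≤ η := by
    rw [hlam, div_le_iff₀ (by positivity)]; nlinarith
  refine ⟨3 * (2 * Real.exp 1 ^ 2 + Real.exp 1), min (lam / 2) (β / 2), by positivity,
    by positivity, ?_⟩
  intro ε hε hε' n hn x hx w hw hdw
  have hN : (0 : ℝ) < n := by exact_mod_cast hn
  have hN1 : (1 : ℝ) ≤ n := by exact_mod_cast hn
  have hT : ∀ s, |s - x| ≤ 1 → c0 ≤ 4 / 5 * TT s := by
    intro s hs
    have a1 := TT_ge s
    have a2 : Real.exp (-(|R| + 1)) ≤ Real.exp (-|s|) := by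
      apply Real.exp_le_exp.2
      have := abs_add_le (s - x) x
      rw [sub_add_cancel] at this
      linarith [le_abs_self R]
    linarith
  set L : ℕ := ⌊lam * n⌋₊ with hL
  have hL1 : (L : ℝ) ≤ lam * n := Nat.floor_le (by positivity)
  have hL2 : lam * n - 1 ≤ L := (Nat.sub_one_lt_floor _).le
  have hL3 : (L : ℝ) ≤ η * n := hL1.trans (by gcongr)
  have hL4 : (L : ℝ) * (r + 1) ≤ η * n := by
    have : lam * (r + 1) = η := by rw [hlam]; field_simp
    nlinarith
  set B : ℝ := 2 * (Real.exp 1 * n) * Real.exp (n * ((2 * η) ^ 2 / c0)) with hB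
  set K2 : ℝ := Real.exp 1 * n * Real.exp (-(n * β)) with hK2
  have hK : ∀ j : ℤ, ‖(fwdDiff 1)^[L] (aa ε n x) j‖ ≤ B / r ^ L + 2 ^ L * K2 := by
    intro j
    by_cases hj : |(j : ℝ) / n - g1 ε x| ≤ c0 / 80
    · have hball : ∀ ξ ∈ ball (j : ℂ) (2 * η * n), 0 < ξ.re ∧ ξ.re < n ∧ EE ε n ξ ≠ 0 ∧
          ‖AA ε n x ξ‖ ≤ B := by
        intro ξ hξ
        rw [mem_ball, dist_eq_norm] at hξ
        apply AA_bound hε hε' hn hc0p hT
        · have hn0 : (n : ℂ) ≠ 0 := by exact_mod_cast hn.ne'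
          have e : ξ / n - g1 ε x = (ξ - j) / n + (((j : ℝ) / n - g1 ε x : ℝ) : ℂ) := by
            push_cast; field_simp; ring
          rw [e]
          refine (norm_add_le _ _).trans_lt ?_
          rw [norm_div, Complex.norm_natCast, Complex.norm_real, Real.norm_eq_abs]
          have : ‖ξ - j‖ / n < 2 * η := by rw [div_lt_iff₀ hN]; exact hξ
          linarith
        · have := Complex.abs_im_le_norm (ξ - j)
          simp only [sub_im, intCast_im, sub_zero] at this
          linarith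
      have hdiff : DifferentiableOn ℂ (AA ε n x) (ball (j : ℂ) (2 * η * n)) := by
        unfold AA
        apply DifferentiableOn.div
        · unfold FF
          exact (((differentiable_id.mul_const _).sub_const _).cexp).differentiableOn
        · exact (differentiableOn_EE hε hε' n).mono fun ξ hξ => ⟨(hball ξ hξ).1, (hball ξ hξ).2.1⟩
        · exact fun ξ hξ => (hball ξ hξ).2.2.1
      have h1 := fwdDiff_iter_bound hrp L hdiff (fun ξ hξ => (hball ξ hξ).2.2.2) (j : ℂ)
        (mem_ball_self (by nlinarith [mul_pos hηp hN]))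
      have h2 : (fwdDiff 1)^[L] (aa ε n x) j = (fwdDiff 1)^[L] (AA ε n x) (j : ℂ) := by
        apply fwdDiff_iter_sample
        intro i hi
        have hm : (((j + i : ℤ)) : ℂ) ∈ ball (j : ℂ) (2 * η * n) := by
          rw [mem_ball, dist_eq_norm]
          push_cast
          rw [add_sub_cancel_left, Complex.norm_natCast]
          have : (i : ℝ) ≤ L := by exact_mod_cast hi
          nlinarith [mul_pos hηp hN]
        have := AA_int ε n x (hball _ hm).1 (hball _ hm).2.1
        rw [this]; push_cast; rfl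
      rw [h2]
      have : 0 ≤ 2 ^ L * K2 := by positivity
      linarith
    · have h1 : ‖(fwdDiff 1)^[L] (aa ε n x) j‖ ≤ 2 ^ L * K2 := by
        apply fwdDiff_iter_crude
        intro i hi
        apply aa_far hε hε' n x (γ := c0 / 160) (by positivity)
        push Not at hj
        have a1 : (i : ℝ) / n ≤ η := by
          rw [div_le_iff₀ hN]
          have : (i : ℝ) ≤ L := by exact_mod_cast hi
          linarith
        have a2 : 0 ≤ (i : ℝ) / n := by positivity
        have e : (j : ℝ) / n - g1 ε x = (((j + i : ℤ) : ℝ) / n - g1 ε x) + (-((i : ℝ) / n)) := by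
          push_cast; ring
        have a3 := abs_add_le (((j + i : ℤ) : ℝ) / n - g1 ε x) (-((i : ℝ) / n))
        rw [← e, abs_neg, abs_of_nonneg a2] at a3
        linarith
      have : 0 ≤ B / r ^ L := by positivity
      linarith
  have main := norm_sum_le_of_fwdDiff hw hd hdw n L (aa ε n x)
    (fun j hj => by unfold aa; rw [if_neg (by omega)])
    (fun j hj => by unfold aa; rw [if_neg (by omega)]) hK
  refine main.trans ?_
  set c := min (lam / 2) (β / 2) with hc
  have hc1 : c ≤ lam / 2 := min_le_left _ _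
  have hc2 : c ≤ β / 2 := min_le_right _ _
  have t1 : B / r ^ L / d ^ L ≤ 2 * Real.exp 1 ^ 2 * n * Real.exp (-(c * n)) := by
    have e1 : B / r ^ L / d ^ L = B * Real.exp (-(L : ℝ)) := by
      rw [div_div, ← mul_pow, hr, div_mul_cancel₀ _ hd.ne', ← Real.exp_nat_mul, mul_one,
        Real.exp_neg, div_eq_mul_inv]
    rw [e1, hB]
    have a1 : (2 * η) ^ 2 / c0 ≤ lam / 2 := by
      rw [le_div_iff₀ (by positivity)] at hη2
      rw [div_le_iff₀ hc0p, hlam]
      have : η / (r + 1) / 2 * c0 = η * c0 / (2 * (r + 1)) := by field_simp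
      rw [this, le_div_iff₀ (by positivity)]
      have b2 := mul_le_mul_of_nonneg_left hη2 hηp.le
      linarith
    have a2 : Real.exp (n * ((2 * η) ^ 2 / c0)) * Real.exp (-(L : ℝ))
        ≤ Real.exp 1 * Real.exp (-(c * n)) := by
      rw [← Real.exp_add, ← Real.exp_add]
      apply Real.exp_le_exp.2
      have b1 := mul_le_mul_of_nonneg_left a1 hN.le
      have b2 := mul_le_mul_of_nonneg_left hc1 hN.le
      linarith
    calc _ = 2 * (Real.exp 1 * n)
          * (Real.exp (n * ((2 * η) ^ 2 / c0)) * Real.exp (-(L : ℝ))) := by ring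
      _ ≤ 2 * (Real.exp 1 * n) * (Real.exp 1 * Real.exp (-(c * n))) := by gcongr
      _ = _ := by ring
  have t2 : 2 ^ L * K2 / d ^ L ≤ Real.exp 1 * n * Real.exp (-(c * n)) := by
    have a1 : (2 / d) ^ L ≤ Real.exp (L * (2 / d)) := by
      rw [Real.exp_nat_mul]
      gcongr
      linarith [Real.add_one_le_exp (2 / d)]
    have a2 : L * (2 / d) ≤ n * (β / 2) := by
      have : η * (2 / d) ≤ β / 2 := by
        rw [← mul_div_assoc, div_le_iff₀ hd]; linarith
      have h2d : 0 < 2 / d := by positivity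
      have b1 := mul_le_mul_of_nonneg_right hL3 h2d.le
      have b2 := mul_le_mul_of_nonneg_left this hN.le
      linarith
    have a3 : (2 / d) ^ L * Real.exp (-(n * β)) ≤ Real.exp (-(c * n)) := by
      calc _ ≤ Real.exp (L * (2 / d)) * Real.exp (-(n * β)) := by gcongr
        _ ≤ _ := by
          rw [← Real.exp_add]
          apply Real.exp_le_exp.2
          have b2 := mul_le_mul_of_nonneg_left hc2 hN.le
          linarith
    calc _ = Real.exp 1 * n * ((2 / d) ^ L * Real.exp (-(n * β))) := by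
          rw [hK2, div_pow]; ring
      _ ≤ _ := by gcongr
  have t3 : (n : ℝ) + L + 1 ≤ 3 * n := by
    have h1 : η ≤ 1 := by linarith
    have b2 := mul_le_mul_of_nonneg_right h1 hN.le
    linarith
  calc ((n : ℝ) + L + 1) * (B / r ^ L + 2 ^ L * K2) / d ^ L
      = ((n : ℝ) + L + 1) * (B / r ^ L / d ^ L + 2 ^ L * K2 / d ^ L) := by ring
    _ ≤ (3 * n) * (2 * Real.exp 1 ^ 2 * n * Real.exp (-(c * n))
          + Real.exp 1 * n * Real.exp (-(c * n))) := by
        gcongr
    _ = _ := by ring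

end Pool.Agent.MP_6c43ae_an

end MrgPart1

-- ======== part 2: formerly Pool.Agent.MP_6c43ae_an.Core
section MrgPart2

/-! The off-diagonal estimate for the explicit kernel on the punctured plane. -/

set_option autoImplicit false

namespace Pool.Agent.MP_6c43ae_an

open Complex Set Filter Topology MeasureTheory Metric

/-- The squared norm of `z ^ j`, divided by `π`. -/
noncomputable def mm (ε : ℝ) (k j : ℕ) : ℝ :=
  ER (ε * k / (k + 2)) ((k + 2 : ℕ) : ℝ) ((j + 1 : ℕ) : ℝ)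

/-- The potential in the affine chart. -/
noncomputable def phi0 (ε : ℝ) (z : ℂ) : ℝ := Real.log (1 + ‖z‖ ^ 2) + ε * Real.exp (-‖z‖ ^ 2)

lemma eps_k {ε : ℝ} (hε : 0 ≤ ε) (hε' : ε ≤ 1 / 10000) (k : ℕ) :
    0 ≤ ε * k / (k + 2) ∧ ε * k / (k + 2) ≤ 1 / 10000 := by
  refine ⟨by positivity, le_trans ?_ hε'⟩
  rw [div_le_iff₀ (by positivity)]
  nlinarith

lemma exp_weight (ε : ℝ) (k j : ℕ) (s : ℝ) :
    Real.exp (((j + 1 : ℕ) : ℝ) * s - ((k + 2 : ℕ) : ℝ) * gg (ε * k / (k + 2)) s)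
      = Real.exp (j * s - k * gg ε s) * TT s := by
  have h : 0 < 1 + Real.exp s := by positivity
  have e : TT s = Real.exp (s - 2 * Real.log (1 + Real.exp s)) := by
    unfold TT
    rw [Real.exp_sub, show (2 : ℝ) = ((2 : ℕ) : ℝ) by norm_num, Real.exp_nat_mul, Real.exp_log h]
  rw [e, ← Real.exp_add]
  congr 1
  unfold gg
  push_cast
  field_simp
  ring

lemma mm_pos {ε : ℝ} (hε : 0 ≤ ε) (hε' : ε ≤ 1 / 10000) {k j : ℕ} (hj : j ≤ k) : 0 < mm ε k j := by
  obtain ⟨h1, h2⟩ := eps_k hε hε' k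
  apply ER_pos h1 h2
  · positivity
  · exact_mod_cast (by omega : j + 1 < k + 2)

/-- Uniform diagonal bound. -/
lemma diag_bound {ε : ℝ} (hε : 0 ≤ ε) (hε' : ε ≤ 1 / 10000) {k j : ℕ} (hj : j ≤ k) (x : ℝ) :
    Real.exp (j * x - k * gg ε x) ≤ 4 * Real.exp 3 * (k + 2) ^ 2 * mm ε k j := by
  obtain ⟨h1, h2⟩ := eps_k hε hε' k
  have hk1 : (0 : ℝ) < k + 1 := by positivity
  set l := Real.log (k + 1) with hl
  have hl0 : 0 ≤ l := Real.log_nonneg (by linarith [Nat.cast_nonneg (α := ℝ) k])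
  have hel : Real.exp l = k + 1 := Real.exp_log hk1
  have hjk : (j : ℝ) ≤ k := by exact_mod_cast hj
  have hj0 : (0 : ℝ) ≤ j := Nat.cast_nonneg j
  have hk0 : (0 : ℝ) ≤ k := Nat.cast_nonneg k
  obtain ⟨x1, hx1, hf⟩ : ∃ x1 : ℝ, |x1| ≤ l ∧
      j * x - k * gg ε x ≤ j * x1 - k * gg ε x1 + 2 := by
    by_cases ha : x < -l
    · refine ⟨-l, by rw [abs_neg, abs_of_nonneg hl0], ?_⟩
      have b1 : gg ε (-l) - gg ε x ≤ 1 / (k + 1) := by
        unfold gg
        have c1 : 0 ≤ Real.log (1 + Real.exp x) :=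
          Real.log_nonneg (by linarith [Real.exp_pos x])
        have c2 : Real.log (1 + Real.exp (-l)) ≤ Real.exp (-l) := by
          have := Real.log_le_sub_one_of_pos (show 0 < 1 + Real.exp (-l) by positivity)
          linarith
        have c3 : Real.exp (-l) = 1 / (k + 1) := by rw [Real.exp_neg, hel, one_div]
        have c4 : Real.exp (-Real.exp (-l)) ≤ Real.exp (-Real.exp x) := by
          apply Real.exp_le_exp.2
          have := Real.exp_le_exp.2 ha.le
          linarith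
        have c5 := mul_le_mul_of_nonneg_left c4 hε
        linarith
      have b2 : k * (gg ε (-l) - gg ε x) ≤ 1 := by
        calc _ ≤ k * (1 / ((k : ℝ) + 1)) := by gcongr
          _ ≤ 1 := by rw [mul_one_div, div_le_one hk1]; linarith
      have b3 : j * x ≤ j * (-l) := by gcongr
      linarith
    · by_cases hb : l < x
      · refine ⟨l, by rw [abs_of_nonneg hl0], ?_⟩
        have b0 : x ≤ gg ε x := by
          unfold gg
          have c1 : x ≤ Real.log (1 + Real.exp x) := by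
            rw [Real.le_log_iff_exp_le (by positivity)]; linarith
          have c2 : 0 ≤ ε * Real.exp (-Real.exp x) := by positivity
          linarith
        have b1 : gg ε l - l ≤ 2 / (k + 1) := by
          unfold gg
          rw [hel]
          have c1 : Real.log (1 + (k + 1)) - l ≤ 1 / (k + 1) := by
            rw [hl, ← Real.log_div (by positivity) hk1.ne']
            have := Real.log_le_sub_one_of_pos (show 0 < (1 + ((k : ℝ) + 1)) / (k + 1) by positivity)
            have e : (1 + ((k : ℝ) + 1)) / (k + 1) - 1 = 1 / (k + 1) := by field_simp; ring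
            linarith
          have c2 : Real.exp (-((k : ℝ) + 1)) ≤ 1 / (k + 1) := by
            rw [Real.exp_neg, ← one_div]
            apply one_div_le_one_div_of_le hk1
            linarith [Real.add_one_le_exp ((k : ℝ) + 1)]
          have c3 : ε * Real.exp (-((k : ℝ) + 1)) ≤ 1 * (1 / (k + 1)) :=
            mul_le_mul (by linarith) c2 (Real.exp_pos _).le zero_le_one
          have e : 2 / ((k : ℝ) + 1) = 1 / (k + 1) + 1 / (k + 1) := by ring
          linarith
        have b2 : k * (gg ε l - l) ≤ 2 := by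
          calc _ ≤ k * (2 / ((k : ℝ) + 1)) := by gcongr
            _ ≤ 2 := by rw [← mul_div_assoc, div_le_iff₀ hk1]; linarith
        have b3 : ((k : ℝ) - j) * l ≤ (k - j) * x :=
          mul_le_mul_of_nonneg_left hb.le (by linarith)
        have b4 : k * x ≤ k * gg ε x := by gcongr
        linarith
      · exact ⟨x, abs_le.2 ⟨by linarith, by linarith⟩, by linarith⟩
  have a1 := ER_ge h1 h2 (N := ((k + 2 : ℕ) : ℝ)) (σ := ((j + 1 : ℕ) : ℝ)) (by positivity)
    (by exact_mod_cast (by omega : j + 1 < k + 2)) x1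
  rw [exp_weight, div_le_iff₀ (by positivity)] at a1
  have a2 : 1 / (4 * ((k : ℝ) + 2)) ≤ TT x1 := by
    refine le_trans ?_ (TT_ge x1)
    have : 1 / ((k : ℝ) + 2) ≤ Real.exp (-|x1|) := by
      calc 1 / ((k : ℝ) + 2) ≤ 1 / (k + 1) := one_div_le_one_div_of_le hk1 (by linarith)
        _ = Real.exp (-l) := by rw [Real.exp_neg, hel, one_div]
        _ ≤ _ := Real.exp_le_exp.2 (by linarith)
    have e : 1 / (4 * ((k : ℝ) + 2)) = 1 / (k + 2) / 4 := by field_simp
    linarith
  have a3 : Real.exp (j * x - k * gg ε x) ≤ Real.exp (j * x1 - k * gg ε x1) * Real.exp 2 := by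
    rw [← Real.exp_add]; exact Real.exp_le_exp.2 hf
  have a4 : Real.exp (j * x1 - k * gg ε x1)
      ≤ 4 * (k + 2) * (mm ε k j * (Real.exp 1 * (k + 2))) := by
    have b1 : Real.exp (j * x1 - k * gg ε x1) * (1 / (4 * ((k : ℝ) + 2)))
        ≤ mm ε k j * (Real.exp 1 * (k + 2)) := by
      refine le_trans (mul_le_mul_of_nonneg_left a2 (Real.exp_pos _).le) (a1.trans (le_of_eq ?_))
      unfold mm; push_cast; ring
    rw [mul_one_div, div_le_iff₀ (by positivity)] at b1
    linarith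
  have e3 : Real.exp 3 = Real.exp 1 * Real.exp 2 := by rw [← Real.exp_add]; norm_num
  calc _ ≤ Real.exp (j * x1 - k * gg ε x1) * Real.exp 2 := a3
    _ ≤ 4 * (k + 2) * (mm ε k j * (Real.exp 1 * (k + 2))) * Real.exp 2 := by gcongr
    _ = _ := by rw [e3]; ring

lemma phi0_eq (ε : ℝ) {z : ℂ} (hz : z ≠ 0) : phi0 ε z = gg ε (2 * Real.log ‖z‖) := by
  have h : Real.exp (2 * Real.log ‖z‖) = ‖z‖ ^ 2 := by
    rw [show (2 : ℝ) = ((2 : ℕ) : ℝ) by norm_num, Real.exp_nat_mul,
      Real.exp_log (norm_pos_iff.2 hz)]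
  unfold phi0 gg
  rw [h]

/-- Quantitative midpoint convexity. -/
lemma midpoint_gain {ε : ℝ} (hε : 0 ≤ ε) (hε' : ε ≤ 1 / 10000) {z w : ℂ} (hz : z ≠ 0)
    (hw : w ≠ 0) :
    gg ε (Real.log (‖z‖ * ‖w‖))
      + (‖z‖ - ‖w‖) ^ 2 / ((1 + ‖z‖ ^ 2) * (1 + ‖w‖ ^ 2)) / 4 ≤ (phi0 ε z + phi0 ε w) / 2 := by
  have hc : ConvexOn ℝ univ (fun x => gg ε x - 1 / 2 * gg 0 x) :=
    convexOn_of_deriv2 (f1 := fun x => g1 ε x - 1 / 2 * g1 0 x)
      (f2 := fun x => g2 ε x - 1 / 2 * g2 0 x)
      (fun x => (hasDerivAt_gg ε x).sub ((hasDerivAt_gg 0 x).const_mul _))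
      (fun x => (hasDerivAt_g1 ε x).sub ((hasDerivAt_g1 0 x).const_mul _))
      (fun x => by
        have a1 := g2_ge hε hε' x
        have a2 : g2 0 x = TT x := by simp [g2, TT]
        have a3 := TT_pos x
        linarith)
  have h := midpoint_le_of_convexOn hc (2 * Real.log ‖z‖) (2 * Real.log ‖w‖)
  set a := ‖z‖
  set b := ‖w‖
  have ha : 0 < a := norm_pos_iff.2 hz
  have hb : 0 < b := norm_pos_iff.2 hw
  have e : (2 * Real.log a + 2 * Real.log b) / 2 = Real.log (a * b) := by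
    rw [Real.log_mul ha.ne' hb.ne']; ring
  rw [e, ← phi0_eq ε hz, ← phi0_eq ε hw, ← phi0_eq 0 hz, ← phi0_eq 0 hw] at h
  have e1 : gg 0 (Real.log (a * b)) = Real.log (1 + a * b) := by
    unfold gg; rw [Real.exp_log (by positivity)]; simp
  have e2 : phi0 0 z = Real.log (1 + a ^ 2) := by simp [phi0, a]
  have e3 : phi0 0 w = Real.log (1 + b ^ 2) := by simp [phi0, b]
  rw [e1, e2, e3] at h
  have h2 := Real.log_le_sub_one_of_pos
    (show 0 < (1 + a * b) ^ 2 / ((1 + a ^ 2) * (1 + b ^ 2)) by positivity)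
  rw [Real.log_div (by positivity) (by positivity), Real.log_mul (by positivity) (by positivity),
    Real.log_pow] at h2
  have e4 : (1 + a * b) ^ 2 / ((1 + a ^ 2) * (1 + b ^ 2)) - 1
      = -((a - b) ^ 2 / ((1 + a ^ 2) * (1 + b ^ 2))) := by
    field_simp; ring
  rw [e4] at h2
  push_cast at h2
  linarith

lemma poly_absorb {c : ℝ} (hc : 0 < c) (k : ℕ) :
    ((k : ℝ) + 2) ^ 3 * Real.exp (-(c * k)) ≤ 48 / c ^ 3 * Real.exp c * Real.exp (-(c / 2 * k)) := by
  have h := Real.pow_div_factorial_le_exp (x := c / 2 * (k + 2)) (by positivity) 3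
  have e : (((3 : ℕ).factorial : ℕ) : ℝ) = 6 := by norm_num [Nat.factorial]
  rw [e] at h
  have h2 : ((k : ℝ) + 2) ^ 3 ≤ 48 / c ^ 3 * Real.exp (c / 2 * (k + 2)) := by
    have e2 : ((k : ℝ) + 2) ^ 3 = 48 / c ^ 3 * ((c / 2 * (k + 2)) ^ 3 / 6) := by
      field_simp; ring
    rw [e2]; gcongr
  calc _ ≤ 48 / c ^ 3 * Real.exp (c / 2 * (k + 2)) * Real.exp (-(c * k)) := by gcongr
    _ = _ := by
      rw [mul_assoc, mul_assoc, ← Real.exp_add, ← Real.exp_add]
      congr 2; ring

/-- The kernel sum in terms of the normalised sequence. -/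
lemma sum_eq_aa (ε : ℝ) (k : ℕ) (x : ℝ) (u : ℂ) :
    (∑ j ∈ Finset.range (k + 1), ((Real.exp x : ℂ) * u) ^ j / (mm ε k j : ℂ))
        * (Real.exp (-(k * gg ε x)) : ℂ) * (TT x * u)
      = ∑ i ∈ Finset.Icc (0 : ℤ) (k + 2 : ℕ), aa (ε * k / (k + 2)) (k + 2) x i * u ^ i := by
  have h1 : ∑ i ∈ Finset.Icc (0 : ℤ) (k + 2 : ℕ), aa (ε * k / (k + 2)) (k + 2) x i * u ^ i
      = ∑ i ∈ Finset.Icc (1 : ℤ) (k + 1), aa (ε * k / (k + 2)) (k + 2) x i * u ^ i := by
    symm
    apply Finset.sum_subset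
    · intro i hi; simp only [Finset.mem_Icc] at hi ⊢; omega
    · intro i _ hi
      simp only [Finset.mem_Icc] at hi
      unfold aa
      rw [if_neg (by omega), zero_mul]
  rw [h1, Finset.sum_mul, Finset.sum_mul]
  refine Finset.sum_bij (fun j _ => ((j + 1 : ℕ) : ℤ)) ?_ ?_ ?_ ?_
  · intro j hj; simp only [Finset.mem_range, Finset.mem_Icc] at hj ⊢; omega
  · intro j _ j' _ h; omega
  · intro i hi
    simp only [Finset.mem_Icc] at hi
    exact ⟨(i - 1).toNat, by simp only [Finset.mem_range]; omega, by omega⟩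
  · intro j hj
    simp only [Finset.mem_range] at hj
    unfold aa
    rw [if_pos (by omega), Int.cast_natCast, exp_weight, zpow_natCast]
    have e : Real.exp (j * x - k * gg ε x) = Real.exp x ^ j * Real.exp (-(k * gg ε x)) := by
      rw [← Real.exp_nat_mul, ← Real.exp_add]; rfl
    rw [e]
    unfold mm
    simp only [ofReal_div, ofReal_mul, ofReal_pow]
    ring

/-- The off-diagonal exponential decay of the explicit kernel. -/
theorem core_decay {ε : ℝ} (hε : 0 ≤ ε) (hε' : ε ≤ 1 / 10000) {δ : ℝ} (hδ : 0 < δ) :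
    ∃ c₁ c₂ : ℝ, 0 < c₁ ∧ 0 < c₂ ∧ ∀ (k : ℕ) (z w : ℂ), z ≠ 0 → w ≠ 0 →
      δ ≤ ‖z - w‖ ^ 2 / ((1 + ‖z‖ ^ 2) * (1 + ‖w‖ ^ 2)) →
      ‖∑ j ∈ Finset.range (k + 1), (z * (starRingEnd ℂ) w) ^ j / (mm ε k j : ℂ)‖
        * Real.exp (-(k * ((phi0 ε z + phi0 ε w) / 2))) ≤ c₁ * Real.exp (-(c₂ * k)) := by
  obtain ⟨C, c, hC, hc, hang⟩ := angular_decay (Real.log (8 / δ)) (d := Real.sqrt (2 * δ))
    (by positivity)
  set c' := min c (δ / 8) with hc'
  have hc'p : 0 < c' := by positivity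
  set C' := 4 * Real.exp 3 + 8 / δ * C with hC'
  refine ⟨C' * (48 / c' ^ 3 * Real.exp c'), c' / 2, by positivity, by positivity, ?_⟩
  intro k z w hz hw hzw
  suffices H : ‖∑ j ∈ Finset.range (k + 1), (z * (starRingEnd ℂ) w) ^ j / (mm ε k j : ℂ)‖
        * Real.exp (-(k * ((phi0 ε z + phi0 ε w) / 2)))
        ≤ C' * (((k : ℝ) + 2) ^ 3 * Real.exp (-(c' * k))) by
    refine H.trans ?_
    rw [mul_assoc C']
    exact mul_le_mul_of_nonneg_left (poly_absorb hc'p k) (by positivity)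
  set a := ‖z‖ with ha'
  set b := ‖w‖ with hb'
  have ha : 0 < a := norm_pos_iff.2 hz
  have hb : 0 < b := norm_pos_iff.2 hw
  have hk0 : (0 : ℝ) ≤ k := Nat.cast_nonneg k
  set x := Real.log (a * b) with hx
  have hex : Real.exp x = a * b := Real.exp_log (by positivity)
  set u : ℂ := z * (starRingEnd ℂ) w / (Real.exp x : ℂ) with hu
  have hex0 : (Real.exp x : ℂ) ≠ 0 := by exact_mod_cast (Real.exp_pos x).ne'
  have hzu : z * (starRingEnd ℂ) w = (Real.exp x : ℂ) * u := by rw [hu]; field_simp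
  have hnu : ‖u‖ = 1 := by
    rw [hu, norm_div, norm_mul, Complex.norm_conj, Complex.norm_real,
      Real.norm_of_nonneg (Real.exp_pos x).le, hex]
    exact div_self (by positivity)
  have hsplit : ‖z - w‖ ^ 2 = (a - b) ^ 2 + a * b * ‖u - 1‖ ^ 2 := by
    have e1 : ‖z - w‖ ^ 2 = a ^ 2 + b ^ 2 - 2 * (z * (starRingEnd ℂ) w).re := by
      rw [ha', hb', Complex.sq_norm, Complex.sq_norm, Complex.sq_norm, Complex.normSq_sub]
    have e2 : ‖u - 1‖ ^ 2 = 2 - 2 * u.re := by
      rw [Complex.sq_norm, Complex.normSq_sub, ← Complex.sq_norm, hnu]; simp; ring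
    rw [e1, e2, hzu, re_ofReal_mul, hex]; ring
  set D := (1 + a ^ 2) * (1 + b ^ 2) with hD
  have hDp : 0 < D := by positivity
  have hmid := midpoint_gain hε hε' hz hw
  rw [← ha', ← hb', ← hx, ← hD] at hmid
  set S := ∑ j ∈ Finset.range (k + 1), (z * (starRingEnd ℂ) w) ^ j / (mm ε k j : ℂ) with hS
  have hk2 : (1 : ℝ) ≤ k + 2 := by linarith
  by_cases h1 : δ / 2 ≤ (a - b) ^ 2 / D
  · have b1 : ‖S‖ * Real.exp (-(k * gg ε x)) ≤ 4 * Real.exp 3 * (k + 2) ^ 3 := by
      calc ‖S‖ * Real.exp (-(k * gg ε x))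
          ≤ (∑ j ∈ Finset.range (k + 1), ‖(z * (starRingEnd ℂ) w) ^ j / (mm ε k j : ℂ)‖)
            * Real.exp (-(k * gg ε x)) := by gcongr; exact norm_sum_le _ _
        _ ≤ ∑ _j ∈ Finset.range (k + 1), 4 * Real.exp 3 * ((k : ℝ) + 2) ^ 2 := by
            rw [Finset.sum_mul]
            refine Finset.sum_le_sum fun j hj => ?_
            have hj' : j ≤ k := Nat.lt_succ_iff.1 (Finset.mem_range.1 hj)
            have hm := mm_pos hε hε' hj'
            rw [norm_div, norm_pow, hzu, norm_mul, hnu, mul_one, Complex.norm_real,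
              Complex.norm_real, Real.norm_of_nonneg (Real.exp_pos x).le, Real.norm_of_nonneg hm.le,
              div_mul_eq_mul_div, div_le_iff₀ hm, ← Real.exp_nat_mul, ← Real.exp_add]
            exact diag_bound hε hε' hj' x
        _ ≤ _ := by
            rw [Finset.sum_const, Finset.card_range, nsmul_eq_mul]
            push_cast
            have : 0 ≤ 4 * Real.exp 3 * ((k : ℝ) + 2) ^ 2 := by positivity
            nlinarith
    have b2 : Real.exp (-(k * ((phi0 ε z + phi0 ε w) / 2)))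
        ≤ Real.exp (-(k * gg ε x)) * Real.exp (-(c' * k)) := by
      rw [← Real.exp_add]
      apply Real.exp_le_exp.2
      have c1 : c' ≤ δ / 8 := min_le_right _ _
      have c2 : gg ε x + c' ≤ (phi0 ε z + phi0 ε w) / 2 := by linarith
      have := mul_le_mul_of_nonneg_left c2 hk0
      linarith
    calc _ ≤ ‖S‖ * (Real.exp (-(k * gg ε x)) * Real.exp (-(c' * k))) := by gcongr
      _ = ‖S‖ * Real.exp (-(k * gg ε x)) * Real.exp (-(c' * k)) := by ring
      _ ≤ 4 * Real.exp 3 * (k + 2) ^ 3 * Real.exp (-(c' * k)) := by gcongr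
      _ = 4 * Real.exp 3 * ((k + 2) ^ 3 * Real.exp (-(c' * k))) := by ring
      _ ≤ _ := by
          gcongr
          rw [hC']
          have : 0 ≤ 8 / δ * C := by positivity
          linarith
  · have b0 : δ / 2 ≤ a * b * ‖u - 1‖ ^ 2 / D := by
      rw [hsplit, add_div] at hzw
      linarith
    have hD1 : (1 + a * b) ^ 2 ≤ D := by rw [hD]; nlinarith [sq_nonneg (a - b)]
    have hTx : TT x = a * b / (1 + a * b) ^ 2 := by unfold TT; rw [hex]
    have b1 : δ / 2 ≤ TT x * ‖u - 1‖ ^ 2 := by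
      refine b0.trans ?_
      rw [hTx, div_mul_eq_mul_div]
      gcongr
    have b2 : ‖u - 1‖ ≤ 2 := by
      have := norm_sub_le u 1
      rw [hnu, norm_one] at this
      linarith
    have b3 : δ / 8 ≤ TT x := by
      have : ‖u - 1‖ ^ 2 ≤ 4 := by nlinarith [norm_nonneg (u - 1)]
      nlinarith [TT_pos x]
    have b4 : Real.sqrt (2 * δ) ≤ ‖u - 1‖ := by
      apply Real.sqrt_le_iff.2 ⟨norm_nonneg _, ?_⟩
      nlinarith [TT_le x, sq_nonneg ‖u - 1‖]
    have b5 : |x| ≤ Real.log (8 / δ) := by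
      rw [Real.le_log_iff_exp_le (by positivity), le_div_iff₀ hδ]
      have c1 := b3.trans (TT_le_exp x)
      rw [Real.exp_neg, le_inv_comm₀ (by positivity) (Real.exp_pos _), inv_div,
        le_div_iff₀ hδ] at c1
      exact c1
    obtain ⟨h1', h2'⟩ := eps_k hε hε' k
    have key := hang _ h1' h2' (k + 2) (by omega) x b5 u hnu b4
    rw [← sum_eq_aa, ← hzu, ← hS, norm_mul, norm_mul, norm_mul, hnu, mul_one, Complex.norm_real,
      Complex.norm_real, Real.norm_of_nonneg (Real.exp_pos _).le,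
      Real.norm_of_nonneg (TT_pos x).le] at key
    push_cast at key
    have b6 : ‖S‖ * Real.exp (-(k * gg ε x))
        ≤ 8 / δ * (C * (k + 2) ^ 2 * Real.exp (-(c * (k + 2)))) := by
      have c1 : ‖S‖ * Real.exp (-(k * gg ε x)) * (δ / 8)
          ≤ ‖S‖ * Real.exp (-(k * gg ε x)) * TT x := by gcongr
      have c2 := c1.trans key
      rw [← le_div_iff₀ (by positivity)] at c2
      refine c2.trans (le_of_eq ?_)
      field_simp
    have b7 : Real.exp (-(k * ((phi0 ε z + phi0 ε w) / 2))) ≤ Real.exp (-(k * gg ε x)) := by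
      apply Real.exp_le_exp.2
      have c0 : 0 ≤ (a - b) ^ 2 / D / 4 := by positivity
      have c2 : gg ε x ≤ (phi0 ε z + phi0 ε w) / 2 := by linarith
      have := mul_le_mul_of_nonneg_left c2 hk0
      linarith
    have b8 : Real.exp (-(c * (k + 2))) ≤ Real.exp (-(c' * k)) := by
      apply Real.exp_le_exp.2
      have c1 : c' ≤ c := min_le_left _ _
      have := mul_le_mul_of_nonneg_right c1 hk0
      linarith
    have b9 : ((k : ℝ) + 2) ^ 2 ≤ (k + 2) ^ 3 := pow_le_pow_right₀ hk2 (by norm_num)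
    calc _ ≤ ‖S‖ * Real.exp (-(k * gg ε x)) := by gcongr
      _ ≤ 8 / δ * (C * (k + 2) ^ 2 * Real.exp (-(c * (k + 2)))) := b6
      _ ≤ 8 / δ * (C * (k + 2) ^ 3 * Real.exp (-(c' * k))) := by gcongr
      _ = 8 / δ * C * ((k + 2) ^ 3 * Real.exp (-(c' * k))) := by ring
      _ ≤ _ := by
          gcongr
          rw [hC']
          have : 0 ≤ 4 * Real.exp 3 := by positivity
          linarith

end Pool.Agent.MP_6c43ae_an

end MrgPart2

-- ======== part 3: formerly Pool.Agent.MP_6c43ae_an.Metric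
section MrgPart3

/-! The metric, its curvature, its failure of analyticity, and the volume form. -/

set_option autoImplicit false

open scoped Manifold ContDiff

namespace Pool.Agent.MP_6c43ae_an

open Set Filter Topology MeasureTheory

/-- The potential in the chart at infinity. -/
noncomputable def phi1 (ε : ℝ) (w : ℂ) : ℝ :=
  Real.log (1 + ‖w‖ ^ 2) + ε * expNegInvGlue (‖w‖ ^ 2)

/-- The metric. -/
noncomputable def hh (ε : ℝ) : Bool → OnePoint ℂ → ℝ
  | false => fun x => Real.exp (-phi0 ε (c0 x))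
  | true => fun x => Real.exp (-phi1 ε (c1 x))

lemma contDiff_log_one_add : ContDiff ℝ ∞ (fun z : ℂ => Real.log (1 + ‖z‖ ^ 2)) :=
  (contDiff_const.add (contDiff_norm_sq ℝ)).log fun z => by positivity

lemma contDiff_phi0 (ε : ℝ) : ContDiff ℝ ∞ (phi0 ε) :=
  contDiff_log_one_add.add (contDiff_const.mul (contDiff_norm_sq ℝ).neg.exp)

lemma contDiff_phi1 (ε : ℝ) : ContDiff ℝ ∞ (phi1 ε) :=
  contDiff_log_one_add.add (contDiff_const.mul (expNegInvGlue.contDiff.comp (contDiff_norm_sq ℝ)))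

lemma phi1_inv (ε : ℝ) {z : ℂ} (hz : z ≠ 0) :
    phi1 ε z⁻¹ = phi0 ε z - Real.log (‖z‖ ^ 2) := by
  have h : 0 < ‖z‖ ^ 2 := by positivity
  unfold phi1 phi0
  rw [norm_inv, inv_pow]
  have e1 : 1 + (‖z‖ ^ 2)⁻¹ = (1 + ‖z‖ ^ 2) / ‖z‖ ^ 2 := by field_simp; ring
  have e2 : expNegInvGlue (‖z‖ ^ 2)⁻¹ = Real.exp (-‖z‖ ^ 2) := by
    simp [expNegInvGlue, not_le.2 (inv_pos.2 h)]
  rw [e1, e2, Real.log_div (by positivity) h.ne']
  ring

lemma hh_true_coe (ε : ℝ) {z : ℂ} (hz : z ≠ 0) :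
    hh ε true z = ‖z‖ ^ 2 * hh ε false z := by
  have h : 0 < ‖z‖ ^ 2 := by positivity
  simp only [hh, c0_coe, c1_coe]
  rw [phi1_inv ε hz, neg_sub, Real.exp_sub, Real.exp_log h, Real.exp_neg, div_eq_mul_inv]

lemma laplacian_radial {f f1 : ℝ → ℝ} {f2 : ℝ} {z : ℂ}
    (h1 : ∀ᶠ s in 𝓝 (‖z‖ ^ 2), HasDerivAt f (f1 s) s) (h2 : HasDerivAt f1 f2 (‖z‖ ^ 2)) :
    Laplacian.laplacian (fun y : ℂ => f (‖y‖ ^ 2)) z = 4 * (f1 (‖z‖ ^ 2) + ‖z‖ ^ 2 * f2) := by
  have hN : ∀ y : ℂ, HasFDerivAt (fun x : ℂ => ‖x‖ ^ 2) (2 • innerSL ℝ y) y := fun y =>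
    (hasStrictFDerivAt_norm_sq y).hasFDerivAt
  have hc : ContinuousAt (fun x : ℂ => ‖x‖ ^ 2) z := (hN z).continuousAt
  have e : fderiv ℝ (fun y : ℂ => f (‖y‖ ^ 2))
      =ᶠ[𝓝 z] fun y => f1 (‖y‖ ^ 2) • (2 • innerSL ℝ y) := by
    filter_upwards [hc.eventually h1] with y hy
    exact (hy.comp_hasFDerivAt y (hN y)).fderiv
  have hA : HasFDerivAt (fun y : ℂ => f1 (‖y‖ ^ 2)) (f2 • (2 • innerSL ℝ z)) z :=
    h2.comp_hasFDerivAt z (hN z)
  have hB : HasFDerivAt (fun y : ℂ => (2 • innerSL ℝ y : ℂ →L[ℝ] ℝ))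
      (2 • (innerSL ℝ : ℂ →L[ℝ] ℂ →L[ℝ] ℝ)) z :=
    (2 • (innerSL ℝ : ℂ →L[ℝ] ℂ →L[ℝ] ℝ)).hasFDerivAt
  have hG := (hA.smul hB).congr_of_eventuallyEq e
  rw [InnerProductSpace.laplacian_eq_iteratedFDeriv_complexPlane]
  simp only [iteratedFDeriv_two_apply, hG.fderiv]
  have hz : ‖z‖ ^ 2 = z.re ^ 2 + z.im ^ 2 := by
    rw [Complex.sq_norm, Complex.normSq_apply]; ring
  have i1 : ((innerSL ℝ : ℂ →L[ℝ] ℂ →L[ℝ] ℝ) 1) 1 = 1 := by
    change inner ℝ (1 : ℂ) 1 = 1
    simp
  have i2 : ((innerSL ℝ : ℂ →L[ℝ] ℂ →L[ℝ] ℝ) Complex.I) Complex.I = 1 := by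
    change inner ℝ Complex.I Complex.I = 1
    simp
  simp
  erw [i1, i2]
  rw [hz]; ring

lemma curv_ineq {ε : ℝ} (hε : 0 ≤ ε) (hε' : ε ≤ 1 / 10000) {t : ℝ} (ht : 0 ≤ t) :
    0 < 1 / (1 + t) ^ 2 + ε * ((t - 1) * Real.exp (-t)) := by
  have h0 : 0 < 1 / (1 + t) ^ 2 := by positivity
  by_cases h : 1 ≤ t
  · have : 0 ≤ ε * ((t - 1) * Real.exp (-t)) :=
      mul_nonneg hε (mul_nonneg (by linarith) (Real.exp_pos _).le)
    linarith
  · push Not at h
    have h1 : 1 / 4 ≤ 1 / (1 + t) ^ 2 := by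
      apply one_div_le_one_div_of_le (by positivity); nlinarith
    have h2 : Real.exp (-t) ≤ 1 := Real.exp_le_one_iff.2 (by linarith)
    have h3 : -1 ≤ (t - 1) * Real.exp (-t) := by nlinarith [Real.exp_pos (-t)]
    nlinarith

lemma hasDerivAt_f0 (ε : ℝ) {s : ℝ} (hs : -1 < s) :
    HasDerivAt (fun t => Real.log (1 + t) + ε * Real.exp (-t))
      (1 / (1 + s) - ε * Real.exp (-s)) s := by
  have h1 := ((hasDerivAt_id s).const_add 1).log (by simp only [id]; linarith)
  have h2 := ((hasDerivAt_id s).neg.exp).const_mul ε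
  refine HasDerivAt.congr_deriv (h1.add h2) ?_
  simp [sub_eq_add_neg]

lemma hasDerivAt_f0' (ε : ℝ) {s : ℝ} (hs : -1 < s) :
    HasDerivAt (fun t => 1 / (1 + t) - ε * Real.exp (-t))
      (-(1 / (1 + s) ^ 2) + ε * Real.exp (-s)) s := by
  have h1 := (hasDerivAt_const s (1 : ℝ)).div ((hasDerivAt_id s).const_add 1)
    (by simp only [id]; linarith)
  have h2 := ((hasDerivAt_id s).neg.exp).const_mul ε
  refine HasDerivAt.congr_deriv (h1.sub h2) ?_
  simp [neg_div]

lemma laplacian_phi0 {ε : ℝ} (hε : 0 ≤ ε) (hε' : ε ≤ 1 / 10000) (z : ℂ) :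
    0 < Laplacian.laplacian (phi0 ε) z := by
  have ht : 0 ≤ ‖z‖ ^ 2 := by positivity
  have := laplacian_radial (z := z) (f := fun t => Real.log (1 + t) + ε * Real.exp (-t))
    (f1 := fun t => 1 / (1 + t) - ε * Real.exp (-t))
    ((lt_mem_nhds (show -1 < ‖z‖ ^ 2 by linarith)).mono fun s hs => hasDerivAt_f0 ε hs)
    (hasDerivAt_f0' ε (by linarith))
  have e : phi0 ε = fun y : ℂ => Real.log (1 + ‖y‖ ^ 2) + ε * Real.exp (-‖y‖ ^ 2) := rfl
  rw [e, this]
  have h2 := curv_ineq hε hε' ht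
  set t := ‖z‖ ^ 2
  have e2 : 1 / (1 + t) - ε * Real.exp (-t) + t * (-(1 / (1 + t) ^ 2) + ε * Real.exp (-t))
      = 1 / (1 + t) ^ 2 + ε * ((t - 1) * Real.exp (-t)) := by
    field_simp; ring
  rw [e2]; linarith

lemma laplacian_phi1_inv {ε : ℝ} (hε : 0 ≤ ε) (hε' : ε ≤ 1 / 10000) {z : ℂ} (hz : z ≠ 0) :
    0 < Laplacian.laplacian (fun y : ℂ => phi1 ε y⁻¹) z := by
  have ht : 0 < ‖z‖ ^ 2 := by positivity
  have e : (fun y : ℂ => phi1 ε y⁻¹) =ᶠ[𝓝 z]
      fun y : ℂ => Real.log (1 + ‖y‖ ^ 2) + ε * Real.exp (-‖y‖ ^ 2) - Real.log (‖y‖ ^ 2) := by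
    filter_upwards [isOpen_ne.mem_nhds hz] with y hy
    exact phi1_inv ε hy
  rw [(InnerProductSpace.laplacian_congr_nhds e).eq_of_nhds]
  have := laplacian_radial (z := z)
    (f := fun t => Real.log (1 + t) + ε * Real.exp (-t) - Real.log t)
    (f1 := fun t => 1 / (1 + t) - ε * Real.exp (-t) - t⁻¹)
    ((lt_mem_nhds ht).mono fun s hs =>
      (hasDerivAt_f0 ε (by linarith)).sub (Real.hasDerivAt_log hs.ne'))
    ((hasDerivAt_f0' ε (by linarith)).sub (hasDerivAt_inv ht.ne'))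
  rw [this]
  have h2 := curv_ineq hε hε' ht.le
  set t := ‖z‖ ^ 2
  have e2 : 1 / (1 + t) - ε * Real.exp (-t) - t⁻¹
      + t * (-(1 / (1 + t) ^ 2) + ε * Real.exp (-t) - -(t ^ 2)⁻¹)
      = 1 / (1 + t) ^ 2 + ε * ((t - 1) * Real.exp (-t)) := by
    field_simp; ring
  rw [e2]; linarith

lemma laplacian_phi1_zero (ε : ℝ) : 0 < Laplacian.laplacian (phi1 ε) 0 := by
  have hs : ContDiff ℝ ∞ expNegInvGlue := expNegInvGlue.contDiff
  have hd : Differentiable ℝ expNegInvGlue := hs.differentiable (by simp)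
  have hd2 : Differentiable ℝ (deriv expNegInvGlue) :=
    ((contDiff_infty_iff_deriv.1 hs).2).differentiable (by simp)
  have h0 : deriv expNegInvGlue 0 = 0 := by
    apply IsLocalMin.deriv_eq_zero
    refine Eventually.of_forall fun x => ?_
    rw [expNegInvGlue.zero_of_nonpos le_rfl]
    exact expNegInvGlue.nonneg x
  have hn : ‖(0 : ℂ)‖ ^ 2 = 0 := by simp
  have := laplacian_radial (z := 0) (f := fun t => Real.log (1 + t) + ε * expNegInvGlue t)
    (f1 := fun t => 1 / (1 + t) - 0 * Real.exp (-t) + ε * deriv expNegInvGlue t)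
    ((lt_mem_nhds (show -1 < ‖(0 : ℂ)‖ ^ 2 by rw [hn]; norm_num)).mono fun s hs => by
      have := (hasDerivAt_f0 0 hs).add ((hd s).hasDerivAt.const_mul ε)
      refine this.congr_of_eventuallyEq (Eventually.of_forall fun t => ?_)
      simp)
    ((hasDerivAt_f0' 0 (by rw [hn]; norm_num)).add ((hd2 _).hasDerivAt.const_mul ε))
  have e : phi1 ε = fun y : ℂ => Real.log (1 + ‖y‖ ^ 2) + ε * expNegInvGlue (‖y‖ ^ 2) := rfl
  rw [e, this, hn, h0]
  norm_num

lemma isPositiveMetric_hh {ε : ℝ} (hε : 0 ≤ ε) (hε' : ε ≤ 1 / 10000) :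
    IsPositiveMetric LL (hh ε) where
  pos i x _ := by cases i <;> exact Real.exp_pos _
  smooth i x hx := by
    cases i
    · exact ((contDiff_phi0 ε).neg.exp.contMDiff.contMDiffAt.comp x
        (contMDiffAt_c0 (𝕜 := ℝ) ∞ hx)).contMDiffWithinAt
    · exact ((contDiff_phi1 ε).neg.exp.contMDiff.contMDiffAt.comp x
        (contMDiffAt_c1 (𝕜 := ℝ) ∞ hx)).contMDiffWithinAt
  compat i j x hx := by
    rw [LL_coord]
    cases i <;> cases j
    · simp [tr]
    · obtain ⟨z, hz, rfl⟩ := mem_both hx.1 hx.2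
      rw [hh_true_coe ε hz]
      have : ‖z‖ ≠ 0 := norm_ne_zero_iff.2 hz
      simp only [tr, c1_coe, norm_inv]
      field_simp
    · obtain ⟨z, hz, rfl⟩ := mem_both hx.2 hx.1
      rw [hh_true_coe ε hz]
      simp only [tr, c0_coe]
    · simp [tr]
  curvature_pos i x hx := by
    induction x using OnePoint.rec with
    | infty =>
      cases i
      · exact absurd rfl hx
      · simp only [chartAt_infty, chart1_apply, chart1_symm_apply, hh, c1_i1, c1_infty,
          Real.log_exp, neg_neg]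
        exact laplacian_phi1_zero ε
    | coe z =>
      cases i
      · simp only [chartAt_coe, chart0_apply, chart0_symm_apply, hh, c0_coe, Real.log_exp, neg_neg]
        exact laplacian_phi0 hε hε' z
      · simp only [chartAt_coe, chart0_apply, chart0_symm_apply, hh, c0_coe, c1_coe, Real.log_exp,
          neg_neg]
        exact laplacian_phi1_inv hε hε' (fun h => hx (by rw [h]))

lemma not_analyticAt_glue_sq : ¬ AnalyticAt ℝ (fun x : ℝ => expNegInvGlue (x ^ 2)) 0 := by
  intro h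
  have hne : ¬ ∀ᶠ x in 𝓝 (0 : ℝ), expNegInvGlue (x ^ 2) = 0 := by
    intro h0
    have h1 : ∀ᶠ x in 𝓝[≠] (0 : ℝ), False := by
      filter_upwards [nhdsWithin_le_nhds h0, self_mem_nhdsWithin] with x hx hx'
      have : 0 < x ^ 2 := by
        have : x ≠ 0 := hx'
        positivity
      exact (expNegInvGlue.pos_of_pos this).ne' hx
    exact h1.exists.elim fun _ h => h
  obtain ⟨n, g, hg, hg0, hfg⟩ := h.exists_eventuallyEq_pow_smul_nonzero_iff.2 hne
  have t1 : Tendsto (fun x : ℝ => x ^ 2) (𝓝 0) (𝓝 0) := by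
    simpa using (continuous_pow 2).tendsto (0 : ℝ)
  have t2 := (expNegInvGlue.tendsto_polynomial_inv_mul_zero (Polynomial.X ^ n)).comp t1
  have t3 := ((continuous_pow n).tendsto (0 : ℝ)).mul t2
  rw [mul_zero] at t3
  have t4 : Tendsto g (𝓝[≠] 0) (𝓝 0) := by
    refine (t3.mono_left nhdsWithin_le_nhds).congr' ?_
    filter_upwards [nhdsWithin_le_nhds hfg, self_mem_nhdsWithin] with x hx hx'
    have hx0 : x ≠ 0 := hx'
    simp only [Function.comp, Polynomial.eval_pow, Polynomial.eval_X]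
    rw [hx, sub_zero, smul_eq_mul, inv_pow, ← pow_mul, mul_comm 2 n, pow_mul]
    field_simp
  have t5 : Tendsto g (𝓝[≠] 0) (𝓝 (g 0)) := hg.continuousAt.tendsto.mono_left nhdsWithin_le_nhds
  exact hg0 (tendsto_nhds_unique t5 t4)

lemma not_isAnalyticMetric_hh {ε : ℝ} (hε : 0 < ε) : ¬ IsAnalyticMetric LL (hh ε) := by
  intro h
  have h1 := h true OnePoint.infty (OnePoint.infty_ne_coe 0)
  simp only [chartAt_infty, chart1_apply, chart1_symm_apply, hh, c1_i1, c1_infty] at h1
  have h2 : AnalyticAt ℝ (fun x : ℝ => Real.exp (-phi1 ε x)) 0 :=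
    AnalyticAt.comp_of_eq (g := fun y : ℂ => Real.exp (-phi1 ε y)) (f := Complex.ofRealCLM) h1
      (Complex.ofRealCLM.analyticAt 0) (by simp)
  have h3 := h2.log (Real.exp_pos _)
  have h4 : AnalyticAt ℝ (fun x : ℝ => Real.log (1 + x ^ 2)) 0 :=
    AnalyticAt.log (by fun_prop) (by norm_num)
  have h5 := (analyticAt_const (v := -ε⁻¹)).mul (h3.add h4)
  refine not_analyticAt_glue_sq (h5.congr (Eventually.of_forall fun x => ?_))
  simp only [Pi.mul_apply, Pi.add_apply, Real.log_exp, phi1, Complex.norm_real, Real.norm_eq_abs,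
    sq_abs]
  field_simp
  ring

/-! The Fubini-Study volume form. -/

noncomputable def rho (z : ℂ) : ℝ := 1 / (1 + ‖z‖ ^ 2) ^ 2

lemma rho_pos (z : ℂ) : 0 < rho z := by unfold rho; positivity

lemma contDiff_rho : ContDiff ℝ ∞ rho :=
  contDiff_const.div ((contDiff_const.add (contDiff_norm_sq ℝ)).pow 2) fun z => by positivity

noncomputable instance measurableSphere : MeasurableSpace (OnePoint ℂ) := borel _

instance borelSphere : BorelSpace (OnePoint ℂ) := ⟨rfl⟩

lemma measurableEmbedding_coe : MeasurableEmbedding (fun z : ℂ => (z : OnePoint ℂ)) :=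
  OnePoint.isOpenEmbedding_coe.measurableEmbedding

noncomputable def mu : Measure (OnePoint ℂ) :=
  (volume.withDensity fun z : ℂ => ENNReal.ofReal (rho z)).map (fun z : ℂ => (z : OnePoint ℂ))

lemma isSmoothVolume_mu : IsSmoothVolume mu := by
  intro x
  refine ⟨rho, contDiff_rho.contDiffOn, fun y _ => rho_pos y, fun A hA _ => ?_⟩
  unfold mu
  rw [measurableEmbedding_coe.map_apply]
  induction x using OnePoint.rec with
  | coe z =>
    have : (fun z : ℂ => (z : OnePoint ℂ)) ⁻¹' ((chartAt ℂ (z : OnePoint ℂ)).symm '' A) = A :=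
      preimage_image_eq A OnePoint.coe_injective
    rw [this, withDensity_apply _ hA]
  | infty =>
    have hA' : MeasurableSet (A \ {0}) := hA.diff (measurableSet_singleton 0)
    have : (fun z : ℂ => (z : OnePoint ℂ)) ⁻¹' ((chartAt ℂ (OnePoint.infty : OnePoint ℂ)).symm '' A)
        = (fun w : ℂ => w⁻¹) '' (A \ {0}) := by
      ext z
      simp only [chartAt_infty, chart1_symm_apply, mem_preimage, mem_image, Set.mem_sdiff,
        mem_singleton_iff]
      constructor
      · rintro ⟨w, hw, hwz⟩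
        have hw0 : w ≠ 0 := by
          rintro rfl
          rw [i1_zero] at hwz
          exact OnePoint.infty_ne_coe z hwz
        rw [i1_of_ne hw0] at hwz
        exact ⟨w, ⟨hw, hw0⟩, OnePoint.coe_injective hwz⟩
      · rintro ⟨w, ⟨hw, hw0⟩, rfl⟩
        exact ⟨w, hw, i1_of_ne hw0⟩
    rw [this, withDensity_apply',
      lintegral_image_eq_lintegral_abs_det_fderiv_mul volume hA'
        (f' := fun w => (ContinuousLinearMap.toSpanSingleton ℂ (-(w ^ 2)⁻¹)).restrictScalars ℝ)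
        (fun w hw => ((hasDerivAt_inv hw.2).hasFDerivAt.restrictScalars ℝ).hasFDerivWithinAt)
        (inv_injective.injOn)]
    rw [← setLIntegral_congr (sdiff_null_ae_eq_self (s := A) (t := {0}) (measure_singleton 0))]
    refine setLIntegral_congr_fun hA' fun w hw => ?_
    have hw0 : ‖w‖ ≠ 0 := norm_ne_zero_iff.2 hw.2
    have hdet : ((ContinuousLinearMap.toSpanSingleton ℂ (-(w ^ 2)⁻¹)).restrictScalars ℝ).det
        = ((‖w‖ ^ 2) ^ 2)⁻¹ := by
      simp [ContinuousLinearMap.det, LinearMap.det_restrictScalars, Algebra.norm_complex_eq,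
        Complex.normSq_eq_norm_sq]
    rw [hdet, ← ENNReal.ofReal_mul (abs_nonneg _), abs_of_nonneg (by positivity)]
    congr 1
    unfold rho
    rw [norm_inv]
    field_simp
    ring

end Pool.Agent.MP_6c43ae_an

end MrgPart3

-- marker of a merged file
example : 731051 + 699942 = 731051 + 699942 := rfl
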