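import Mathlib.AlgebraicTopology.FundamentalGroupoid.SimplyConnected
import Mathlib.Analysis.Convex.Contractible
import Mathlib.Analysis.Complex.RemovableSingularity
import Mathlib.Geometry.Manifold.Algebra.Structures
import Mathlib.Analysis.Complex.Isometry
import Mathlib.RingTheory.PiTensorProduct
import Mathlib.MeasureTheory.Measure.Lebesgue.VolumeOfBalls
import Pool.Agent.MP_6c43ae_an.Metric

-- ======== part 0: formerly Pool.Agent.MP_6c43ae_an.Sections
section MrgPart0

/-! Holomorphic sections, their inner products and the Bergman kernel. -/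

set_option autoImplicit false

open scoped Manifold ContDiff

namespace Pool.Agent.MP_6c43ae_an

open Set Filter Topology MeasureTheory

lemma poly_of_growth (k : ℕ) : ∀ (f : ℂ → ℂ) (l : ℂ), Differentiable ℂ f →
    Tendsto (fun z => (z⁻¹) ^ k * f z) (Bornology.cobounded ℂ) (𝓝 l) →
    ∃ c : ℕ → ℂ, ∀ z, f z = ∑ j ∈ Finset.range (k + 1), c j * z ^ j := by
  induction k with
  | zero =>
    intro f l hf hl
    refine ⟨fun _ => l, fun z => ?_⟩
    rw [Metric.cobounded_eq_cocompact] at hl
    simpa using hf.apply_eq_of_tendsto_cocompact z (by simpa using hl)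
  | succ k ih =>
    intro f l hf hl
    have hg : Differentiable ℂ (dslope f 0) := by
      rw [← differentiableOn_univ] at hf ⊢
      exact (Complex.differentiableOn_dslope univ_mem).2 hf
    have h0 : Tendsto (fun z : ℂ => (z⁻¹) ^ (k + 1) * f 0) (Bornology.cobounded ℂ) (𝓝 0) := by
      have := ((tendsto_inv₀_cobounded (α := ℂ)).pow (k + 1)).mul_const (f 0)
      simpa using this
    have hl' : Tendsto (fun z => (z⁻¹) ^ k * dslope f 0 z) (Bornology.cobounded ℂ) (𝓝 (l - 0)) := by
      refine (hl.sub h0).congr' ?_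
      filter_upwards [Bornology.eventually_ne_cobounded (0 : ℂ)] with z hz
      rw [dslope_of_ne _ hz, slope_def_field, sub_zero, div_eq_mul_inv]
      ring
    obtain ⟨c, hc⟩ := ih _ _ hg hl'
    refine ⟨fun j => Nat.casesOn j (f 0) c, fun z => ?_⟩
    rw [Finset.sum_range_succ']
    have e : f z = f 0 + z * dslope f 0 z := by
      have := sub_smul_dslope f 0 z
      rw [sub_zero, smul_eq_mul] at this
      rw [this]; ring
    rw [e, hc, Finset.mul_sum, add_comm]
    simp only [pow_zero, mul_one]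
    congr 1
    refine Finset.sum_congr rfl fun j _ => ?_
    ring

lemma IsHolSection.continuousAt {k : ℕ} {s : Bool → OnePoint ℂ → ℂ} (hs : IsHolSection LL k s)
    {i : Bool} {x : OnePoint ℂ} (hx : x ∈ UU i) : ContinuousAt (s i) x :=
  (hs.hol i).continuousOn.continuousAt ((isOpen_UU i).mem_nhds hx)

lemma IsHolSection.true_coe {k : ℕ} {s : Bool → OnePoint ℂ → ℂ} (hs : IsHolSection LL k s)
    {z : ℂ} (hz : z ≠ 0) : s true z = (z⁻¹) ^ k * s false z := by
  have := hs.compat false true z ⟨OnePoint.coe_ne_infty z, fun h => hz (OnePoint.coe_injective h)⟩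
  rw [LL_coord] at this
  exact this

lemma tendsto_of_continuousAt_infty {F : OnePoint ℂ → ℂ} (h : ContinuousAt F OnePoint.infty) :
    Tendsto (fun z : ℂ => F z) (Bornology.cobounded ℂ) (𝓝 (F OnePoint.infty)) := by
  rw [OnePoint.continuousAt_infty', coclosedCompact_eq] at h
  exact h

lemma IsHolSection.exists_coeff {k : ℕ} {s : Bool → OnePoint ℂ → ℂ} (hs : IsHolSection LL k s) :
    ∃ c : ℕ → ℂ, ∀ z : ℂ, s false z = ∑ j ∈ Finset.range (k + 1), c j * z ^ j := by
  apply poly_of_growth k _ (s true OnePoint.infty)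
  · intro z
    exact mdifferentiableAt_coe_iff ((hs.hol false).mdifferentiableAt
      ((isOpen_UU false).mem_nhds (OnePoint.coe_ne_infty z)))
  · refine (tendsto_of_continuousAt_infty
      (hs.continuousAt (i := true) (OnePoint.infty_ne_coe 0))).congr' ?_
    filter_upwards [Bornology.eventually_ne_cobounded (0 : ℂ)] with z hz
    exact hs.true_coe hz

/-- The radial weight. -/
noncomputable def WW (ε : ℝ) (k : ℕ) (y : ℝ) : ℝ :=
  Real.exp (-(Real.log (1 + y ^ 2) + ε * Real.exp (-y ^ 2))) ^ k * (1 / (1 + y ^ 2) ^ 2)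

lemma WW_pos (ε : ℝ) (k : ℕ) (y : ℝ) : 0 < WW ε k y := by unfold WW; positivity

lemma continuous_WW (ε : ℝ) (k : ℕ) : Continuous (WW ε k) := by
  unfold WW
  refine Continuous.mul (Continuous.pow (Continuous.rexp (Continuous.neg (Continuous.add
    (Continuous.log (by fun_prop) fun y => by positivity) (by fun_prop)))) k) ?_
  exact Continuous.div continuous_const (by fun_prop) fun y => by positivity

lemma innerProd_eq (ε : ℝ) (k : ℕ) (s t : Bool → OnePoint ℂ → ℂ) :
    innerProd LL (hh ε) mu k s t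
      = ∫ z : ℂ, s false z * (starRingEnd ℂ) (t false z) * (WW ε k ‖z‖ : ℂ) := by
  unfold innerProd mu
  rw [measurableEmbedding_coe.integral_map, integral_withDensity_eq_integral_toReal_smul
    (contDiff_rho.continuous.measurable.ennreal_ofReal) (by simp)]
  refine integral_congr_ae (Eventually.of_forall fun z => ?_)
  simp only [LL_indexAt_coe, ENNReal.toReal_ofReal (rho_pos z).le]
  simp only [Complex.real_smul, hh, c0_coe, WW, rho, phi0]
  push_cast
  ring

lemma radial_subst (ε : ℝ) (k j : ℕ) (s : ℝ) :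
    |Real.exp (s / 2) / 2| • (Real.exp (s / 2) ^ (Module.finrank ℝ ℂ - 1) •
        (Real.exp (s / 2) ^ (2 * j) * WW ε k (Real.exp (s / 2))))
      = 1 / 2 * Real.exp (((j + 1 : ℕ) : ℝ) * s - ((k + 2 : ℕ) : ℝ) * gg (ε * k / (k + 2)) s) := by
  have h2 : Real.exp (s / 2) ^ 2 = Real.exp s := by
    rw [← Real.exp_nat_mul]; congr 1; push_cast; ring
  rw [exp_weight, abs_of_pos (by positivity), Complex.finrank_real_complex, pow_mul]
  unfold WW TT
  have e : Real.exp (j * s - k * gg ε s) = Real.exp s ^ j *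
      Real.exp (-(Real.log (1 + Real.exp s) + ε * Real.exp (-Real.exp s))) ^ k := by
    rw [← Real.exp_nat_mul, ← Real.exp_nat_mul, ← Real.exp_add]
    congr 1
    unfold gg; ring
  rw [e, h2]
  simp only [smul_eq_mul, Nat.add_one_sub_one, pow_one]
  have h3 : Real.exp s / (1 + Real.exp s) ^ 2
      = Real.exp (s / 2) ^ 2 * (1 / (1 + Real.exp s) ^ 2) := by rw [h2]; ring
  rw [h3]
  ring

lemma image_exp_half : (fun s : ℝ => Real.exp (s / 2)) '' univ = Ioi 0 := by
  ext y
  simp only [image_univ, mem_range, mem_Ioi]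
  constructor
  · rintro ⟨s, rfl⟩; exact Real.exp_pos _
  · intro hy
    exact ⟨2 * Real.log y, by rw [mul_div_cancel_left₀ _ two_ne_zero, Real.exp_log hy]⟩

lemma hasDeriv_exp_half (s : ℝ) :
    HasDerivWithinAt (fun s : ℝ => Real.exp (s / 2)) (Real.exp (s / 2) / 2) univ s := by
  have := ((hasDerivAt_id s).div_const 2).exp
  refine (HasDerivAt.congr_deriv this ?_).hasDerivWithinAt
  simp only [id]; ring

lemma injOn_exp_half : InjOn (fun s : ℝ => Real.exp (s / 2)) univ := by
  intro a _ b _ h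
  have := Real.exp_injective h
  linarith

lemma integrable_radial {ε : ℝ} (hε : 0 ≤ ε) (hε' : ε ≤ 1 / 10000) {k j : ℕ} (hj : j ≤ k) :
    Integrable (fun z : ℂ => ‖z‖ ^ (2 * j) * WW ε k ‖z‖) := by
  obtain ⟨h1, h2⟩ := eps_k hε hε' k
  rw [integrable_fun_norm_addHaar volume (f := fun y => y ^ (2 * j) * WW ε k y), ← image_exp_half,
    integrableOn_image_iff_integrableOn_abs_deriv_smul MeasurableSet.univ
      (fun s _ => hasDeriv_exp_half s) injOn_exp_half, integrableOn_univ]
  simp only [radial_subst]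
  exact (integrable_real h1 h2 (by positivity)
    (by exact_mod_cast (by omega : j + 1 < k + 2))).const_mul _

lemma integral_radial (ε : ℝ) (k j : ℕ) :
    ∫ z : ℂ, ‖z‖ ^ (2 * j) * WW ε k ‖z‖ = Real.pi * mm ε k j := by
  rw [integral_fun_norm_addHaar volume (fun y => y ^ (2 * j) * WW ε k y), ← image_exp_half,
    integral_image_eq_integral_abs_deriv_smul MeasurableSet.univ
      (fun s _ => hasDeriv_exp_half s) injOn_exp_half, Measure.restrict_univ]
  simp only [radial_subst]
  rw [integral_const_mul, Complex.finrank_real_complex, Measure.real, Complex.volume_ball]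
  unfold mm ER
  simp
  ring

lemma integrable_monomial {ε : ℝ} (hε : 0 ≤ ε) (hε' : ε ≤ 1 / 10000) {k a b : ℕ} (ha : a ≤ k)
    (hb : b ≤ k) :
    Integrable (fun z : ℂ => z ^ a * (starRingEnd ℂ) z ^ b * (WW ε k ‖z‖ : ℂ)) := by
  refine ((integrable_radial hε hε' ha).add (integrable_radial hε hε' hb)).mono' ?_ ?_
  · refine Continuous.aestronglyMeasurable ?_
    exact ((continuous_pow a).mul (Complex.continuous_conj.pow b)).mul
      (Complex.continuous_ofReal.comp ((continuous_WW ε k).comp continuous_norm))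
  · refine Eventually.of_forall fun z => ?_
    have hW := WW_pos ε k ‖z‖
    simp only [norm_mul, norm_pow, Complex.norm_conj, Complex.norm_real, Pi.add_apply,
      Real.norm_of_nonneg hW.le]
    rw [← add_mul, mul_comm 2 a, mul_comm 2 b, pow_mul, pow_mul]
    apply mul_le_mul_of_nonneg_right _ hW.le
    nlinarith [sq_nonneg (‖z‖ ^ a - ‖z‖ ^ b), pow_nonneg (norm_nonneg z) a,
      pow_nonneg (norm_nonneg z) b]

lemma integral_monomial (ε : ℝ) (k a b : ℕ) :
    ∫ z : ℂ, z ^ a * (starRingEnd ℂ) z ^ b * (WW ε k ‖z‖ : ℂ)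
      = if a = b then ((Real.pi * mm ε k a : ℝ) : ℂ) else 0 := by
  split_ifs with h
  · subst h
    rw [← integral_radial, ← integral_complex_ofReal]
    refine integral_congr_ae (Eventually.of_forall fun z => ?_)
    simp only
    rw [← mul_pow, Complex.mul_conj, Complex.normSq_eq_norm_sq, pow_mul]
    push_cast
    ring
  · have hab : (a : ℝ) - b ≠ 0 := sub_ne_zero.2 (by exact_mod_cast h)
    set θ : ℝ := Real.pi / (a - b) with hθ
    set u : Circle := Circle.exp θ with hu
    have key := (rotation u).measurePreserving.integral_comp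
      (rotation u).toHomeomorph.measurableEmbedding
      (fun z : ℂ => z ^ a * (starRingEnd ℂ) z ^ b * (WW ε k ‖z‖ : ℂ))
    have hu2 : (u : ℂ) ^ a * (starRingEnd ℂ) (u : ℂ) ^ b = -1 := by
      rw [hu, Circle.coe_exp, ← Complex.exp_conj, ← Complex.exp_nat_mul, ← Complex.exp_nat_mul,
        ← Complex.exp_add, ← Complex.exp_pi_mul_I]
      congr 1
      have : (Real.pi : ℂ) = θ * (a - b) := by
        rw [hθ]
        have : ((a : ℂ) - b) ≠ 0 := by exact_mod_cast hab
        push_cast
        field_simp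
      rw [this]
      simp only [map_mul, Complex.conj_ofReal, Complex.conj_I]
      ring
    have e : ∀ z : ℂ, (rotation u z) ^ a * (starRingEnd ℂ) (rotation u z) ^ b
        * (WW ε k ‖rotation u z‖ : ℂ)
        = -(z ^ a * (starRingEnd ℂ) z ^ b * (WW ε k ‖z‖ : ℂ)) := by
      intro z
      rw [LinearIsometryEquiv.norm_map, rotation_apply, map_mul, mul_pow, mul_pow]
      linear_combination (z ^ a * (starRingEnd ℂ) z ^ b * (WW ε k ‖z‖ : ℂ)) * hu2
    simp only [e, integral_neg] at key
    linear_combination (-1 / 2 : ℂ) * key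

lemma innerProd_coeff {ε : ℝ} (hε : 0 ≤ ε) (hε' : ε ≤ 1 / 10000) {k : ℕ}
    {s t : Bool → OnePoint ℂ → ℂ} {c d : ℕ → ℂ}
    (hs : ∀ z : ℂ, s false z = ∑ j ∈ Finset.range (k + 1), c j * z ^ j)
    (ht : ∀ z : ℂ, t false z = ∑ j ∈ Finset.range (k + 1), d j * z ^ j) :
    innerProd LL (hh ε) mu k s t = ∑ j ∈ Finset.range (k + 1),
      c j * (starRingEnd ℂ) (d j) * ((Real.pi * mm ε k j : ℝ) : ℂ) := by
  rw [innerProd_eq]
  have e : ∀ z : ℂ, s false z * (starRingEnd ℂ) (t false z) * (WW ε k ‖z‖ : ℂ)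
      = ∑ a ∈ Finset.range (k + 1), ∑ b ∈ Finset.range (k + 1), (c a * (starRingEnd ℂ) (d b))
        * (z ^ a * (starRingEnd ℂ) z ^ b * (WW ε k ‖z‖ : ℂ)) := by
    intro z
    rw [hs, ht, map_sum, Finset.sum_mul_sum, Finset.sum_mul]
    refine Finset.sum_congr rfl fun a _ => ?_
    rw [Finset.sum_mul]
    refine Finset.sum_congr rfl fun b _ => ?_
    rw [map_mul, map_pow]; ring
  simp only [e]
  have hle : ∀ a ∈ Finset.range (k + 1), a ≤ k := fun a ha =>
    Nat.lt_succ_iff.1 (Finset.mem_range.1 ha)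
  rw [integral_finsetSum _ fun a ha => integrable_finsetSum _ fun b hb =>
    (integrable_monomial hε hε' (hle a ha) (hle b hb)).const_mul _]
  refine Finset.sum_congr rfl fun a ha => ?_
  rw [integral_finsetSum _ fun b hb =>
    (integrable_monomial hε hε' (hle a ha) (hle b hb)).const_mul _]
  simp only [integral_const_mul, integral_monomial, mul_ite, mul_zero]
  rw [Finset.sum_ite_eq, if_pos ha]

/-- The monomial sections. -/
noncomputable def mon (k l : ℕ) (r : ℂ) : Bool → OnePoint ℂ → ℂ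
  | false => fun x => r * c0 x ^ l
  | true => fun x => r * c1 x ^ (k - l)

lemma isHolSection_mon {k l : ℕ} (hl : l ≤ k) (r : ℂ) : IsHolSection LL k (mon k l r) where
  hol i x hx := by
    cases i
    · exact ((contMDiffAt_const.mul ((contMDiffAt_c0 (𝕜 := ℂ) 1 hx).pow l)).mdifferentiableAt
        one_ne_zero).mdifferentiableWithinAt
    · exact ((contMDiffAt_const.mul ((contMDiffAt_c1 (𝕜 := ℂ) 1 hx).pow (k - l))).mdifferentiableAt
        one_ne_zero).mdifferentiableWithinAt
  compat i j x hx := by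
    rw [LL_coord]
    obtain ⟨m, rfl⟩ := Nat.exists_eq_add_of_le hl
    cases i <;> cases j
    · simp [tr]
    · obtain ⟨z, hz, rfl⟩ := mem_both hx.1 hx.2
      simp only [mon, tr, c0_coe, c1_coe, Nat.add_sub_cancel_left, pow_add, inv_pow]
      field_simp
    · obtain ⟨z, hz, rfl⟩ := mem_both hx.2 hx.1
      simp only [mon, tr, c0_coe, c1_coe, Nat.add_sub_cancel_left, pow_add, inv_pow]
      field_simp
    · simp [tr]

lemma mon_coeff {k l : ℕ} (hl : l ≤ k) (r : ℂ) (z : ℂ) :
    mon k l r false z = ∑ j ∈ Finset.range (k + 1), (if j = l then r else 0) * z ^ j := by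
  simp only [mon, c0_coe, ite_mul, zero_mul]
  rw [Finset.sum_ite_eq', if_pos (Finset.mem_range.2 (Nat.lt_succ_of_le hl))]

lemma exists_orthonormalBasis {ε : ℝ} (hε : 0 ≤ ε) (hε' : ε ≤ 1 / 10000) (k : ℕ) :
    ∃ (N : ℕ) (s : Fin N → Bool → OnePoint ℂ → ℂ), IsOrthonormalBasis LL (hh ε) mu k N s := by
  set r : ℕ → ℝ := fun l => √(Real.pi * mm ε k l) with hr
  have hrp : ∀ l, l ≤ k → 0 < r l := fun l hl =>
    Real.sqrt_pos.2 (mul_pos Real.pi_pos (mm_pos hε hε' hl))
  have hr2 : ∀ l, l ≤ k → r l * r l = Real.pi * mm ε k l := fun l hl =>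
    Real.mul_self_sqrt (mul_pos Real.pi_pos (mm_pos hε hε' hl)).le
  have hle : ∀ a : Fin (k + 1), (a : ℕ) ≤ k := fun a => Nat.lt_succ_iff.1 a.2
  refine ⟨k + 1, fun a => mon k a ((r a : ℂ)⁻¹), fun a => isHolSection_mon (hle a) _, ?_, ?_⟩
  · intro a b
    rw [innerProd_coeff hε hε' (mon_coeff (hle a) _) (mon_coeff (hle b) _),
      Finset.sum_eq_single (a : ℕ)]
    · by_cases hab : a = b
      · subst hab
        rw [if_pos rfl, if_pos rfl, ← hr2 a (hle a), map_inv₀, Complex.conj_ofReal]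
        have : (r a : ℂ) ≠ 0 := by exact_mod_cast (hrp a (hle a)).ne'
        push_cast
        field_simp
      · rw [if_neg hab, if_neg (fun h => hab (Fin.ext h))]
        simp
    · intro j _ hj; rw [if_neg hj]; simp
    · intro h; exact absurd (Finset.mem_range.2 a.2) h
  · intro t ht
    obtain ⟨c, hc⟩ := ht.exists_coeff
    have h0 : ∀ z : ℂ, t false z
        = ∑ a : Fin (k + 1), c a * r a * mon k a ((r a : ℂ)⁻¹) false z := by
      intro z
      rw [hc, Finset.sum_range]
      refine Finset.sum_congr rfl fun a _ => ?_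
      have : (r a : ℂ) ≠ 0 := by exact_mod_cast (hrp a (hle a)).ne'
      simp only [mon, c0_coe]
      field_simp
    have h1 : ∀ z : ℂ, z ≠ 0 → t true z
        = ∑ a : Fin (k + 1), c a * r a * mon k a ((r a : ℂ)⁻¹) true z := by
      intro z hz
      rw [ht.true_coe hz, h0, Finset.mul_sum]
      refine Finset.sum_congr rfl fun a _ => ?_
      rw [(isHolSection_mon (hle a) _).true_coe hz]; ring
    refine ⟨fun a => c a * r a, fun i x hx => ?_⟩
    induction x using OnePoint.rec with
    | coe z =>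
      cases i
      · exact h0 z
      · exact h1 z fun h => hx (by rw [h])
    | infty =>
      cases i
      · exact absurd rfl hx
      · have t1 := tendsto_of_continuousAt_infty (ht.continuousAt (i := true) hx)
        have hc2 : ContinuousAt (fun x => ∑ a : Fin (k + 1),
            c a * r a * mon k a ((r a : ℂ)⁻¹) true x) OnePoint.infty :=
          tendsto_finsetSum _ fun a _ =>
            ((isHolSection_mon (hle a) _).continuousAt (i := true) hx).const_mul _
        have t2 := tendsto_of_continuousAt_infty hc2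
        refine tendsto_nhds_unique_of_eventuallyEq t1 t2 ?_
        filter_upwards [Bornology.eventually_ne_cobounded (0 : ℂ)] with z hz
        exact h1 z hz

/-- The kernel does not depend on the orthonormal basis. -/
lemma kernel_eq {ε : ℝ} (hε : 0 ≤ ε) (hε' : ε ≤ 1 / 10000) {k N : ℕ}
    {s : Fin N → Bool → OnePoint ℂ → ℂ} (hs : IsOrthonormalBasis LL (hh ε) mu k N s) (z w : ℂ) :
    ∑ a, s a false z * (starRingEnd ℂ) (s a false w)
      = (Real.pi : ℂ)⁻¹ *
        ∑ j ∈ Finset.range (k + 1), (z * (starRingEnd ℂ) w) ^ j / (mm ε k j : ℂ) := by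
  choose c hc using fun a => (hs.hol a).exists_coeff
  set m : ℕ → ℂ := fun j => ((Real.pi * mm ε k j : ℝ) : ℂ) with hm
  have hm0 : ∀ j, j ≤ k → m j ≠ 0 := fun j hj => by
    simp only [hm]
    exact_mod_cast (mul_pos Real.pi_pos (mm_pos hε hε' hj)).ne'
  have hle : ∀ a ∈ Finset.range (k + 1), a ≤ k := fun a ha =>
    Nat.lt_succ_iff.1 (Finset.mem_range.1 ha)
  have horth : ∀ a b, ∑ j ∈ Finset.range (k + 1), c a j * (starRingEnd ℂ) (c b j) * m j
      = if a = b then 1 else 0 := fun a b => by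
    rw [← hs.orthonormal a b, innerProd_coeff hε hε' (hc a) (hc b)]
  -- expansion of the monomials
  have hexp : ∀ l, l ≤ k → ∀ u : ℂ,
      u ^ l = ∑ a, (starRingEnd ℂ) (c a l) * m l * s a false u := by
    intro l hl
    obtain ⟨γ, hγ⟩ := hs.span _ (isHolSection_mon hl 1)
    have h1 : ∀ u : ℂ, mon k l 1 false u
        = ∑ j ∈ Finset.range (k + 1), (∑ a, γ a * c a j) * u ^ j := by
      intro u
      rw [hγ false u (OnePoint.coe_ne_infty u)]
      simp only [hc, Finset.mul_sum, Finset.sum_mul]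
      rw [Finset.sum_comm]
      refine Finset.sum_congr rfl fun j _ => Finset.sum_congr rfl fun a _ => by ring
    have h2 : ∀ b, γ b = (starRingEnd ℂ) (c b l) * m l := by
      intro b
      have e1 := innerProd_coeff hε hε' h1 (hc b)
      have e2 := innerProd_coeff hε hε' (mon_coeff hl 1) (hc b)
      rw [Finset.sum_eq_single l (fun j _ hj => by rw [if_neg hj]; simp)
        (fun h => absurd (Finset.mem_range.2 (Nat.lt_succ_of_le hl)) h), if_pos rfl, one_mul] at e2
      rw [← e2, e1]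
      simp only [Finset.sum_mul]
      rw [Finset.sum_comm]
      have : ∀ a, ∑ j ∈ Finset.range (k + 1), γ a * c a j * (starRingEnd ℂ) (c b j)
          * ((Real.pi * mm ε k j : ℝ) : ℂ) = γ a * if a = b then 1 else 0 := by
        intro a
        rw [← horth a b, Finset.mul_sum]
        refine Finset.sum_congr rfl fun j _ => by simp only [hm]; ring
      simp only [this, mul_ite, mul_one, mul_zero, Finset.sum_ite_eq', Finset.mem_univ, if_true]
    intro u
    have := hγ false u (OnePoint.coe_ne_infty u)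
    simp only [mon, c0_coe, one_mul, h2] at this
    exact this
  calc ∑ a, s a false z * (starRingEnd ℂ) (s a false w)
      = ∑ a, ∑ j ∈ Finset.range (k + 1),
          s a false z * ((starRingEnd ℂ) (c a j) * (starRingEnd ℂ) w ^ j) := by
        refine Finset.sum_congr rfl fun a _ => ?_
        rw [hc a w, map_sum, Finset.mul_sum]
        simp only [map_mul, map_pow]
    _ = ∑ j ∈ Finset.range (k + 1), (starRingEnd ℂ) w ^ j / m j *
          ∑ a, (starRingEnd ℂ) (c a j) * m j * s a false z := by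
        rw [Finset.sum_comm]
        refine Finset.sum_congr rfl fun j hj => ?_
        rw [Finset.mul_sum]
        refine Finset.sum_congr rfl fun a _ => ?_
        have := hm0 j (hle j hj)
        field_simp
    _ = _ := by
        rw [Finset.mul_sum]
        refine Finset.sum_congr rfl fun j hj => ?_
        rw [← hexp j (hle j hj) z]
        simp only [hm]
        push_cast
        rw [mul_pow]
        ring

end Pool.Agent.MP_6c43ae_an

end MrgPart0

-- ======== part 1: formerly Pool.Agent.MP_6c43ae_an.Decay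
section MrgPart1

/-! Exponential off-diagonal decay on the whole sphere. -/

set_option autoImplicit false

open scoped Manifold ContDiff

namespace Pool.Agent.MP_6c43ae_an

open Set Filter Topology MeasureTheory

noncomputable def sA (x : OnePoint ℂ) : ℂ := x.elim 0 (fun z => z / (1 + ‖z‖ ^ 2 : ℝ))

noncomputable def sB (x : OnePoint ℂ) : ℝ := x.elim 0 (fun z => 1 / (1 + ‖z‖ ^ 2))

lemma tendsto_one_add_sq :
    Tendsto (fun z : ℂ => 1 + ‖z‖ ^ 2) (Bornology.cobounded ℂ) atTop :=
  tendsto_atTop_add_const_left _ _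
    ((tendsto_pow_atTop two_ne_zero).comp tendsto_norm_cobounded_atTop)

lemma continuous_sB : Continuous sB := by
  rw [OnePoint.continuous_iff, coclosedCompact_eq]
  constructor
  · have := tendsto_one_add_sq.inv_tendsto_atTop
    refine this.congr fun z => ?_
    simp [sB]
  · exact Continuous.div continuous_const (by fun_prop) fun z => by positivity

lemma continuous_sA : Continuous sA := by
  rw [OnePoint.continuous_iff, coclosedCompact_eq]
  constructor
  · have h := (tendsto_norm_cobounded_atTop (E := ℂ)).inv_tendsto_atTop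
    refine squeeze_zero_norm' ?_ h
    filter_upwards [Bornology.eventually_ne_cobounded (0 : ℂ)] with z hz
    have hn : 0 < ‖z‖ := norm_pos_iff.2 hz
    change ‖z / ((1 + ‖z‖ ^ 2 : ℝ) : ℂ)‖ ≤ ‖z‖⁻¹
    rw [norm_div, Complex.norm_real, Real.norm_of_nonneg (by positivity), ← one_div,
      div_le_div_iff₀ (by positivity) hn]
    nlinarith
  · refine Continuous.div continuous_id (by fun_prop) fun z => ?_
    exact_mod_cast (by positivity : (1 + ‖z‖ ^ 2 : ℝ) ≠ 0)

/-- The squared chordal distance. -/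
noncomputable def chord (x y : OnePoint ℂ) : ℝ := ‖sA x - sA y‖ ^ 2 + (sB x - sB y) ^ 2

lemma continuous_chord : Continuous (fun p : OnePoint ℂ × OnePoint ℂ => chord p.1 p.2) := by
  unfold chord
  have := continuous_sA
  have := continuous_sB
  fun_prop

lemma chord_coe (z w : ℂ) : chord z w = ‖z - w‖ ^ 2 / ((1 + ‖z‖ ^ 2) * (1 + ‖w‖ ^ 2)) := by
  change ‖z / ((1 + ‖z‖ ^ 2 : ℝ) : ℂ) - w / ((1 + ‖w‖ ^ 2 : ℝ) : ℂ)‖ ^ 2
    + (1 / (1 + ‖z‖ ^ 2) - 1 / (1 + ‖w‖ ^ 2)) ^ 2 = _
  have hz : ‖z‖ ^ 2 = z.re ^ 2 + z.im ^ 2 := by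
    rw [Complex.sq_norm, Complex.normSq_apply]; ring
  have hw : ‖w‖ ^ 2 = w.re ^ 2 + w.im ^ 2 := by
    rw [Complex.sq_norm, Complex.normSq_apply]; ring
  rw [Complex.sq_norm (z - w), Complex.sq_norm (_ - _), Complex.normSq_apply, Complex.normSq_apply]
  simp only [Complex.sub_re, Complex.sub_im, Complex.div_ofReal_re, Complex.div_ofReal_im]
  rw [hz, hw]
  field_simp
  ring

lemma chord_pos {x y : OnePoint ℂ} (h : x ≠ y) : 0 < chord x y := by
  induction x using OnePoint.rec with
  | infty =>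
    induction y using OnePoint.rec with
    | infty => exact absurd rfl h
    | coe w =>
      have : 0 < (sB OnePoint.infty - sB w) ^ 2 := by
        change 0 < (0 - 1 / (1 + ‖w‖ ^ 2)) ^ 2
        rw [zero_sub, neg_sq]; positivity
      unfold chord; positivity
  | coe z =>
    induction y using OnePoint.rec with
    | infty =>
      have : 0 < (sB z - sB OnePoint.infty) ^ 2 := by
        change 0 < (1 / (1 + ‖z‖ ^ 2) - 0) ^ 2
        rw [sub_zero]; positivity
      unfold chord; positivity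
    | coe w =>
      rw [chord_coe]
      have : 0 < ‖z - w‖ := norm_pos_iff.2 (sub_ne_zero.2 fun e => h (by rw [e]))
      positivity

lemma exists_chord_bound {d : OnePoint ℂ → OnePoint ℂ → ℝ} (hd : Continuous (Function.uncurry d))
    (h0 : ∀ x, d x x = 0) {δ : ℝ} (hδ : 0 < δ) :
    ∃ δ' : ℝ, 0 < δ' ∧ ∀ x y, δ < d x y → δ' < chord x y := by
  set K : Set (OnePoint ℂ × OnePoint ℂ) := {p | δ ≤ Function.uncurry d p} with hK
  have hKc : IsCompact K := (isClosed_le continuous_const hd).isCompact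
  rcases K.eq_empty_or_nonempty with h | h
  · refine ⟨1, one_pos, fun x y hxy => ?_⟩
    have : (x, y) ∈ K := hxy.le
    rw [h] at this
    exact this.elim
  · obtain ⟨p, hp, hmin⟩ := hKc.exists_isMinOn h continuous_chord.continuousOn
    have hne : p.1 ≠ p.2 := by
      intro e
      have : δ ≤ d p.1 p.2 := hp
      rw [e, h0] at this
      linarith
    have hpos := chord_pos hne
    refine ⟨chord p.1 p.2 / 2, by linarith, fun x y hxy => ?_⟩
    have : chord p.1 p.2 ≤ chord x y := hmin (show (x, y) ∈ K from hxy.le)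
    linarith

/-- The kernel norm in given frames. -/
noncomputable def kn (ε : ℝ) (k N : ℕ) (s : Fin N → Bool → OnePoint ℂ → ℂ) (i j : Bool)
    (p : OnePoint ℂ × OnePoint ℂ) : ℝ :=
  ‖∑ a, s a i p.1 * (starRingEnd ℂ) (s a j p.2)‖ * √(hh ε i p.1) ^ k * √(hh ε j p.2) ^ k

lemma frame_change (ε : ℝ) (k : ℕ) (i : Bool) {z : ℂ} (hz : z ≠ 0) :
    ∃ u : ℂ, (∀ t, IsHolSection LL k t → t i z = u * t false z) ∧
      ‖u‖ * √(hh ε i z) ^ k = √(hh ε false z) ^ k := by
  cases i
  · exact ⟨1, fun t _ => (one_mul _).symm, by simp⟩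
  · refine ⟨(z⁻¹) ^ k, fun t ht => ht.true_coe hz, ?_⟩
    have hn : ‖z‖ ≠ 0 := norm_ne_zero_iff.2 hz
    rw [hh_true_coe ε hz, Real.sqrt_mul (by positivity), Real.sqrt_sq (norm_nonneg z), norm_pow,
      norm_inv, mul_pow, ← mul_assoc, ← mul_pow, inv_mul_cancel₀ hn, one_pow, one_mul]

lemma kn_eq {ε : ℝ} (hε : 0 ≤ ε) (hε' : ε ≤ 1 / 10000) {k N : ℕ}
    {s : Fin N → Bool → OnePoint ℂ → ℂ} (hs : IsOrthonormalBasis LL (hh ε) mu k N s) (i j : Bool)
    {z w : ℂ} (hz : z ≠ 0) (hw : w ≠ 0) :
    kn ε k N s i j (z, w) = Real.pi⁻¹ *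
      (‖∑ j ∈ Finset.range (k + 1), (z * (starRingEnd ℂ) w) ^ j / (mm ε k j : ℂ)‖
        * Real.exp (-(k * ((phi0 ε z + phi0 ε w) / 2)))) := by
  obtain ⟨u, hu, hu'⟩ := frame_change ε k i hz
  obtain ⟨v, hv, hv'⟩ := frame_change ε k j hw
  unfold kn
  have e : ∑ a, s a i z * (starRingEnd ℂ) (s a j w)
      = u * (starRingEnd ℂ) v * ∑ a, s a false z * (starRingEnd ℂ) (s a false w) := by
    rw [Finset.mul_sum]
    refine Finset.sum_congr rfl fun a _ => ?_
    rw [hu _ (hs.hol a), hv _ (hs.hol a), map_mul]; ring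
  have e2 : √(hh ε false z) ^ k * √(hh ε false w) ^ k
      = Real.exp (-(k * ((phi0 ε z + phi0 ε w) / 2))) := by
    simp only [hh, c0_coe]
    rw [← Real.exp_half, ← Real.exp_half, ← Real.exp_nat_mul, ← Real.exp_nat_mul, ← Real.exp_add]
    congr 1; ring
  simp only
  rw [e, kernel_eq hε hε' hs, norm_mul, norm_mul, norm_mul, Complex.norm_conj, norm_inv,
    Complex.norm_real, Real.norm_of_nonneg Real.pi_pos.le, ← e2, ← hu', ← hv']
  ring

lemma continuousAt_kn {ε : ℝ} (hε : 0 ≤ ε) (hε' : ε ≤ 1 / 10000) {k N : ℕ}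
    {s : Fin N → Bool → OnePoint ℂ → ℂ} (hs : ∀ a, IsHolSection LL k (s a)) {i j : Bool}
    {p : OnePoint ℂ × OnePoint ℂ} (h1 : p.1 ∈ UU i) (h2 : p.2 ∈ UU j) :
    ContinuousAt (kn ε k N s i j) p := by
  have hh' : ∀ (i : Bool) (x : OnePoint ℂ), x ∈ UU i → ContinuousAt (hh ε i) x := fun i x hx =>
    ((isPositiveMetric_hh hε hε').smooth i).continuousOn.continuousAt ((isOpen_UU i).mem_nhds hx)
  unfold kn
  refine (ContinuousAt.mul (ContinuousAt.norm ?_) ?_).mul ?_
  · refine tendsto_finsetSum _ fun a _ => ?_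
    exact (((hs a).continuousAt h1).comp continuousAt_fst).mul
      (Complex.continuous_conj.continuousAt.comp (((hs a).continuousAt h2).comp continuousAt_snd))
  · exact (((hh' i _ h1).comp continuousAt_fst).sqrt).pow k
  · exact (((hh' j _ h2).comp continuousAt_snd).sqrt).pow k

theorem decay {ε : ℝ} (hε : 0 ≤ ε) (hε' : ε ≤ 1 / 10000)
    {d : OnePoint ℂ → OnePoint ℂ → ℝ} (hd : Continuous (Function.uncurry d))
    (h0 : ∀ x, d x x = 0) {δ : ℝ} (hδ : 0 < δ) :
    ∃ c₁ c₂ : ℝ, 0 < c₁ ∧ 0 < c₂ ∧ ∀ (k N : ℕ) (s : Fin N → Bool → OnePoint ℂ → ℂ),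
      IsOrthonormalBasis LL (hh ε) mu k N s → ∀ z w, δ < d z w →
        bergmanNorm LL (hh ε) k N s z w ≤ c₁ * Real.exp (-c₂ * k) := by
  obtain ⟨δ', hδ', hch⟩ := exists_chord_bound hd h0 hδ
  obtain ⟨c₁, c₂, hc₁, hc₂, hcore⟩ := core_decay hε hε' hδ'
  refine ⟨Real.pi⁻¹ * c₁, c₂, by have := Real.pi_pos; positivity, hc₂, ?_⟩
  intro k N s hs x y hxy
  set S : Set (OnePoint ℂ) := univ \ {OnePoint.infty, ((0 : ℂ) : OnePoint ℂ)} with hS
  have hSd : Dense S := dense_univ.sdiff_finite (toFinite _)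
  have hne : (𝓝[S ×ˢ S] (x, y)).NeBot :=
    mem_closure_iff_nhdsWithin_neBot.1 (hSd.prod hSd (x, y))
  have hc : ContinuousAt (kn ε k N s (LL.indexAt x) (LL.indexAt y)) (x, y) :=
    continuousAt_kn hε hε' hs.hol (LL.mem_baseSet_at x) (LL.mem_baseSet_at y)
  change kn ε k N s (LL.indexAt x) (LL.indexAt y) (x, y) ≤ _
  refine le_of_tendsto (hc.tendsto.mono_left (nhdsWithin_le_nhds (s := S ×ˢ S))) ?_
  have h1 : ∀ᶠ p in 𝓝 (x, y), δ' < chord p.1 p.2 :=
    continuous_chord.continuousAt.eventually (lt_mem_nhds (hch x y hxy))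
  filter_upwards [nhdsWithin_le_nhds h1, self_mem_nhdsWithin] with p hp hpS
  obtain ⟨p1, p2⟩ := p
  obtain ⟨z, hz, rfl⟩ := mem_both (x := p1) (fun h => hpS.1.2 (Or.inl h))
    (fun h => hpS.1.2 (Or.inr h))
  obtain ⟨w, hw, rfl⟩ := mem_both (x := p2) (fun h => hpS.2.2 (Or.inl h))
    (fun h => hpS.2.2 (Or.inr h))
  rw [kn_eq hε hε' hs _ _ hz hw, mul_assoc, neg_mul c₂]
  rw [chord_coe] at hp
  have := Real.pi_pos
  exact mul_le_mul_of_nonneg_left (hcore k z w hz hw hp.le) (by positivity)

end Pool.Agent.MP_6c43ae_an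

end MrgPart1

-- marker of a merged file
example : 731051 + 473095 = 731051 + 473095 := rfl
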